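import Pool.Agent.W_626a77_h79.Defs

/-!
# The theorem of Balog, Szemeredi and Gowers in an abelian group
-/

set_option autoImplicit false

namespace Pool.Agent.W_626a77_h79

section BsgA

open Finset
open scoped Pointwise

variable {G : Type*} [AddCommGroup G] [DecidableEq G]

/-- `N b = {a ∈ S : a - b ∈ D}`.  `∑ b, |N b| ≥ |S|^2 / J`, so `∑ b, |N b|^2 ≥ |S|^3 / J^2`
(Cauchy-Schwarz).  `∑ b, #{bad pairs in N b × N b} = ∑ over bad (a, a') of codeg a a'
≤ |S|^2 * |S| / (16 J^2)`.  So `∑ b, (|N b|^2 - 8 #bad_b) ≥ |S|^3 / (2 J^2)` and for some `b ∈ S`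
`|N b|^2 - 8 #bad_b ≥ |S|^2 / (2 J^2)`; take `U = N b`. -/
theorem bsg_one (S D : Finset G) (J : ℝ) (hJ : 1 ≤ J) (hS : S.Nonempty)
    (h1 : (S.card : ℝ) ^ 2 ≤ J * (((S ×ˢ S).filter (fun p => p.1 - p.2 ∈ D)).card : ℝ)) :
    ∃ U ⊆ S, (S.card : ℝ) ≤ 2 * J * U.card ∧
      8 * (((U ×ˢ U).filter
        (fun p => (codeg S D p.1 p.2 : ℝ) < S.card / (16 * J ^ 2))).card : ℝ)
        ≤ (U.card : ℝ) ^ 2 := by
  classical
  have hS0 : (0 : ℝ) < S.card := by exact_mod_cast hS.card_pos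
  have hJ0 : 0 < J := by linarith
  let N : G → Finset G := fun b => S.filter (fun a => a - b ∈ D)
  let P : G × G → Prop := fun p => (codeg S D p.1 p.2 : ℝ) < S.card / (16 * J ^ 2)
  have hE : ((((S ×ˢ S).filter (fun p => p.1 - p.2 ∈ D)).card : ℕ) : ℝ)
      = ∑ b ∈ S, ((N b).card : ℝ) := by
    rw [Finset.card_filter, Finset.sum_product_right]
    push_cast
    refine Finset.sum_congr rfl fun b _ => ?_
    rw [Finset.card_filter]
    push_cast
    rfl
  have hbad : ∑ b ∈ S, (((N b ×ˢ N b).filter P).card : ℝ)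
      ≤ (S.card : ℝ) ^ 2 * (S.card / (16 * J ^ 2)) := by
    have e1 : ∑ b ∈ S, (((N b ×ˢ N b).filter P).card : ℝ)
        = ∑ p ∈ (S ×ˢ S).filter P, (codeg S D p.1 p.2 : ℝ) := by
      have e2 : ∀ b ∈ S, (((N b ×ˢ N b).filter P).card : ℝ)
          = ∑ p ∈ (S ×ˢ S).filter P, (if p.1 - b ∈ D ∧ p.2 - b ∈ D then (1 : ℝ) else 0) := by
        intro b _
        rw [← Finset.sum_filter, Finset.sum_const, nsmul_eq_mul, mul_one]
        congr 2
        ext p
        simp only [N, Finset.mem_filter, Finset.mem_product]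
        tauto
      rw [Finset.sum_congr rfl e2, Finset.sum_comm]
      refine Finset.sum_congr rfl fun p _ => ?_
      rw [codeg, Finset.card_filter]
      push_cast
      rfl
    rw [e1]
    calc ∑ p ∈ (S ×ˢ S).filter P, (codeg S D p.1 p.2 : ℝ)
        ≤ ∑ p ∈ (S ×ˢ S).filter P, ((S.card : ℝ) / (16 * J ^ 2)) := by
          refine Finset.sum_le_sum fun p hp => ?_
          exact le_of_lt (Finset.mem_filter.1 hp).2
      _ = (((S ×ˢ S).filter P).card : ℝ) * ((S.card : ℝ) / (16 * J ^ 2)) := by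
          rw [Finset.sum_const, nsmul_eq_mul]
      _ ≤ (S.card : ℝ) ^ 2 * (S.card / (16 * J ^ 2)) := by
          refine mul_le_mul_of_nonneg_right ?_ (by positivity)
          have : ((S ×ˢ S).filter P).card ≤ S.card * S.card := by
            calc ((S ×ˢ S).filter P).card ≤ (S ×ˢ S).card := Finset.card_filter_le _ _
              _ = S.card * S.card := Finset.card_product _ _
          calc (((S ×ˢ S).filter P).card : ℝ) ≤ ((S.card * S.card : ℕ) : ℝ) := by
                exact_mod_cast this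
            _ = (S.card : ℝ) ^ 2 := by push_cast; ring
  have hcs : (∑ b ∈ S, ((N b).card : ℝ)) ^ 2 ≤ S.card * ∑ b ∈ S, ((N b).card : ℝ) ^ 2 :=
    sq_sum_le_card_mul_sum_sq
  rw [hE] at h1
  set E : ℝ := ∑ b ∈ S, ((N b).card : ℝ) with hEdef
  have hE2 : (S.card : ℝ) ^ 2 / J ≤ E := by
    rw [div_le_iff₀ hJ0]
    linarith
  have hE3 : ((S.card : ℝ) ^ 2 / J) ^ 2 ≤ S.card * ∑ b ∈ S, ((N b).card : ℝ) ^ 2 :=
    le_trans (pow_le_pow_left₀ (by positivity) hE2 2) hcs
  have hE4 : (S.card : ℝ) ^ 3 / J ^ 2 ≤ ∑ b ∈ S, ((N b).card : ℝ) ^ 2 := by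
    have : (S.card : ℝ) * ((S.card : ℝ) ^ 3 / J ^ 2) ≤ S.card * ∑ b ∈ S, ((N b).card : ℝ) ^ 2 := by
      refine le_trans (le_of_eq ?_) hE3
      field_simp
    exact le_of_mul_le_mul_left this hS0
  have hsum : ∑ _b ∈ S, ((S.card : ℝ) ^ 2 / (2 * J ^ 2))
      ≤ ∑ b ∈ S, (((N b).card : ℝ) ^ 2 - 8 * (((N b ×ˢ N b).filter P).card : ℝ)) := by
    rw [Finset.sum_const, nsmul_eq_mul, Finset.sum_sub_distrib, ← Finset.mul_sum]
    have h5 : (S.card : ℝ) * ((S.card : ℝ) ^ 2 / (2 * J ^ 2))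
        = (S.card : ℝ) ^ 3 / J ^ 2 - 8 * ((S.card : ℝ) ^ 2 * (S.card / (16 * J ^ 2))) := by
      field_simp
      ring
    rw [h5]
    linarith
  obtain ⟨b, hb, hb2⟩ := Finset.exists_le_of_sum_le hS hsum
  refine ⟨N b, Finset.filter_subset _ _, ?_, ?_⟩
  · have h6 : (0 : ℝ) ≤ (((N b ×ˢ N b).filter P).card : ℝ) := by positivity
    have h7 : (S.card : ℝ) ^ 2 / (2 * J ^ 2) ≤ ((N b).card : ℝ) ^ 2 := by linarith
    rw [div_le_iff₀ (by positivity)] at h7
    have h8 : (S.card : ℝ) ^ 2 ≤ (2 * J * (N b).card) ^ 2 := by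
      have : 0 ≤ ((N b).card : ℝ) ^ 2 * J ^ 2 := by positivity
      nlinarith
    exact (pow_le_pow_iff_left₀ hS0.le (by positivity) (by norm_num)).1 h8
  · have h9 : 0 ≤ (S.card : ℝ) ^ 2 / (2 * J ^ 2) := by positivity
    have h10 : 8 * (((N b ×ˢ N b).filter P).card : ℝ) ≤ ((N b).card : ℝ) ^ 2 := by linarith
    convert h10

end BsgA

section BsgB

open Finset
open scoped Pointwise

variable {G : Type*} [AddCommGroup G] [DecidableEq G]

/-- `S' = {a ∈ U : at most |U| / 4 bad partners in U}` (bad: `codeg < q`).  If more than `|U| / 2`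
elements of `U` were not in `S'` there would be more than `|U|^2 / 8` bad pairs.  For `a, a' ∈ S'`
at most `|U| / 4 + |U| / 4` elements `u` are bad with `a` or with `a'`. -/
theorem bsg_two (S D U : Finset G) (q : ℝ)
    (h : 8 * (((U ×ˢ U).filter (fun p => (codeg S D p.1 p.2 : ℝ) < q)).card : ℝ)
        ≤ (U.card : ℝ) ^ 2) :
    ∃ S' ⊆ U, (U.card : ℝ) ≤ 2 * S'.card ∧ ∀ a ∈ S', ∀ a' ∈ S', (U.card : ℝ) / 2 ≤
      ((U.filter (fun u => q ≤ codeg S D a u ∧ q ≤ codeg S D a' u)).card : ℝ) := by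
  obtain ⟨Bd, hBd⟩ : ∃ Bd : G → Finset G, Bd = fun a => U.filter (fun u => (codeg S D a u : ℝ) < q) :=
    ⟨_, rfl⟩
  have hsum : ((U ×ˢ U).filter (fun p => (codeg S D p.1 p.2 : ℝ) < q)).card =
      ∑ a ∈ U, (Bd a).card := by
    rw [Finset.card_filter, Finset.sum_product]
    apply Finset.sum_congr rfl
    intro a _
    rw [hBd, Finset.card_filter]
  refine ⟨U.filter (fun a => 4 * ((Bd a).card : ℝ) ≤ U.card), Finset.filter_subset _ _, ?_, ?_⟩
  · by_contra hcon
    rw [not_le] at hcon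
    have hsplit : (U.filter (fun a => 4 * ((Bd a).card : ℝ) ≤ U.card)).card +
        (U.filter (fun a => ¬ 4 * ((Bd a).card : ℝ) ≤ U.card)).card = U.card :=
      Finset.card_filter_add_card_filter_not _
    have hsplit' : ((U.filter (fun a => 4 * ((Bd a).card : ℝ) ≤ U.card)).card : ℝ) +
        ((U.filter (fun a => ¬ 4 * ((Bd a).card : ℝ) ≤ U.card)).card : ℝ) = U.card := by
      exact_mod_cast hsplit
    set n1 : ℝ := ((U.filter (fun a => 4 * ((Bd a).card : ℝ) ≤ U.card)).card : ℝ) with hn1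
    set n2 : ℝ := ((U.filter (fun a => ¬ 4 * ((Bd a).card : ℝ) ≤ U.card)).card : ℝ) with hn2
    have h1 : n2 * (U.card : ℝ) ≤ ∑ a ∈ U.filter (fun a => ¬ 4 * ((Bd a).card : ℝ) ≤ U.card),
        4 * ((Bd a).card : ℝ) := by
      rw [hn2, ← nsmul_eq_mul, ← Finset.sum_const]
      apply Finset.sum_le_sum
      intro a ha
      have := (Finset.mem_filter.1 ha).2
      rw [not_le] at this
      exact this.le
    have h2 : ∑ a ∈ U.filter (fun a => ¬ 4 * ((Bd a).card : ℝ) ≤ U.card),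
        4 * ((Bd a).card : ℝ) ≤ ∑ a ∈ U, 4 * ((Bd a).card : ℝ) := by
      apply Finset.sum_le_sum_of_subset_of_nonneg (Finset.filter_subset _ _)
      intro a _ _
      positivity
    rw [hsum] at h
    push_cast at h
    have h3 := h1.trans h2
    rw [← Finset.mul_sum] at h3
    have hn1' : 0 ≤ n1 := by rw [hn1]; positivity
    have hU : 0 < (U.card : ℝ) := by linarith
    have h4 : (U.card : ℝ) * U.card < 2 * (n2 * U.card) := by
      have : (U.card : ℝ) < 2 * n2 := by linarith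
      nlinarith
    nlinarith
  · intro a ha a' ha'
    have h1 := (Finset.mem_filter.1 ha).2
    have h2 := (Finset.mem_filter.1 ha').2
    have hsub : U ⊆ (U.filter (fun u => q ≤ codeg S D a u ∧ q ≤ codeg S D a' u)) ∪
        (Bd a ∪ Bd a') := by
      intro u hu
      rw [Finset.mem_union, Finset.mem_union, hBd]
      simp only [Finset.mem_filter, hu, true_and]
      by_cases c1 : q ≤ codeg S D a u
      · by_cases c2 : q ≤ codeg S D a' u
        · exact Or.inl ⟨c1, c2⟩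
        · exact Or.inr (Or.inr (not_le.1 c2))
      · exact Or.inr (Or.inl (not_le.1 c1))
    have h3 := (Finset.card_le_card hsub).trans ((Finset.card_union_le _ _).trans
      (Nat.add_le_add_left (Finset.card_union_le _ _) _))
    have h4 : (U.card : ℝ) ≤
        ((U.filter (fun u => q ≤ codeg S D a u ∧ q ≤ codeg S D a' u)).card : ℝ) +
          (((Bd a).card : ℝ) + ((Bd a').card : ℝ)) := by
      exact_mod_cast h3
    linarith

end BsgB

section BsgC

open Finset
open scoped Pointwise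

variable {G : Type*} [AddCommGroup G] [DecidableEq G]

/-- For every `x ∈ S' - S'` choose `a, a'` with `x = a - a'`.  The map
`(x, u, b, b') ↦ (a - b, u - b, u - b', a' - b')` from the set of `(x, u, b, b')` with `u` as in the
hypothesis, `b` a common neighbour of `a` and `u`, `b'` a common neighbour of `a'` and `u`, to
`D × D × D × D` is injective: `x = (a - b) - (u - b) + (u - b') - (a' - b')`, then `a, a'` are
known, and `b = a - (a - b)`, `u = (u - b) + b`, `b' = a' - (a' - b')`. -/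
theorem bsg_three (S D U S' : Finset G) (q : ℝ) (hq : 0 ≤ q)
    (h : ∀ a ∈ S', ∀ a' ∈ S', (U.card : ℝ) / 2 ≤
      ((U.filter (fun u => q ≤ codeg S D a u ∧ q ≤ codeg S D a' u)).card : ℝ)) :
    ((S' - S').card : ℝ) * ((U.card : ℝ) / 2 * q ^ 2) ≤ (D.card : ℝ) ^ 4 := by
  classical
  have hex : ∀ x : G, ∃ p : G × G, x ∈ S' - S' → p.1 ∈ S' ∧ p.2 ∈ S' ∧ p.1 - p.2 = x := by
    intro x
    by_cases hx : x ∈ S' - S'
    · obtain ⟨a, ha, a', ha', haa⟩ := Finset.mem_sub.1 hx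
      exact ⟨(a, a'), fun _ => ⟨ha, ha', haa⟩⟩
    · exact ⟨(0, 0), fun h => absurd h hx⟩
  choose p hp using hex
  let N : G → G → Finset G := fun a u => S.filter (fun b => a - b ∈ D ∧ u - b ∈ D)
  let V : G → Finset G := fun x =>
    U.filter (fun u => q ≤ codeg S D (p x).1 u ∧ q ≤ codeg S D (p x).2 u)
  let T : Finset (Σ _ : G, Σ _ : G, G × G) :=
    (S' - S').sigma fun x => (V x).sigma fun u => N (p x).1 u ×ˢ N (p x).2 u
  have hlow : ((S' - S').card : ℝ) * ((U.card : ℝ) / 2 * q ^ 2) ≤ (T.card : ℝ) := by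
    have h1 : T.card = ∑ x ∈ S' - S', ∑ u ∈ V x, codeg S D (p x).1 u * codeg S D (p x).2 u := by
      simp only [T, Finset.card_sigma, Finset.card_product]
      rfl
    rw [h1]
    push_cast
    rw [← nsmul_eq_mul, ← Finset.sum_const]
    refine Finset.sum_le_sum fun x hx => ?_
    obtain ⟨h2, h3, -⟩ := hp x hx
    calc (U.card : ℝ) / 2 * q ^ 2 ≤ ((V x).card : ℝ) * q ^ 2 :=
          mul_le_mul_of_nonneg_right (h _ h2 _ h3) (sq_nonneg q)
      _ = ∑ u ∈ V x, q ^ 2 := by rw [Finset.sum_const, nsmul_eq_mul]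
      _ ≤ ∑ u ∈ V x, (codeg S D (p x).1 u : ℝ) * (codeg S D (p x).2 u : ℝ) := by
          refine Finset.sum_le_sum fun u hu => ?_
          obtain ⟨-, h4, h5⟩ := Finset.mem_filter.1 hu
          rw [sq]
          exact mul_le_mul h4 h5 hq (Nat.cast_nonneg _)
  have hup : T.card ≤ (D ×ˢ D ×ˢ D ×ˢ D).card := by
    refine Finset.card_le_card_of_injOn
      (fun t => ((p t.1).1 - t.2.2.1, t.2.1 - t.2.2.1, t.2.1 - t.2.2.2, (p t.1).2 - t.2.2.2)) ?_ ?_
    · rintro ⟨x, u, b, b'⟩ ht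
      simp only [T, N, Finset.mem_coe, Finset.mem_sigma, Finset.mem_product, Finset.mem_filter]
        at ht ⊢
      tauto
    · rintro ⟨x, u, b, b'⟩ ht ⟨y, v, c, c'⟩ ht' he
      simp only [T, Finset.mem_coe, Finset.mem_sigma] at ht ht'
      simp only [Prod.mk.injEq] at he
      obtain ⟨e1, e2, e3, e4⟩ := he
      have hx := (hp x ht.1).2.2
      have hy := (hp y ht'.1).2.2
      have hxy : x = y := by
        rw [← hx, ← hy]
        calc (p x).1 - (p x).2
            = ((p x).1 - b) - (u - b) + (u - b') - ((p x).2 - b') := by abel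
          _ = ((p y).1 - c) - (v - c) + (v - c') - ((p y).2 - c') := by rw [e1, e2, e3, e4]
          _ = (p y).1 - (p y).2 := by abel
      subst hxy
      have hb : b = c := by
        have := e1
        exact sub_right_injective this
      subst hb
      have hu : u = v := sub_left_injective e2
      subst hu
      have hb' : b' = c' := sub_right_injective e3
      subst hb'
      rfl
  calc ((S' - S').card : ℝ) * ((U.card : ℝ) / 2 * q ^ 2) ≤ (T.card : ℝ) := hlow
    _ ≤ (((D ×ˢ D ×ˢ D ×ˢ D).card : ℕ) : ℝ) := by exact_mod_cast hup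
    _ = (D.card : ℝ) ^ 4 := by
        simp only [Finset.card_product]
        push_cast
        ring

end BsgC

section Bsg

open Finset
open scoped Pointwise

variable {G : Type*} [AddCommGroup G] [DecidableEq G]

/-- `bsg_one`, `bsg_two` with `q = |S| / (16 J^2)`, `bsg_three`:
`|S' - S'| (|U| / 2) (|S| / (16 J^2))^2 ≤ |D|^4 ≤ J^4 |S|^4`, `|S| ≤ 2 J |U|`, `|U| ≤ 2 |S'|`. -/
theorem bsg (S D : Finset G) (J : ℝ) (hJ : 1 ≤ J) (hS : S.Nonempty)
    (h1 : (S.card : ℝ) ^ 2 ≤ J * (((S ×ˢ S).filter (fun p => p.1 - p.2 ∈ D)).card : ℝ))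
    (h2 : (D.card : ℝ) ≤ J * S.card) :
    ∃ S' ⊆ S, S'.Nonempty ∧ (S.card : ℝ) ≤ 4 * J * S'.card ∧
      ((S' - S').card : ℝ) ≤ 4096 * J ^ 10 * S'.card := by
  obtain ⟨U, hUS, hU1, hU2⟩ := bsg_one S D J hJ hS h1
  obtain ⟨S', hS'U, hS'1, hS'2⟩ := bsg_two S D U _ hU2
  have hs : (0 : ℝ) < S.card := by exact_mod_cast hS.card_pos
  have hJ0 : (0 : ℝ) < J := by linarith
  have hq : (0 : ℝ) ≤ (S.card : ℝ) / (16 * J ^ 2) := by positivity
  have h3 := bsg_three S D U S' _ hq hS'2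
  have hu : (0 : ℝ) < U.card := by
    by_contra hcon
    have h0 : (U.card : ℝ) ≤ 0 := not_lt.1 hcon
    have : 2 * J * (U.card : ℝ) ≤ 0 := mul_nonpos_of_nonneg_of_nonpos (by positivity) h0
    linarith
  have ht : (0 : ℝ) < S'.card := by linarith
  refine ⟨S', hS'U.trans hUS, ?_, ?_, ?_⟩
  · exact Finset.card_pos.1 (by exact_mod_cast ht)
  · calc (S.card : ℝ) ≤ 2 * J * U.card := hU1
      _ ≤ 2 * J * (2 * S'.card) := mul_le_mul_of_nonneg_left hS'1 (by positivity)
      _ = 4 * J * S'.card := by ring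
  · have hd : (D.card : ℝ) ^ 4 ≤ (J * S.card) ^ 4 := pow_le_pow_left₀ (by positivity) h2 4
    have h4 : ((S' - S').card : ℝ) * ((U.card : ℝ) / 2 * ((S.card : ℝ) / (16 * J ^ 2)) ^ 2)
        ≤ (J * S.card) ^ 4 := h3.trans hd
    have h5 : ((S' - S').card : ℝ) * ((U.card : ℝ) / 2 * ((S.card : ℝ) / (16 * J ^ 2)) ^ 2)
        = ((S' - S').card : ℝ) * U.card * ((S.card : ℝ) ^ 2 / (512 * J ^ 4)) := by
      field_simp
      ring
    have h6 : (J * (S.card : ℝ)) ^ 4
        = 512 * J ^ 8 * (S.card : ℝ) ^ 2 * ((S.card : ℝ) ^ 2 / (512 * J ^ 4)) := by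
      field_simp
    rw [h5, h6] at h4
    have h7 : ((S' - S').card : ℝ) * U.card ≤ 512 * J ^ 8 * (S.card : ℝ) ^ 2 :=
      le_of_mul_le_mul_right h4 (by positivity)
    have h8 : (S.card : ℝ) ^ 2 ≤ (2 * J * U.card) ^ 2 := pow_le_pow_left₀ hs.le hU1 2
    have h9 : ((S' - S').card : ℝ) * U.card ≤ 2048 * J ^ 10 * U.card * U.card := by
      calc ((S' - S').card : ℝ) * U.card ≤ 512 * J ^ 8 * (S.card : ℝ) ^ 2 := h7
        _ ≤ 512 * J ^ 8 * (2 * J * U.card) ^ 2 :=
          mul_le_mul_of_nonneg_left h8 (by positivity)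
        _ = 2048 * J ^ 10 * U.card * U.card := by ring
    have h10 : ((S' - S').card : ℝ) ≤ 2048 * J ^ 10 * U.card := le_of_mul_le_mul_right h9 hu
    calc ((S' - S').card : ℝ) ≤ 2048 * J ^ 10 * U.card := h10
      _ ≤ 2048 * J ^ 10 * (2 * S'.card) := mul_le_mul_of_nonneg_left hS'1 (by positivity)
      _ = 4096 * J ^ 10 * S'.card := by ring

end Bsg

end Pool.Agent.W_626a77_h79
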