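import Pool.Agent.W_626a77_h79.Spectrum

/-!
# Averages over a convex progression in the spectrum: the dense piece
-/

set_option autoImplicit false

namespace Pool.Agent.W_626a77_h79

section Dense

open Finset
open scoped Pointwise

variable {M : ℕ} [NeZero M] {H : Type*} [AddCommGroup H] (φ : H →+ ZMod M)

theorem Dense_ch_sum {ι : Type*} (s : Finset ι) (g : ι → ZMod M) :
    ch M (∑ i ∈ s, g i) = ∏ i ∈ s, ch M (g i) := by
  classical
  induction s using Finset.induction_on with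
  | empty => simp [ch_zero]
  | insert a s ha ih => rw [Finset.sum_insert ha, Finset.prod_insert ha, ch_add, ih]

theorem Dense_sum_pow (Xs : Finset H) (hXs : Xs.Nonempty) (j : ℕ) (z : ZMod M) :
    ∑ f ∈ Fintype.piFinset (fun _ : Fin j => Xs), ch M (φ (∑ i, f i) * z)
      = (Xs.card : ℂ) ^ j * (av φ Xs z) ^ j := by
  have h1 : ∀ f : Fin j → H, ch M (φ (∑ i, f i) * z) = ∏ i, ch M (z * φ (f i)) := by
    intro f
    rw [map_sum, Finset.sum_mul, Dense_ch_sum]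
    exact Finset.prod_congr rfl (fun i _ => by rw [mul_comm])
  rw [Finset.sum_congr rfl (fun f _ => h1 f), ← Finset.sum_pow' Xs (fun m => ch M (z * φ m)) j,
    ← mul_pow]
  congr 1
  have hne : (Xs.card : ℂ) ≠ 0 := by
    exact_mod_cast (Finset.card_pos.mpr hXs).ne'
  unfold av
  rw [← mul_assoc, mul_inv_cancel₀ hne, one_mul]

theorem Dense_expand (A : Finset (ZMod M)) (X2 Xs : Finset H) (hXs : Xs.Nonempty) (t : ZMod M)
    (j : ℕ) :
    (((∑ f ∈ Fintype.piFinset (fun _ : Fin j => Xs), ∑ m ∈ X2,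
        ‖hat A (t + φ m + φ (∑ i, f i))‖ ^ 2 : ℝ)) : ℂ)
      = ∑ x ∈ A, ∑ y ∈ A, (∑ m ∈ X2, ch M ((t + φ m) * (x - y))) *
          ((Xs.card : ℂ) ^ j * (av φ Xs (x - y)) ^ j) := by
  push_cast
  have h1 : ∀ (f : Fin j → H) (m : H), ((‖hat A (t + φ m + φ (∑ i, f i))‖ : ℂ)) ^ 2
      = ∑ x ∈ A, ∑ y ∈ A, ch M ((t + φ m) * (x - y)) * ch M (φ (∑ i, f i) * (x - y)) := by
    intro f m
    have := normsq_hat A (t + φ m + φ (∑ i, f i))
    push_cast at this
    rw [this]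
    refine Finset.sum_congr rfl (fun x _ => Finset.sum_congr rfl (fun y _ => ?_))
    rw [add_mul, ch_add]
  calc ∑ f ∈ Fintype.piFinset (fun _ : Fin j => Xs), ∑ m ∈ X2,
        ((‖hat A (t + φ m + φ (∑ i, f i))‖ : ℂ)) ^ 2
      = ∑ f ∈ Fintype.piFinset (fun _ : Fin j => Xs), ∑ m ∈ X2, ∑ x ∈ A, ∑ y ∈ A,
          ch M ((t + φ m) * (x - y)) * ch M (φ (∑ i, f i) * (x - y)) :=
        Finset.sum_congr rfl (fun f _ => Finset.sum_congr rfl (fun m _ => h1 f m))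
    _ = ∑ f ∈ Fintype.piFinset (fun _ : Fin j => Xs), ∑ x ∈ A, ∑ y ∈ A, ∑ m ∈ X2,
          ch M ((t + φ m) * (x - y)) * ch M (φ (∑ i, f i) * (x - y)) := by
        refine Finset.sum_congr rfl (fun f _ => ?_)
        rw [Finset.sum_comm]
        refine Finset.sum_congr rfl (fun x _ => ?_)
        rw [Finset.sum_comm]
    _ = ∑ x ∈ A, ∑ y ∈ A, ∑ f ∈ Fintype.piFinset (fun _ : Fin j => Xs), ∑ m ∈ X2,
          ch M ((t + φ m) * (x - y)) * ch M (φ (∑ i, f i) * (x - y)) := by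
        rw [Finset.sum_comm]
        refine Finset.sum_congr rfl (fun x _ => ?_)
        rw [Finset.sum_comm]
    _ = _ := by
        refine Finset.sum_congr rfl (fun x _ => Finset.sum_congr rfl (fun y _ => ?_))
        rw [← Dense_sum_pow φ Xs hXs j (x - y), Finset.sum_mul_sum, Finset.sum_comm]

/-- For every `f : Fin j → Xs` (`Fintype.piFinset`) the translation `m ↦ m - ∑ f` maps `D1` into
`X2`, so `|D1| q ≤ ∑ m0 ∈ X2, ‖hat A (t + φ m0 + φ (∑ f))‖^2`.  Average over all `f`, expand with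
`normsq_hat`, exchange the sums:
`|Xs|^(-j) ∑ f, ch ((x - y) * φ (∑ i, f i)) = (av φ Xs (x - y)) ^ j` (`Finset.prod_univ_sum` or
`Finset.sum_pow'`), and the sum over `m0 ∈ X2` has norm at most `|X2|`. -/
theorem dense (A : Finset (ZMod M)) (X2 Xs D1 : Finset H) (hXs : Xs.Nonempty) (t : ZMod M) (j : ℕ)
    (hshift : ∀ m ∈ D1, ∀ f : Fin j → H, (∀ i, f i ∈ Xs) → m - ∑ i, f i ∈ X2) (q : ℝ)
    (hq : ∀ m ∈ D1, q ≤ ‖hat A (t + φ m)‖ ^ 2) :
    (D1.card : ℝ) * q ≤ X2.card * ∑ x ∈ A, ∑ y ∈ A, ‖av φ Xs (x - y)‖ ^ j := by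
  have hcard : 0 < (Xs.card : ℝ) ^ j := by
    have : 0 < (Xs.card : ℝ) := by exact_mod_cast Finset.card_pos.mpr hXs
    positivity
  have h1 : ∀ f ∈ Fintype.piFinset (fun _ : Fin j => Xs), (D1.card : ℝ) * q ≤
      ∑ m ∈ X2, ‖hat A (t + φ m + φ (∑ i, f i))‖ ^ 2 := by
    intro f hf
    have hf' : ∀ i, f i ∈ Xs := fun i => Fintype.mem_piFinset.mp hf i
    classical
    calc (D1.card : ℝ) * q = ∑ _m ∈ D1, q := by rw [Finset.sum_const, nsmul_eq_mul]
      _ ≤ ∑ m ∈ D1, ‖hat A (t + φ m)‖ ^ 2 := Finset.sum_le_sum hq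
      _ = ∑ m ∈ D1, ‖hat A (t + φ (m - ∑ i, f i) + φ (∑ i, f i))‖ ^ 2 := by
          refine Finset.sum_congr rfl (fun m _ => ?_)
          rw [add_assoc, ← map_add, sub_add_cancel]
      _ = ∑ m ∈ D1.image (fun m => m - ∑ i, f i), ‖hat A (t + φ m + φ (∑ i, f i))‖ ^ 2 := by
          rw [Finset.sum_image]
          intro a _ b _ hab
          exact sub_left_injective hab
      _ ≤ ∑ m ∈ X2, ‖hat A (t + φ m + φ (∑ i, f i))‖ ^ 2 := by
          refine Finset.sum_le_sum_of_subset_of_nonneg ?_ (fun _ _ _ => by positivity)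
          intro m hm
          obtain ⟨m', hm', rfl⟩ := Finset.mem_image.mp hm
          exact hshift m' hm' f hf'
  have h2 : (Xs.card : ℝ) ^ j * ((D1.card : ℝ) * q) ≤
      ∑ f ∈ Fintype.piFinset (fun _ : Fin j => Xs), ∑ m ∈ X2,
        ‖hat A (t + φ m + φ (∑ i, f i))‖ ^ 2 := by
    have := Finset.sum_le_sum h1
    rw [Finset.sum_const, nsmul_eq_mul, Fintype.card_piFinset_const] at this
    push_cast at this
    exact this
  have h3 : (∑ f ∈ Fintype.piFinset (fun _ : Fin j => Xs), ∑ m ∈ X2,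
        ‖hat A (t + φ m + φ (∑ i, f i))‖ ^ 2) ≤
      (Xs.card : ℝ) ^ j * (X2.card * ∑ x ∈ A, ∑ y ∈ A, ‖av φ Xs (x - y)‖ ^ j) := by
    have hnn : 0 ≤ (∑ f ∈ Fintype.piFinset (fun _ : Fin j => Xs), ∑ m ∈ X2,
        ‖hat A (t + φ m + φ (∑ i, f i))‖ ^ 2) :=
      Finset.sum_nonneg (fun _ _ => Finset.sum_nonneg (fun _ _ => by positivity))
    rw [← Complex.norm_of_nonneg hnn, Dense_expand φ A X2 Xs hXs t j]
    calc _ ≤ ∑ x ∈ A, ‖∑ y ∈ A, (∑ m ∈ X2, ch M ((t + φ m) * (x - y))) *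
            ((Xs.card : ℂ) ^ j * (av φ Xs (x - y)) ^ j)‖ := norm_sum_le _ _
      _ ≤ ∑ x ∈ A, ∑ y ∈ A, (X2.card : ℝ) * ((Xs.card : ℝ) ^ j * ‖av φ Xs (x - y)‖ ^ j) := by
          refine Finset.sum_le_sum (fun x _ => (norm_sum_le _ _).trans ?_)
          refine Finset.sum_le_sum (fun y _ => ?_)
          rw [norm_mul, norm_mul, norm_pow, norm_pow, Complex.norm_natCast]
          refine mul_le_mul_of_nonneg_right ?_ (by positivity)
          calc ‖∑ m ∈ X2, ch M ((t + φ m) * (x - y))‖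
              ≤ ∑ m ∈ X2, ‖ch M ((t + φ m) * (x - y))‖ := norm_sum_le _ _
            _ = X2.card := by
                rw [Finset.sum_congr rfl (fun m _ => norm_ch _), Finset.sum_const, nsmul_eq_mul,
                  mul_one]
      _ = _ := by
          rw [Finset.mul_sum, Finset.mul_sum]
          refine Finset.sum_congr rfl (fun x _ => ?_)
          rw [Finset.mul_sum, Finset.mul_sum]
          refine Finset.sum_congr rfl (fun y _ => ?_)
          ring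
  exact le_of_mul_le_mul_left (h2.trans h3) hcard

end Dense

section DenseB

open Finset
open scoped Pointwise

variable {M : ℕ} [NeZero M]

/-- choose `x` with `ρ |A| ≤ ∑ y, w (x - y) ^ j`; the `y` with `w (x - y) ^ j < ρ / 2` contribute at
most `ρ |A| / 2` and the others at most `1` each; and `(1 - c)^j < ρ / 2`. -/
theorem exists_popular (A : Finset (ZMod M)) (hA : A.Nonempty) (w : ZMod M → ℝ)
    (hw0 : ∀ z, 0 ≤ w z) (hw1 : ∀ z, w z ≤ 1) (j : ℕ) (ρ c : ℝ) (hρ : 0 < ρ) (hc : c ≤ 1)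
    (hj : (1 - c) ^ j < ρ / 2) (h : ρ * (A.card : ℝ) ^ 2 ≤ ∑ x ∈ A, ∑ y ∈ A, w (x - y) ^ j) :
    ∃ x ∈ A, ρ / 2 * A.card ≤ ((A.filter (fun y => 1 - c ≤ w (x - y))).card : ℝ) := by
  by_contra hcon
  push Not at hcon
  have hlt : ∀ x ∈ A, ∑ y ∈ A, w (x - y) ^ j < ρ * A.card := by
    intro x hx
    have h1 := hcon x hx
    rw [← Finset.sum_filter_add_sum_filter_not A (fun y => 1 - c ≤ w (x - y))]
    have hgood : ∑ y ∈ A.filter (fun y => 1 - c ≤ w (x - y)), w (x - y) ^ j ≤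
        ((A.filter (fun y => 1 - c ≤ w (x - y))).card : ℝ) := by
      calc ∑ y ∈ A.filter (fun y => 1 - c ≤ w (x - y)), w (x - y) ^ j
          ≤ ∑ y ∈ A.filter (fun y => 1 - c ≤ w (x - y)), (1 : ℝ) :=
            Finset.sum_le_sum (fun y _ => pow_le_one₀ (hw0 _) (hw1 _))
        _ = _ := by simp
    have hbad : ∑ y ∈ A.filter (fun y => ¬ (1 - c ≤ w (x - y))), w (x - y) ^ j ≤
        (A.card : ℝ) * (ρ / 2) := by
      calc ∑ y ∈ A.filter (fun y => ¬ (1 - c ≤ w (x - y))), w (x - y) ^ j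
          ≤ ∑ y ∈ A.filter (fun y => ¬ (1 - c ≤ w (x - y))), (ρ / 2) := by
            refine Finset.sum_le_sum (fun y hy => ?_)
            have hy' : w (x - y) < 1 - c := not_le.mp (Finset.mem_filter.mp hy).2
            exact (pow_le_pow_left₀ (hw0 _) hy'.le j).trans hj.le
        _ = ((A.filter (fun y => ¬ (1 - c ≤ w (x - y)))).card : ℝ) * (ρ / 2) := by
            rw [Finset.sum_const, nsmul_eq_mul]
        _ ≤ (A.card : ℝ) * (ρ / 2) := by
            have hcard : ((A.filter (fun y => ¬ (1 - c ≤ w (x - y)))).card : ℝ) ≤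
                (A.card : ℝ) := by
              exact_mod_cast Finset.card_filter_le A _
            exact mul_le_mul_of_nonneg_right hcard (by positivity)
    linarith
  have hsum : ∑ x ∈ A, ∑ y ∈ A, w (x - y) ^ j < ∑ x ∈ A, (ρ * (A.card : ℝ)) :=
    Finset.sum_lt_sum_of_nonempty hA hlt
  rw [Finset.sum_const, nsmul_eq_mul] at hsum
  have : (A.card : ℝ) * (ρ * A.card) = ρ * (A.card : ℝ) ^ 2 := by ring
  linarith

end DenseB

section Overlap

open Finset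
open scoped Pointwise

variable {M : ℕ} [NeZero M] {H : Type*} [AddCommGroup H] (φ : H →+ ZMod M)

private theorem overlap_phase (w : ℂ) : ∃ ω : ℂ, ‖ω‖ = 1 ∧ (w * (starRingEnd ℂ) ω).re = ‖w‖ := by
  by_cases h : w = 0
  · exact ⟨1, by simp, by simp [h]⟩
  · have hw : ‖w‖ ≠ 0 := norm_ne_zero_iff.2 h
    refine ⟨w / (‖w‖ : ℂ), ?_, ?_⟩
    · rw [norm_div, Complex.norm_real, norm_norm, div_self hw]
    · have h1 : w * (starRingEnd ℂ) (w / (‖w‖ : ℂ)) = ((‖w‖ : ℝ) : ℂ) := by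
        rw [map_div₀, Complex.conj_ofReal, ← mul_div_assoc, Complex.mul_conj, Complex.normSq_eq_norm_sq]
        have hw' : ((‖w‖ : ℝ) : ℂ) ≠ 0 := by exact_mod_cast hw
        rw [div_eq_iff hw']
        push_cast
        ring
      rw [h1, Complex.ofReal_re]

private theorem overlap_dist {a ω : ℂ} (ha : ‖a‖ = 1) (hω : ‖ω‖ = 1) :
    ‖a - ω‖ ^ 2 = 2 * (1 - (a * (starRingEnd ℂ) ω).re) := by
  rw [← Complex.normSq_eq_norm_sq, Complex.normSq_sub, Complex.normSq_eq_norm_sq,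
    Complex.normSq_eq_norm_sq, ha, hω]
  ring

private theorem overlap_nonneg {a ω : ℂ} (ha : ‖a‖ = 1) (hω : ‖ω‖ = 1) :
    0 ≤ 1 - (a * (starRingEnd ℂ) ω).re := by
  have := overlap_dist ha hω
  have h2 := sq_nonneg ‖a - ω‖
  linarith

/-- `ω = av / ‖av‖` (or `1` if `av = 0`, then `c ≥ 1` and the claim is trivial), so
`∑ m ∈ Xs, (1 - Re (conj ω * ch (z * φ m))) ≤ c |Xs|`, all terms `≥ 0`.  Sum over `m ∈ Xi` of the
terms at `m` and at `m + b` is at most `2 c |Xs| ≤ 4 c |Xi|`, so some `m ∈ Xi` has sum `≤ 4 c`;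
`‖ch - ω‖^2 = 2 (1 - Re (conj ω ch))`; `(p + q)^2 ≤ 2 (p^2 + q^2) ≤ 16 c`; and
`‖1 - ch (z * φ b)‖ = ‖ch (z * φ m) - ch (z * φ (m + b))‖`. -/
theorem overlap_one (Xs Xi : Finset H) (hXs : Xs.Nonempty) (b : H)
    (h : ∀ m ∈ Xi, m ∈ Xs ∧ m + b ∈ Xs) (h2 : (Xs.card : ℝ) ≤ 2 * Xi.card) (z : ZMod M) (c : ℝ)
    (hc : 0 ≤ c) (hz : 1 - c ≤ ‖av φ Xs z‖) : ‖1 - ch M (z * φ b)‖ ≤ 4 * Real.sqrt c := by
  classical
  have hN : (0 : ℝ) < Xs.card := by exact_mod_cast hXs.card_pos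
  obtain ⟨ω, hω, hph⟩ := overlap_phase (av φ Xs z)
  have ht0 : ∀ m : H, 0 ≤ 1 - (ch M (z * φ m) * (starRingEnd ℂ) ω).re := fun m =>
    overlap_nonneg (norm_ch _) hω
  have hsum : ∑ m ∈ Xs, (1 - (ch M (z * φ m) * (starRingEnd ℂ) ω).re) ≤ c * Xs.card := by
    have h3 : ∑ m ∈ Xs, (ch M (z * φ m) * (starRingEnd ℂ) ω).re = Xs.card * ‖av φ Xs z‖ := by
      rw [← Complex.re_sum, ← Finset.sum_mul, ← hph]
      have h4 : ∑ m ∈ Xs, ch M (z * φ m) = ((Xs.card : ℝ) : ℂ) * av φ Xs z := by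
        unfold av
        rw [← mul_assoc]
        have h5 : ((Xs.card : ℝ) : ℂ) * (Xs.card : ℂ)⁻¹ = 1 := by
          push_cast
          exact mul_inv_cancel₀ (by exact_mod_cast hN.ne')
        rw [h5, one_mul]
      rw [h4, mul_assoc, Complex.re_ofReal_mul]
    rw [Finset.sum_sub_distrib, h3, Finset.sum_const, nsmul_eq_mul, mul_one]
    nlinarith
  have hXi0 : (0 : ℝ) < Xi.card := by linarith
  have hXi : Xi.Nonempty := by
    rw [← Finset.card_pos]
    exact_mod_cast hXi0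
  have hs1 : ∑ m ∈ Xi, (1 - (ch M (z * φ m) * (starRingEnd ℂ) ω).re) ≤ c * Xs.card :=
    (Finset.sum_le_sum_of_subset_of_nonneg (fun m hm => (h m hm).1)
      (fun m _ _ => ht0 m)).trans hsum
  have hs2 : ∑ m ∈ Xi, (1 - (ch M (z * φ (m + b)) * (starRingEnd ℂ) ω).re) ≤ c * Xs.card := by
    have h6 : ∑ m ∈ Xi, (1 - (ch M (z * φ (m + b)) * (starRingEnd ℂ) ω).re)
        = ∑ m ∈ Xi.image (fun m => m + b), (1 - (ch M (z * φ m) * (starRingEnd ℂ) ω).re) := by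
      rw [Finset.sum_image]
      intro x _ y _ hxy
      exact add_right_cancel hxy
    rw [h6]
    refine (Finset.sum_le_sum_of_subset_of_nonneg ?_ (fun m _ _ => ht0 m)).trans hsum
    intro m hm
    obtain ⟨x, hx, rfl⟩ := Finset.mem_image.1 hm
    exact (h x hx).2
  obtain ⟨m, hm, hmle⟩ : ∃ m ∈ Xi, (1 - (ch M (z * φ m) * (starRingEnd ℂ) ω).re) +
      (1 - (ch M (z * φ (m + b)) * (starRingEnd ℂ) ω).re) ≤ 4 * c := by
    refine Finset.exists_le_of_sum_le hXi ?_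
    rw [Finset.sum_add_distrib, Finset.sum_const, nsmul_eq_mul]
    nlinarith
  have hp := overlap_dist (norm_ch (z * φ m)) hω
  have hq := overlap_dist (norm_ch (z * φ (m + b))) hω
  have hp0 := norm_nonneg (ch M (z * φ m) - ω)
  have hq0 := norm_nonneg (ch M (z * φ (m + b)) - ω)
  have hkey : ‖1 - ch M (z * φ b)‖ ≤ ‖ch M (z * φ m) - ω‖ + ‖ch M (z * φ (m + b)) - ω‖ := by
    have h7 : ch M (z * φ (m + b)) = ch M (z * φ m) * ch M (z * φ b) := by
      rw [map_add, mul_add, ch_add]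
    have h8 : ‖ch M (z * φ m) - ch M (z * φ (m + b))‖ = ‖1 - ch M (z * φ b)‖ := by
      rw [h7]
      have h9 : ch M (z * φ m) - ch M (z * φ m) * ch M (z * φ b)
          = ch M (z * φ m) * (1 - ch M (z * φ b)) := by ring
      rw [h9, norm_mul, norm_ch, one_mul]
    rw [← h8]
    have h10 : ch M (z * φ m) - ch M (z * φ (m + b))
        = (ch M (z * φ m) - ω) - (ch M (z * φ (m + b)) - ω) := by ring
    rw [h10]
    exact norm_sub_le _ _
  refine hkey.trans ?_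
  have h11 : (4 * Real.sqrt c) ^ 2 = 16 * c := by
    rw [mul_pow, Real.sq_sqrt hc]
    norm_num
  refine abs_le_of_sq_le_sq' ?_ (by positivity) |>.2
  rw [h11]
  nlinarith [sq_nonneg (‖ch M (z * φ m) - ω‖ - ‖ch M (z * φ (m + b)) - ω‖)]

end Overlap

section OverlapB

open Finset
open scoped Pointwise

variable {M : ℕ} [NeZero M] {H : Type*} [AddCommGroup H] (φ : H →+ ZMod M)

/-- a sum of characters over `S` minus the sum over a subset `T` -/
private theorem overlapB_sdiff (S T : Finset H) (hTS : T ⊆ S) (z : ZMod M) :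
    ‖∑ m ∈ S, ch M (z * φ m) - ∑ m ∈ T, ch M (z * φ m)‖ ≤ (S.card : ℝ) - T.card := by
  classical
  have h1 : ∑ m ∈ S, ch M (z * φ m) - ∑ m ∈ T, ch M (z * φ m)
      = ∑ m ∈ S \ T, ch M (z * φ m) := by
    rw [← Finset.sum_sdiff hTS]; ring
  rw [h1]
  refine (norm_sum_le _ _).trans ?_
  have h2 : ((S \ T).card : ℝ) = (S.card : ℝ) - T.card := by
    rw [Finset.card_sdiff_of_subset hTS, Nat.cast_sub (Finset.card_le_card hTS)]
  simp only [norm_ch, Finset.sum_const, nsmul_eq_mul, mul_one]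
  exact h2.le

/-- `av * ch (z * φ b)` is the average of `ch (z * φ m)` over `m ∈ Xs + b`; `Xi` is contained in both
`Xs` and `Xs + b`, so the two sums differ by at most `2 (|Xs| - |Xi|) ≤ 2 c2 |Xs|` terms:
`‖av‖ ‖1 - ch (z * φ b)‖ ≤ 2 c2`. -/
theorem overlap_two (Xs Xi : Finset H) (hXs : Xs.Nonempty) (b : H)
    (h : ∀ m ∈ Xi, m ∈ Xs ∧ m - b ∈ Xs) (c2 : ℝ) (h2 : (1 - c2) * (Xs.card : ℝ) ≤ Xi.card)
    (z : ZMod M) (hz : 1 / 2 ≤ ‖av φ Xs z‖) : ‖1 - ch M (z * φ b)‖ ≤ 4 * c2 := by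
  classical
  have hc : (0 : ℝ) < Xs.card := by exact_mod_cast hXs.card_pos
  set Xb : Finset H := Xs.map (addRightEmbedding b) with hXb
  have hcb : Xb.card = Xs.card := by rw [hXb, Finset.card_map]
  have hs1 : Xi ⊆ Xs := fun m hm => (h m hm).1
  have hs2 : Xi ⊆ Xb := by
    intro m hm
    rw [hXb, Finset.mem_map]
    exact ⟨m - b, (h m hm).2, by simp⟩
  have hsum : ∑ m ∈ Xb, ch M (z * φ m) = (∑ m ∈ Xs, ch M (z * φ m)) * ch M (z * φ b) := by
    rw [hXb, Finset.sum_map, Finset.sum_mul]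
    refine Finset.sum_congr rfl fun m _ => ?_
    rw [← ch_add]
    simp only [addRightEmbedding_apply, map_add, mul_add]
  set S : ℂ := ∑ m ∈ Xs, ch M (z * φ m) with hS
  have e1 := overlapB_sdiff φ Xs Xi hs1 z
  have e2 := overlapB_sdiff φ Xb Xi hs2 z
  rw [hsum, hcb] at e2
  have e3 : ‖S * (1 - ch M (z * φ b))‖ ≤ 2 * ((Xs.card : ℝ) - Xi.card) := by
    have : S * (1 - ch M (z * φ b))
        = (S - ∑ m ∈ Xi, ch M (z * φ m)) - (S * ch M (z * φ b) - ∑ m ∈ Xi, ch M (z * φ m)) := by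
      ring
    rw [this]
    refine (norm_sub_le _ _).trans ?_
    linarith
  have hav : ‖av φ Xs z‖ = (Xs.card : ℝ)⁻¹ * ‖S‖ := by
    unfold av
    rw [norm_mul, norm_inv, Complex.norm_natCast]
  have hSn : (Xs.card : ℝ) / 2 ≤ ‖S‖ := by
    rw [hav] at hz
    have h3 := mul_le_mul_of_nonneg_left hz hc.le
    rw [← mul_assoc, mul_inv_cancel₀ hc.ne', one_mul] at h3
    linarith
  rw [norm_mul] at e3
  have h4 : (Xs.card : ℝ) / 2 * ‖1 - ch M (z * φ b)‖ ≤ ‖S‖ * ‖1 - ch M (z * φ b)‖ :=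
    mul_le_mul_of_nonneg_right hSn (norm_nonneg _)
  have h5 : (Xs.card : ℝ) * ‖1 - ch M (z * φ b)‖ ≤ (Xs.card : ℝ) * (4 * c2) := by nlinarith
  exact le_of_mul_le_mul_left h5 hc

end OverlapB

end Pool.Agent.W_626a77_h79
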