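import Pool.Agent.W_626a77_h79.Spectrum

/-!
# Averages over a convex progression in the spectrum: size of the Bohr set
-/

set_option autoImplicit false

namespace Pool.Agent.W_626a77_h79

section Upper

open Finset
open scoped Pointwise

variable {M : ℕ} [NeZero M] {H : Type*} [AddCommGroup H] (φ : H →+ ZMod M)

private theorem Upper_half_le_re (w : ℂ) (h1 : ‖w‖ = 1) (h2 : ‖1 - w‖ ≤ 1) : 1 / 2 ≤ w.re := by
  have e1 : w.re * w.re + w.im * w.im = 1 := by
    have := Complex.sq_norm w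
    rw [h1, Complex.normSq_apply] at this
    linarith
  have e2 : (1 - w.re) * (1 - w.re) + w.im * w.im ≤ 1 := by
    have h3 := Complex.sq_norm (1 - w)
    rw [Complex.normSq_apply] at h3
    simp only [Complex.sub_re, Complex.one_re, Complex.sub_im, Complex.one_im] at h3
    have h4 : ‖1 - w‖ ^ 2 ≤ 1 := by
      have := norm_nonneg (1 - w)
      nlinarith
    nlinarith
  nlinarith

/-- `z ∈ Bz φ Y 1`: `1/2 ≤ Re (ch (z * φ b))` for `b ∈ Y` (a unit complex number `w` with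
`‖1 - w‖ ≤ 1` has real part at least `1/2`, see `W_626a77_h48.FourC.half_le_re`), so
`1/2 ≤ ‖av φ Y z‖`; then `sum_av_sq_le`. -/
theorem upper (Y K2 : Finset H) (hY : Y.Nonempty)
    (hK2 : ∀ m ∈ Y, ∀ m' ∈ Y, φ m = φ m' → m - m' ∈ K2) :
    ((Bz φ Y 1).card : ℝ) * Y.card ≤ 4 * M * K2.card := by
  classical
  have hc : (0 : ℝ) < Y.card := by exact_mod_cast hY.card_pos
  have h1 : ∀ z ∈ Bz φ Y 1, (1 / 4 : ℝ) ≤ ‖av φ Y z‖ ^ 2 := by
    intro z hz
    have hz' : ∀ b ∈ Y, ‖1 - ch M (z * φ b)‖ ≤ 1 := by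
      simpa [Bz] using hz
    have h2 : (Y.card : ℝ) / 2 ≤ (∑ m ∈ Y, ch M (z * φ m)).re := by
      rw [Complex.re_sum]
      calc (Y.card : ℝ) / 2 = ∑ m ∈ Y, (1 / 2 : ℝ) := by rw [Finset.sum_const, nsmul_eq_mul]; ring
        _ ≤ _ := Finset.sum_le_sum fun b hb => Upper_half_le_re _ (norm_ch _) (hz' b hb)
    have h3 : (Y.card : ℝ) / 2 ≤ ‖∑ m ∈ Y, ch M (z * φ m)‖ := h2.trans (Complex.re_le_norm _)
    have h4 : (1 / 2 : ℝ) ≤ ‖av φ Y z‖ := by
      unfold av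
      rw [norm_mul, norm_inv, Complex.norm_natCast]
      rw [inv_mul_eq_div, le_div_iff₀ hc]
      linarith
    nlinarith
  have h5 : ((Bz φ Y 1).card : ℝ) * (1 / 4) ≤ ∑ z : ZMod M, ‖av φ Y z‖ ^ 2 := by
    calc ((Bz φ Y 1).card : ℝ) * (1 / 4) = ∑ z ∈ Bz φ Y 1, (1 / 4 : ℝ) := by
          rw [Finset.sum_const, nsmul_eq_mul]
      _ ≤ ∑ z ∈ Bz φ Y 1, ‖av φ Y z‖ ^ 2 := Finset.sum_le_sum h1
      _ ≤ _ := Finset.sum_le_univ_sum_of_nonneg fun z => sq_nonneg _
  have h6 := sum_av_sq_le φ Y K2 hK2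
  have h7 := mul_le_mul_of_nonneg_left h5 hc.le
  nlinarith

end Upper

section Interval

open Finset
open scoped Pointwise

variable {M : ℕ} [NeZero M] {H : Type*} [AddCommGroup H] (φ : H →+ ZMod M)

/-- two elements in the same class are close -/
private theorem interval_close (q : ℕ) (hq : 1 ≤ q) (z w : ZMod M)
    (h : q * z.val / M = q * w.val / M) : ‖1 - ch M (z - w)‖ ≤ 2 * Real.pi / q := by
  have hM : 0 < M := Nat.pos_of_ne_zero (NeZero.ne M)
  have hMr : (0 : ℝ) < M := by exact_mod_cast hM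
  have hqr : (0 : ℝ) < q := by exact_mod_cast hq
  set n : ℤ := (z.val : ℤ) - (w.val : ℤ) with hn
  have hz : z - w = ((n : ℤ) : ZMod M) := by
    rw [hn]
    push_cast
    rw [ZMod.natCast_zmod_val, ZMod.natCast_zmod_val]
  have h1 := Nat.div_add_mod (q * z.val) M
  have h2 := Nat.div_add_mod (q * w.val) M
  have h3 := Nat.mod_lt (q * z.val) hM
  have h4 := Nat.mod_lt (q * w.val) hM
  rw [h] at h1
  have h1' : (q : ℤ) * z.val = M * ((q * w.val / M : ℕ) : ℤ) + ((q * z.val % M : ℕ) : ℤ) := by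
    exact_mod_cast h1.symm
  have h2' : (q : ℤ) * w.val = M * ((q * w.val / M : ℕ) : ℤ) + ((q * w.val % M : ℕ) : ℤ) := by
    exact_mod_cast h2.symm
  have h5 : (q : ℤ) * n = ((q * z.val % M : ℕ) : ℤ) - ((q * w.val % M : ℕ) : ℤ) := by
    rw [hn]
    linear_combination h1' - h2'
  have h6 : |(q : ℤ) * n| ≤ M := by
    rw [h5, abs_le]
    constructor <;> omega
  have h7 : |(n : ℝ)| * q ≤ M := by
    have h8 : |((q : ℤ) * n : ℤ)| ≤ (M : ℤ) := h6
    have h9 : (|((q : ℤ) * n : ℤ)| : ℤ) = |n| * q := by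
      rw [abs_mul, Nat.abs_cast, mul_comm]
    rw [h9] at h8
    exact_mod_cast h8
  rw [hz, ch_intCast, norm_sub_rev]
  have h10 : (2 * Real.pi * Complex.I * (n : ℂ) / M : ℂ)
      = Complex.I * ((2 * Real.pi * n / M : ℝ) : ℂ) := by
    push_cast
    ring
  rw [h10]
  refine Real.norm_exp_I_mul_ofReal_sub_one_le.trans ?_
  rw [Real.norm_eq_abs, abs_div, abs_mul, abs_of_pos (by positivity : (0 : ℝ) < 2 * Real.pi),
    Nat.abs_cast, div_le_div_iff₀ hMr hqr]
  have hpi : (0 : ℝ) < 2 * Real.pi := by positivity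
  nlinarith [mul_le_mul_of_nonneg_left h7 hpi.le]

/-- pigeonhole: `z ↦ ⌊q * z.val / M⌋ ∈ [0, q)` (natural number division `q * z.val / M`); two
elements in the same class differ, as integers `z.val`, by less than `M / q`, so
`‖1 - ch (z - z0)‖ ≤ 2 π / q`
(`ch_intCast`, `Complex.norm_exp_I_mul_ofReal_sub_one` or `‖exp (i t) - 1‖ ≤ |t|`). -/
theorem interval (Y : Finset (ZMod M)) (hY : Y.Nonempty) (q : ℕ) (hq : 1 ≤ q) :
    ∃ z0 ∈ Y, Y.card ≤ q * (Y.filter (fun z => ‖1 - ch M (z - z0)‖ ≤ 2 * Real.pi / q)).card := by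
  classical
  have hM : 0 < M := Nat.pos_of_ne_zero (NeZero.ne M)
  set f : ZMod M → ℕ := fun z => q * z.val / M with hf
  have hmaps : ∀ z ∈ Y, f z ∈ Finset.range q := by
    intro z _
    rw [Finset.mem_range, hf]
    show q * z.val / M < q
    rw [Nat.div_lt_iff_lt_mul hM]
    exact Nat.mul_lt_mul_of_pos_left (ZMod.val_lt z) (by omega)
  obtain ⟨c, -, hc⟩ := Finset.exists_max_image (Finset.range q)
    (fun c => (Y.filter (fun z => f z = c)).card) ⟨0, Finset.mem_range.2 (by omega)⟩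
  have hcard : Y.card ≤ q * (Y.filter (fun z => f z = c)).card := by
    rw [Finset.card_eq_sum_card_fiberwise (f := f) (t := Finset.range q) hmaps]
    refine (Finset.sum_le_card_nsmul _ _ _ hc).trans ?_
    rw [Finset.card_range, smul_eq_mul]
  have hne : (Y.filter (fun z => f z = c)).Nonempty := by
    rw [← Finset.card_pos]
    have h1 : 0 < Y.card := Finset.card_pos.2 hY
    rcases Nat.eq_zero_or_pos (Y.filter (fun z => f z = c)).card with h | h
    · rw [h, mul_zero] at hcard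
      omega
    · exact h
  obtain ⟨z0, hz0⟩ := hne
  rw [Finset.mem_filter] at hz0
  refine ⟨z0, hz0.1, hcard.trans (Nat.mul_le_mul_left q (Finset.card_le_card ?_))⟩
  intro z hz
  rw [Finset.mem_filter] at hz ⊢
  exact ⟨hz.1, interval_close q hq z z0 (hz.2.trans hz0.2.symm)⟩

/-- `interval` and translation: `z ↦ z - z0` maps the filtered set injectively into the right side
(`1 - ch (a - b)` has norm `‖ch b - ch a‖ ≤ ‖1 - ch a‖ + ‖1 - ch b‖`). -/
theorem interval_Bz (Y : Finset H) (τ τ' : ℝ) (q : ℕ) (hq : 1 ≤ q) (hτ : 2 * τ ≤ τ')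
    (hτ0 : 0 ≤ τ) (hqτ : 2 * Real.pi / q ≤ τ') :
    (Bz φ Y τ).card ≤ q * ((Bz φ Y τ').filter (fun z => ‖1 - ch M z‖ ≤ τ')).card := by
  classical
  have hne : (Bz φ Y τ).Nonempty := by
    refine ⟨0, ?_⟩
    unfold Bz
    rw [Finset.mem_filter]
    refine ⟨Finset.mem_univ _, fun b _ => ?_⟩
    rw [zero_mul, ch_zero, sub_self, norm_zero]
    exact hτ0
  obtain ⟨z0, hz0, hcard⟩ := interval (Bz φ Y τ) hne q hq
  refine hcard.trans (Nat.mul_le_mul_left q ?_)
  refine Finset.card_le_card_of_injOn (fun z => z - z0) ?_ ?_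
  · intro z hz
    rw [Finset.mem_coe, Finset.mem_filter] at hz
    rw [Finset.mem_coe, Finset.mem_filter]
    refine ⟨?_, hz.2.trans hqτ⟩
    have h1 : ∀ b ∈ Y, ‖1 - ch M (z * φ b)‖ ≤ τ := by
      have := hz.1
      unfold Bz at this
      exact (Finset.mem_filter.1 this).2
    have h2 : ∀ b ∈ Y, ‖1 - ch M (z0 * φ b)‖ ≤ τ := by
      have := hz0
      unfold Bz at this
      exact (Finset.mem_filter.1 this).2
    unfold Bz
    rw [Finset.mem_filter]
    refine ⟨Finset.mem_univ _, fun b hb => ?_⟩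
    show ‖1 - ch M ((z - z0) * φ b)‖ ≤ τ'
    have h3 : ch M (z * φ b) = ch M ((z - z0) * φ b) * ch M (z0 * φ b) := by
      rw [← ch_add]
      congr 1
      ring
    have h4 : ‖1 - ch M ((z - z0) * φ b)‖ = ‖ch M (z0 * φ b) - ch M (z * φ b)‖ := by
      rw [h3]
      have h5 : ch M (z0 * φ b) - ch M ((z - z0) * φ b) * ch M (z0 * φ b)
          = (1 - ch M ((z - z0) * φ b)) * ch M (z0 * φ b) := by ring
      rw [h5, norm_mul, norm_ch, mul_one]
    rw [h4]
    have h6 : ch M (z0 * φ b) - ch M (z * φ b)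
        = (1 - ch M (z * φ b)) - (1 - ch M (z0 * φ b)) := by ring
    rw [h6]
    refine (norm_sub_le _ _).trans ?_
    have h7 := h1 b hb
    have h8 := h2 b hb
    linarith
  · intro a _ b _ hab
    exact sub_left_injective hab

end Interval

section Lower

open Finset
open scoped Pointwise

variable {M : ℕ} [NeZero M] {H : Type*} [AddCommGroup H] (φ : H →+ ZMod M)

private theorem ch_sum {ι : Type*} (s : Finset ι) (g : ι → ZMod M) :
    ch M (∑ i ∈ s, g i) = ∏ i ∈ s, ch M (g i) := by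
  classical
  induction s using Finset.induction_on with
  | empty => simp [ch_zero]
  | insert a s ha ih => rw [Finset.sum_insert ha, Finset.prod_insert ha, ch_add, ih]

/-- the `k`-th power of the exponential sum -/
private theorem pow_sum (Xs : Finset H) (k : ℕ) (z : ZMod M) :
    (∑ m ∈ Xs, ch M (z * φ m)) ^ k
      = ∑ f ∈ Fintype.piFinset (fun _ : Fin k => Xs), ch M (z * φ (∑ i, f i)) := by
  have h := Finset.prod_univ_sum (ι := Fin k) (fun _ => Xs) (fun _ m => ch M (z * φ m))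
  rw [Finset.prod_const, Finset.card_univ, Fintype.card_fin] at h
  rw [h]
  refine Finset.sum_congr rfl fun f _ => ?_
  rw [map_sum, Finset.mul_sum, ch_sum]

omit [AddCommGroup H] in
/-- Cauchy-Schwarz over the fibres -/
private theorem pairs_le {P : Type*} [DecidableEq H] (s : Finset P) (σ : P → H) (Xk : Finset H)
    (h : ∀ f ∈ s, σ f ∈ Xk) :
    (s.card : ℝ) ^ 2 ≤ Xk.card * (((s ×ˢ s).filter (fun p => σ p.1 = σ p.2)).card : ℝ) := by
  classical
  have h1 : s.card = ∑ x ∈ Xk, (s.filter (fun f => σ f = x)).card :=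
    Finset.card_eq_sum_card_fiberwise h
  have h2 : ((s ×ˢ s).filter (fun p => σ p.1 = σ p.2)).card
      = ∑ x ∈ Xk, (s.filter (fun f => σ f = x)).card ^ 2 := by
    rw [Finset.card_eq_sum_card_fiberwise (f := fun p : P × P => σ p.1) (t := Xk)]
    · refine Finset.sum_congr rfl fun x _ => ?_
      rw [sq, ← Finset.card_product]
      congr 1
      ext p
      simp only [Finset.mem_filter, Finset.mem_product]
      constructor
      · rintro ⟨⟨⟨h3, h4⟩, h5⟩, h6⟩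
        exact ⟨⟨h3, h6⟩, h4, h5 ▸ h6⟩
      · rintro ⟨⟨h3, h6⟩, h4, h7⟩
        exact ⟨⟨⟨h3, h4⟩, h6.trans h7.symm⟩, h6⟩
    · intro p hp
      simp only [Finset.coe_filter, Finset.mem_product, Set.mem_ofPred_eq] at hp
      exact h _ hp.1.1
  rw [h2, h1]
  push_cast
  exact sq_sum_le_card_mul_sum_sq

/-- `(av φ Xs z)^k = |Xs|^(-k) ∑ f, ch (z * φ (∑ f))` over `f : Fin k → Xs` (`Fintype.piFinset`), so
`∑ z, ‖av‖^(2k) = M |Xs|^(-2k) #{(f, f') : φ (∑ f) = φ (∑ f')}` (`sum_normsq`), at least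
`M |Xs|^(-2k) #{(f, f') : ∑ f = ∑ f'} ≥ M / |Xk|` by Cauchy-Schwarz over the fibres of
`f ↦ ∑ f ∈ Xk`. -/
theorem moment (Xs Xk : Finset H) (hXs : Xs.Nonempty) (k : ℕ)
    (hk : ∀ f : Fin k → H, (∀ i, f i ∈ Xs) → ∑ i, f i ∈ Xk) :
    (M : ℝ) ≤ Xk.card * ∑ z : ZMod M, ‖av φ Xs z‖ ^ (2 * k) := by
  classical
  set P : Finset (Fin k → H) := Fintype.piFinset (fun _ : Fin k => Xs) with hP
  have hX0 : (0 : ℝ) < Xs.card := by exact_mod_cast hXs.card_pos
  have hPc : (P.card : ℝ) = (Xs.card : ℝ) ^ k := by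
    rw [hP, Fintype.card_piFinset, Finset.prod_const, Finset.card_univ, Fintype.card_fin]
    push_cast
    rfl
  have h1 : ∀ z : ZMod M, ‖av φ Xs z‖ ^ (2 * k)
      = ((Xs.card : ℝ) ^ (2 * k))⁻¹ * ‖∑ f ∈ P, ch M (z * φ (∑ i, f i))‖ ^ 2 := by
    intro z
    rw [← pow_sum φ Xs k z, norm_pow, ← pow_mul, mul_comm k 2]
    unfold av
    rw [norm_mul, mul_pow, norm_inv, Complex.norm_natCast, inv_pow]
  have h2 : ∑ z : ZMod M, ‖av φ Xs z‖ ^ (2 * k)
      = ((Xs.card : ℝ) ^ (2 * k))⁻¹ *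
        (M * (((P ×ˢ P).filter (fun p => φ (∑ i, p.1 i) = φ (∑ i, p.2 i))).card : ℝ)) := by
    rw [Finset.sum_congr rfl (fun z _ => h1 z), ← Finset.mul_sum,
      sum_normsq P (fun f => φ (∑ i, f i))]
  have h3 := pairs_le P (fun f => ∑ i, f i) Xk (fun f hf => hk f (Fintype.mem_piFinset.1 hf))
  have h4 : (((P ×ˢ P).filter (fun p => ∑ i, p.1 i = ∑ i, p.2 i)).card : ℝ)
      ≤ (((P ×ˢ P).filter (fun p => φ (∑ i, p.1 i) = φ (∑ i, p.2 i))).card : ℝ) := by
    exact_mod_cast Finset.card_le_card (Finset.monotone_filter_right _ fun p _ hp => by rw [hp])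
  have h5 : (Xs.card : ℝ) ^ (2 * k)
      ≤ Xk.card * (((P ×ˢ P).filter (fun p => φ (∑ i, p.1 i) = φ (∑ i, p.2 i))).card : ℝ) := by
    rw [mul_comm 2 k, pow_mul, ← hPc]
    exact h3.trans (mul_le_mul_of_nonneg_left h4 (Nat.cast_nonneg _))
  rw [h2]
  have hpos : (0 : ℝ) < (Xs.card : ℝ) ^ (2 * k) := pow_pos hX0 _
  calc (M : ℝ) = ((Xs.card : ℝ) ^ (2 * k))⁻¹ * (M * (Xs.card : ℝ) ^ (2 * k)) := by
        field_simp
    _ ≤ ((Xs.card : ℝ) ^ (2 * k))⁻¹ * (M * (Xk.card *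
        (((P ×ˢ P).filter (fun p => φ (∑ i, p.1 i) = φ (∑ i, p.2 i))).card : ℝ))) := by
        gcongr
    _ = _ := by ring

end Lower

section LowerB

open Finset
open scoped Pointwise

variable {M : ℕ} [NeZero M] {H : Type*} [AddCommGroup H] (φ : H →+ ZMod M)

/-- In `moment` the `z` with `‖av‖ < 1/2` contribute at most
`(1/4)^(k-1) ∑ ‖av‖^2 ≤ (1/4)^(k-1) M |K2| / |Xs|` (`sum_av_sq_le`), that is at most `M / (2 |Xk|)`,
and each other `z` at most `1`. -/
theorem lower (Xs Xk K2 : Finset H) (hXs : Xs.Nonempty) (k : ℕ) (hk1 : 1 ≤ k)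
    (hk : ∀ f : Fin k → H, (∀ i, f i ∈ Xs) → ∑ i, f i ∈ Xk)
    (hK2 : ∀ m ∈ Xs, ∀ m' ∈ Xs, φ m = φ m' → m - m' ∈ K2)
    (h4 : 2 * (Xk.card : ℝ) * K2.card ≤ 4 ^ (k - 1) * Xs.card) :
    (M : ℝ) ≤ 2 * Xk.card *
      ((Finset.univ.filter (fun z : ZMod M => 1 / 2 ≤ ‖av φ Xs z‖)).card : ℝ) := by
  classical
  set a : ZMod M → ℝ := fun z => ‖av φ Xs z‖ with ha
  have ha0 : ∀ z, 0 ≤ a z := fun z => norm_nonneg _
  have ha1 : ∀ z, a z ≤ 1 := fun z => norm_av_le φ Xs z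
  set N : ℝ := ((Finset.univ.filter (fun z : ZMod M => 1 / 2 ≤ ‖av φ Xs z‖)).card : ℝ) with hN
  have hm := moment φ Xs Xk hXs k hk
  have h2 := sum_av_sq_le φ Xs K2 hK2
  have hS : (0 : ℝ) < Xs.card := by exact_mod_cast hXs.card_pos
  have hX0 : (0 : ℝ) ≤ Xk.card := Nat.cast_nonneg _
  have h4p : (0 : ℝ) < 4 ^ (k - 1) := by positivity
  -- pointwise bound
  have hpt : ∀ z, a z ^ (2 * k) ≤ (if 1 / 2 ≤ a z then (1 : ℝ) else 0) +
      (4 ^ (k - 1))⁻¹ * a z ^ 2 := by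
    intro z
    have hinv : (0 : ℝ) ≤ (4 ^ (k - 1))⁻¹ * a z ^ 2 := by positivity
    by_cases hz : 1 / 2 ≤ a z
    · rw [if_pos hz]
      have h5 : a z ^ (2 * k) ≤ 1 := pow_le_one₀ (ha0 z) (ha1 z)
      linarith
    · rw [if_neg hz, zero_add]
      have h5 : a z ^ 2 ≤ 1 / 4 := by
        have h6 := ha0 z
        push Not at hz
        nlinarith
      have h6 : a z ^ (2 * k) = (a z ^ 2) ^ (k - 1) * a z ^ 2 := by
        rw [pow_mul, ← pow_succ]
        congr 1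
        omega
      rw [h6]
      refine mul_le_mul_of_nonneg_right ?_ (sq_nonneg _)
      rw [← inv_pow]
      refine pow_le_pow_left₀ (sq_nonneg _) ?_ _
      rw [← one_div]
      exact h5
  have hsum : ∑ z : ZMod M, a z ^ (2 * k) ≤ N + (4 ^ (k - 1))⁻¹ * ∑ z : ZMod M, a z ^ 2 := by
    refine (Finset.sum_le_sum fun z _ => hpt z).trans (le_of_eq ?_)
    rw [Finset.sum_add_distrib, ← Finset.mul_sum, Finset.sum_boole]
  -- the main computation
  have hM : (0 : ℝ) ≤ M := Nat.cast_nonneg _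
  have h7 : (Xk.card : ℝ) * ((4 ^ (k - 1))⁻¹ * ∑ z : ZMod M, a z ^ 2) ≤ M / 2 := by
    have h8 : ∑ z : ZMod M, a z ^ 2 ≤ M * K2.card / Xs.card := by
      rw [le_div_iff₀ hS, mul_comm]
      exact h2
    have h9 : (Xk.card : ℝ) * ((4 ^ (k - 1))⁻¹ * ∑ z : ZMod M, a z ^ 2) ≤
        (Xk.card : ℝ) * ((4 ^ (k - 1))⁻¹ * (M * K2.card / Xs.card)) :=
      mul_le_mul_of_nonneg_left (mul_le_mul_of_nonneg_left h8 (by positivity)) hX0
    refine h9.trans ?_
    have h10 : (Xk.card : ℝ) * ((4 ^ (k - 1))⁻¹ * (M * K2.card / Xs.card)) =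
        M * (2 * (Xk.card : ℝ) * K2.card) / (2 * (4 ^ (k - 1) * Xs.card)) := by
      field_simp
    rw [h10, div_le_div_iff₀ (by positivity) (by norm_num)]
    have h11 := mul_le_mul_of_nonneg_left h4 hM
    nlinarith
  have h12 := mul_le_mul_of_nonneg_left hsum hX0
  have h13 : (M : ℝ) ≤ Xk.card * N + M / 2 := by
    calc (M : ℝ) ≤ Xk.card * ∑ z : ZMod M, a z ^ (2 * k) := hm
      _ ≤ Xk.card * (N + (4 ^ (k - 1))⁻¹ * ∑ z : ZMod M, a z ^ 2) := h12
      _ = Xk.card * N + (Xk.card : ℝ) * ((4 ^ (k - 1))⁻¹ * ∑ z : ZMod M, a z ^ 2) := by ring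
      _ ≤ Xk.card * N + M / 2 := by linarith
  linarith

end LowerB

end Pool.Agent.W_626a77_h79
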