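import Mathlib

/-!
# Freiman-Ruzsa over the integers with polynomially many translates: definitions

Paper proof: table `proofs`, row 512 (MP_626a77_co, helper79).
-/

set_option autoImplicit false

open Finset
open scoped Pointwise

namespace Pool.Agent.W_626a77_h79

/-- the standard character of `ZMod M` -/
noncomputable def ch (M : ℕ) [NeZero M] (x : ZMod M) : ℂ := ZMod.stdAddChar x

/-- Fourier transform of the indicator function of a set -/
noncomputable def hat {M : ℕ} [NeZero M] (A : Finset (ZMod M)) (ξ : ZMod M) : ℂ :=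
  ∑ x ∈ A, ch M (ξ * x)

/-- the large spectrum -/
noncomputable def Sp {M : ℕ} [NeZero M] (A : Finset (ZMod M)) (K : ℝ) : Finset (ZMod M) := by
  classical exact Finset.univ.filter (fun ξ => (A.card : ℝ) ^ 2 / (2 * K) ≤ ‖hat A ξ‖ ^ 2)

/-- a larger spectrum, which contains many differences of elements of `Sp A K` -/
noncomputable def Dp {M : ℕ} [NeZero M] (A : Finset (ZMod M)) (K : ℝ) : Finset (ZMod M) := by
  classical exact Finset.univ.filter (fun ξ => (A.card : ℝ) / (4 * K) ≤ ‖hat A ξ‖)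

/-- normalised exponential sum over the image of `X` -/
noncomputable def av {M : ℕ} [NeZero M] {H : Type*} [AddCommGroup H] (φ : H →+ ZMod M)
    (X : Finset H) (z : ZMod M) : ℂ := (X.card : ℂ)⁻¹ * ∑ m ∈ X, ch M (z * φ m)

/-- the Bohr set with frequencies the image of `Y` -/
noncomputable def Bz {M : ℕ} [NeZero M] {H : Type*} [AddCommGroup H] (φ : H →+ ZMod M)
    (Y : Finset H) (τ : ℝ) : Finset (ZMod M) := by
  classical exact Finset.univ.filter (fun z => ∀ b ∈ Y, ‖1 - ch M (z * φ b)‖ ≤ τ)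

/-- a symmetric convex body -/
structure Body {d : ℕ} (B : Set (Fin d → ℝ)) : Prop where
  conv : Convex ℝ B
  comp : IsCompact B
  int : (interior B).Nonempty
  symm : ∀ x ∈ B, -x ∈ B

/-- the lattice points of `t • B` (this is the empty set if there are infinitely many) -/
noncomputable def X {d : ℕ} (B : Set (Fin d → ℝ)) (t : ℝ) : Finset (Fin d → ℤ) := by
  classical exact
    if h : {m : Fin d → ℤ | (fun i => (m i : ℝ)) ∈ t • B}.Finite then h.toFinset else ∅

/-- the number of common neighbours of `a` and `a'` -/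
noncomputable def codeg {G : Type*} [AddCommGroup G] [DecidableEq G] (S D : Finset G)
    (a a' : G) : ℕ := (S.filter (fun b => a - b ∈ D ∧ a' - b ∈ D)).card

/-- the conclusion: `A` is covered by at most `E` translates of a proper convex progression with at
most `V |A|` points -/
def Concl3 (A : Finset ℤ) (D : ℕ) (V E : ℝ) : Prop :=
  ∃ (d : ℕ) (B : Set (Fin d → ℝ)) (v : Fin d → ℤ) (T : Finset ℤ), d ≤ D ∧ Convex ℝ B ∧
    IsCompact B ∧ (interior B).Nonempty ∧ (∀ x ∈ B, -x ∈ B) ∧
    (({x : Fin d → ℤ | (fun i => (x i : ℝ)) ∈ B}.ncard : ℝ) ≤ V * A.card) ∧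
    ((T.card : ℝ) ≤ E) ∧
    (∀ x y : Fin d → ℤ, (fun i => (x i : ℝ)) ∈ B → (fun i => (y i : ℝ)) ∈ B →
      ∑ i, v i * x i = ∑ i, v i * y i → x = y) ∧
    ∀ a ∈ A, ∃ t ∈ T, ∃ x : Fin d → ℤ,
      (fun i => (x i : ℝ)) ∈ B ∧ a = t + ∑ i, v i * x i

end Pool.Agent.W_626a77_h79
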