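import Pool.Agent.W_626a77_h79.Defs

/-!
# Fourier transform on ZMod M and the large spectrum
-/

set_option autoImplicit false

namespace Pool.Agent.W_626a77_h79

section Chars

open Finset
open scoped Pointwise

variable {M : ℕ} [NeZero M]

theorem ch_zero : ch M 0 = 1 := by
  unfold ch; exact AddChar.map_zero_eq_one _

theorem ch_add (x y : ZMod M) : ch M (x + y) = ch M x * ch M y := by
  unfold ch; exact AddChar.map_add_eq_mul _ x y

theorem norm_ch (x : ZMod M) : ‖ch M x‖ = 1 := by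
  unfold ch; exact AddChar.norm_apply _ x

theorem ch_ne_zero (x : ZMod M) : ch M x ≠ 0 := by
  intro h
  have := norm_ch x
  rw [h, norm_zero] at this
  norm_num at this

theorem ch_neg (x : ZMod M) : ch M (-x) = (starRingEnd ℂ) (ch M x) := by
  unfold ch; exact AddChar.map_neg_eq_conj _ x

theorem ch_intCast (n : ℤ) : ch M (n : ZMod M) = Complex.exp (2 * Real.pi * Complex.I * n / M) := by
  unfold ch; exact ZMod.stdAddChar_coe n

/-- orthogonality: `AddChar.sum_mulShift` with `ZMod.isPrimitive_stdAddChar` -/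
theorem sum_ch (y : ZMod M) : ∑ z : ZMod M, ch M (z * y) = if y = 0 then (M : ℂ) else 0 := by
  have h := AddChar.sum_mulShift y (ZMod.isPrimitive_stdAddChar M)
  simp only [ZMod.card] at h
  unfold ch
  rw [h]
  split_ifs <;> simp

/-- PARSEVAL, counting form.  `|w|^2 = w * conj w`, `conj (ch (z * g j)) = ch (-(z * g j))`, so the
left side is `∑ i j, ∑ z, ch (z * (g i - g j))`; use `sum_ch`. -/
theorem sum_normsq {ι : Type*} (s : Finset ι) (g : ι → ZMod M) :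
    ∑ z : ZMod M, ‖∑ i ∈ s, ch M (z * g i)‖ ^ 2
      = M * (((s ×ˢ s).filter (fun p => g p.1 = g p.2)).card : ℝ) := by
  have key : ∀ z : ZMod M, ((‖∑ i ∈ s, ch M (z * g i)‖ ^ 2 : ℝ) : ℂ)
      = ∑ p ∈ s ×ˢ s, ch M (z * (g p.1 - g p.2)) := by
    intro z
    rw [Complex.ofReal_pow, ← Complex.mul_conj', map_sum, Finset.sum_mul_sum, Finset.sum_product]
    refine Finset.sum_congr rfl fun i _ => Finset.sum_congr rfl fun j _ => ?_
    rw [← ch_neg, ← ch_add]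
    congr 1
    ring
  apply Complex.ofReal_injective
  rw [Complex.ofReal_sum, Finset.sum_congr rfl (fun z _ => key z), Finset.sum_comm,
    Finset.sum_congr rfl (fun p _ => sum_ch (g p.1 - g p.2)), Finset.sum_ite, Finset.sum_const_zero,
    add_zero, Finset.sum_const, nsmul_eq_mul]
  have : (s ×ˢ s).filter (fun p => g p.1 - g p.2 = 0) = (s ×ˢ s).filter (fun p => g p.1 = g p.2) := by
    ext p
    simp only [Finset.mem_filter, sub_eq_zero]
  rw [this]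
  push_cast
  ring

/-- `|Ahat|^2` as a double sum: `|w|^2 = w * conj w` -/
theorem normsq_hat (A : Finset (ZMod M)) (ξ : ZMod M) :
    ((‖hat A ξ‖ ^ 2 : ℝ) : ℂ) = ∑ x ∈ A, ∑ y ∈ A, ch M (ξ * (x - y)) := by
  unfold hat
  rw [Complex.ofReal_pow, ← Complex.mul_conj', map_sum, Finset.sum_mul_sum]
  refine Finset.sum_congr rfl fun i _ => Finset.sum_congr rfl fun j _ => ?_
  rw [← ch_neg, ← ch_add]
  congr 1
  ring

theorem norm_hat_le (A : Finset (ZMod M)) (ξ : ZMod M) : ‖hat A ξ‖ ≤ A.card := by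
  unfold hat
  refine (norm_sum_le _ _).trans ?_
  simp [norm_ch]

/-- Parseval for a set: `sum_normsq` with `g = id` -/
theorem sum_hat_sq (A : Finset (ZMod M)) : ∑ ξ : ZMod M, ‖hat A ξ‖ ^ 2 = M * (A.card : ℝ) := by
  have h := sum_normsq A (fun x => x)
  unfold hat
  rw [h]
  congr 2
  have : (A ×ˢ A).filter (fun p => p.1 = p.2) = A.diag := by
    ext p
    simp only [Finset.mem_filter, Finset.mem_product, Finset.mem_diag]
    constructor
    · rintro ⟨⟨h1, _⟩, h3⟩; exact ⟨h1, h3⟩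
    · rintro ⟨h1, h3⟩; exact ⟨⟨h1, h3 ▸ h1⟩, h3⟩
  rw [this, Finset.diag_card]

end Chars

section CharsB

open Finset
open scoped Pointwise

variable {M : ℕ} [NeZero M]

private theorem charsB_hat_sq (A : Finset (ZMod M)) (ξ : ZMod M) :
    hat A ξ ^ 2 = ∑ p ∈ A ×ˢ A, ch M (ξ * (p.1 + p.2)) := by
  unfold hat
  rw [sq, Finset.sum_mul_sum, Finset.sum_product]
  refine Finset.sum_congr rfl fun x _ => Finset.sum_congr rfl fun y _ => ?_
  rw [← ch_add, mul_add]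

private theorem charsB_energy (A : Finset (ZMod M)) :
    (((A ×ˢ A) ×ˢ (A ×ˢ A)).filter (fun p => p.1.1 + p.1.2 = p.2.1 + p.2.2)).card
      = A.addEnergy A := by
  unfold Finset.addEnergy
  refine Finset.card_bij (fun p _ => ((p.1.1, p.2.1), (p.1.2, p.2.2))) ?_ ?_ ?_
  · intro p hp
    simp only [Finset.mem_filter, Finset.mem_product] at hp ⊢
    exact ⟨⟨⟨hp.1.1.1, hp.1.2.1⟩, hp.1.1.2, hp.1.2.2⟩, hp.2⟩
  · intro p _ q _ h
    simp only [Prod.mk.injEq] at h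
    exact Prod.ext (Prod.ext h.1.1 h.2.1) (Prod.ext h.1.2 h.2.2)
  · intro q hq
    simp only [Finset.mem_filter, Finset.mem_product] at hq
    refine ⟨((q.1.1, q.2.1), (q.1.2, q.2.2)), ?_, rfl⟩
    simp only [Finset.mem_filter, Finset.mem_product]
    exact ⟨⟨⟨hq.1.1.1, hq.1.2.1⟩, hq.1.1.2, hq.1.2.2⟩, hq.2⟩

/-- fourth moment: `hat A ξ ^ 2 = ∑ p ∈ A ×ˢ A, ch (ξ * (p.1 + p.2))`, `sum_normsq`, and
Cauchy-Schwarz over the fibres of `A ×ˢ A → A + A` (or `Finset.card_sq_le_card_mul_addEnergy`). -/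
theorem sum_hat_four (A : Finset (ZMod M)) (K : ℝ) (hK : 0 < K)
    (h : ((A + A).card : ℝ) ≤ K * A.card) :
    (M : ℝ) * (A.card : ℝ) ^ 3 ≤ K * ∑ ξ : ZMod M, ‖hat A ξ‖ ^ 4 := by
  have h1 : ∑ ξ : ZMod M, ‖hat A ξ‖ ^ 4 = M * (A.addEnergy A : ℝ) := by
    have h2 := sum_normsq (A ×ˢ A) (fun p : ZMod M × ZMod M => p.1 + p.2)
    rw [charsB_energy] at h2
    rw [← h2]
    refine Finset.sum_congr rfl fun ξ _ => ?_
    rw [← charsB_hat_sq, norm_pow, ← pow_mul]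
  rw [h1]
  have hM : (0 : ℝ) ≤ M := Nat.cast_nonneg M
  have h3 : ((A.card : ℝ) ^ 2 * (A.card : ℝ) ^ 2) ≤ ((A + A).card : ℝ) * (A.addEnergy A : ℝ) := by
    exact_mod_cast le_card_add_mul_addEnergy A A
  have h4 : (A.card : ℝ) ^ 3 ≤ K * (A.addEnergy A : ℝ) := by
    have hE : (0 : ℝ) ≤ (A.addEnergy A : ℝ) := Nat.cast_nonneg _
    rcases Nat.eq_zero_or_pos A.card with h0 | h0
    · rw [h0]
      have := mul_nonneg hK.le hE
      simpa using this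
    · have h0' : (0 : ℝ) < A.card := by exact_mod_cast h0
      have h5 := mul_le_mul_of_nonneg_right h hE
      have h6 : (A.card : ℝ) ^ 3 * A.card ≤ K * (A.addEnergy A : ℝ) * A.card := by
        nlinarith
      exact le_of_mul_le_mul_right h6 h0'
  calc (M : ℝ) * (A.card : ℝ) ^ 3 ≤ M * (K * (A.addEnergy A : ℝ)) :=
        mul_le_mul_of_nonneg_left h4 hM
    _ = K * (M * (A.addEnergy A : ℝ)) := by ring

end CharsB

section CharsC

open Finset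
open scoped Pointwise

variable {M : ℕ} [NeZero M]

section av

variable {H : Type*} [AddCommGroup H] (φ : H →+ ZMod M)

theorem norm_av_le (X : Finset H) (z : ZMod M) : ‖av φ X z‖ ≤ 1 := by
  unfold av
  rw [norm_mul, norm_inv, Complex.norm_natCast]
  have h1 : ‖∑ m ∈ X, ch M (z * φ m)‖ ≤ (X.card : ℝ) := by
    refine (norm_sum_le _ _).trans_eq ?_
    rw [Finset.sum_congr rfl (fun m _ => norm_ch (z * φ m)), Finset.sum_const, nsmul_eq_mul,
      mul_one]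
  calc (X.card : ℝ)⁻¹ * ‖∑ m ∈ X, ch M (z * φ m)‖ ≤ (X.card : ℝ)⁻¹ * (X.card : ℝ) :=
        mul_le_mul_of_nonneg_left h1 (by positivity)
    _ ≤ 1 := inv_mul_le_one

/-- `∑ ‖av‖^2 |X|^2 = M #{(m, m') : φ m = φ m'}`, and for fixed `m'` the differences `m - m'` are
different elements of `K2`. -/
theorem sum_av_sq_le (X K2 : Finset H)
    (hK2 : ∀ m ∈ X, ∀ m' ∈ X, φ m = φ m' → m - m' ∈ K2) :
    (X.card : ℝ) * ∑ z : ZMod M, ‖av φ X z‖ ^ 2 ≤ M * (K2.card : ℝ) := by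
  classical
  have h1 : ((X ×ˢ X).filter (fun p => φ p.1 = φ p.2)).card ≤ X.card * K2.card := by
    rw [← Finset.card_product]
    refine Finset.card_le_card_of_injOn (fun p => (p.2, p.1 - p.2)) ?_ ?_
    · rintro ⟨a, b⟩ hp
      have hp' : (a, b) ∈ (X ×ˢ X).filter (fun p => φ p.1 = φ p.2) := hp
      rw [Finset.mem_filter, Finset.mem_product] at hp'
      have h2 : (b, a - b) ∈ X ×ˢ K2 :=
        Finset.mem_product.2 ⟨hp'.1.2, hK2 a hp'.1.1 b hp'.1.2 hp'.2⟩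
      exact h2
    · rintro ⟨a, b⟩ _ ⟨a', b'⟩ _ h
      have h2 : (b, a - b) = (b', a' - b') := h
      rw [Prod.mk.injEq] at h2
      obtain ⟨h3, h4⟩ := h2
      rw [h3] at h4
      have h5 : a = a' := sub_left_inj.1 h4
      rw [h3, h5]
  have h2 : ∑ z : ZMod M, ‖av φ X z‖ ^ 2 =
      ((X.card : ℝ)⁻¹) ^ 2 *
        (M * (((X ×ˢ X).filter (fun p => φ p.1 = φ p.2)).card : ℝ)) := by
    rw [← sum_normsq X (fun m => φ m), Finset.mul_sum]
    refine Finset.sum_congr rfl fun z _ => ?_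
    unfold av
    rw [norm_mul, norm_inv, Complex.norm_natCast, mul_pow]
  rw [h2]
  rcases Nat.eq_zero_or_pos X.card with h0 | h0
  · rw [h0, Nat.cast_zero, zero_mul]
    positivity
  · have h3 : (0 : ℝ) < X.card := by exact_mod_cast h0
    have h4 : (((X ×ˢ X).filter (fun p => φ p.1 = φ p.2)).card : ℝ) ≤
        (X.card : ℝ) * K2.card := by exact_mod_cast h1
    calc (X.card : ℝ) * (((X.card : ℝ)⁻¹) ^ 2 *
          (M * (((X ×ˢ X).filter (fun p => φ p.1 = φ p.2)).card : ℝ)))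
        ≤ (X.card : ℝ) * (((X.card : ℝ)⁻¹) ^ 2 * (M * ((X.card : ℝ) * K2.card))) := by
          gcongr
      _ = M * (K2.card : ℝ) := by
          field_simp

end av

end CharsC

section SpecA

open Finset
open scoped Pointwise

variable {M : ℕ} [NeZero M]

private theorem specA_mem_Sp (A : Finset (ZMod M)) (K : ℝ) (ξ : ZMod M) :
    ξ ∈ Sp A K ↔ (A.card : ℝ) ^ 2 / (2 * K) ≤ ‖hat A ξ‖ ^ 2 := by
  unfold Sp
  simp

private theorem specA_mem_Dp (A : Finset (ZMod M)) (K : ℝ) (ξ : ZMod M) :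
    ξ ∈ Dp A K ↔ (A.card : ℝ) / (4 * K) ≤ ‖hat A ξ‖ := by
  unfold Dp
  simp

/-- `sum_hat_four` gives `M |A|^3 / K ≤ ∑ |hat|^4`; the part off `Sp A K` is at most
`|A|^2 / (2 K) * ∑ |hat|^2 = M |A|^3 / (2 K)`; on `Sp A K` use `norm_hat_le`. -/
theorem spec_lower (A : Finset (ZMod M)) (hA : A.Nonempty) (K : ℝ) (hK : 1 ≤ K)
    (h : ((A + A).card : ℝ) ≤ K * A.card) :
    (M : ℝ) ≤ 2 * K * A.card * (Sp A K).card := by
  classical
  have hK0 : 0 < K := by linarith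
  have ha : (0 : ℝ) < A.card := by exact_mod_cast hA.card_pos
  have h4 := sum_hat_four A K hK0 h
  have h2 := sum_hat_sq A
  have hsplit : ∑ ξ : ZMod M, ‖hat A ξ‖ ^ 4 ≤
      (Sp A K).card * (A.card : ℝ) ^ 4 + (A.card : ℝ) ^ 2 / (2 * K) * (M * (A.card : ℝ)) := by
    rw [← Finset.sum_add_sum_compl (Sp A K)]
    apply add_le_add
    · calc ∑ ξ ∈ Sp A K, ‖hat A ξ‖ ^ 4 ≤ ∑ _ξ ∈ Sp A K, (A.card : ℝ) ^ 4 :=
            Finset.sum_le_sum fun ξ _ => pow_le_pow_left₀ (norm_nonneg _) (norm_hat_le A ξ) 4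
        _ = (Sp A K).card * (A.card : ℝ) ^ 4 := by rw [Finset.sum_const, nsmul_eq_mul]
    · calc ∑ ξ ∈ (Sp A K)ᶜ, ‖hat A ξ‖ ^ 4
          ≤ ∑ ξ ∈ (Sp A K)ᶜ, (A.card : ℝ) ^ 2 / (2 * K) * ‖hat A ξ‖ ^ 2 := by
            refine Finset.sum_le_sum fun ξ hξ => ?_
            rw [Finset.mem_compl, specA_mem_Sp, not_le] at hξ
            calc ‖hat A ξ‖ ^ 4 = ‖hat A ξ‖ ^ 2 * ‖hat A ξ‖ ^ 2 := by ring
              _ ≤ (A.card : ℝ) ^ 2 / (2 * K) * ‖hat A ξ‖ ^ 2 :=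
                mul_le_mul_of_nonneg_right hξ.le (by positivity)
        _ ≤ ∑ ξ : ZMod M, (A.card : ℝ) ^ 2 / (2 * K) * ‖hat A ξ‖ ^ 2 :=
            Finset.sum_le_sum_of_subset_of_nonneg (Finset.subset_univ _)
              (fun _ _ _ => by positivity)
        _ = (A.card : ℝ) ^ 2 / (2 * K) * (M * (A.card : ℝ)) := by
            rw [← Finset.mul_sum, h2]
  have h5 : (M : ℝ) * (A.card : ℝ) ^ 3 ≤
      K * ((Sp A K).card * (A.card : ℝ) ^ 4) + (M : ℝ) * (A.card : ℝ) ^ 3 / 2 := by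
    calc (M : ℝ) * (A.card : ℝ) ^ 3 ≤ K * ∑ ξ : ZMod M, ‖hat A ξ‖ ^ 4 := h4
      _ ≤ K * ((Sp A K).card * (A.card : ℝ) ^ 4 +
          (A.card : ℝ) ^ 2 / (2 * K) * (M * (A.card : ℝ))) :=
          mul_le_mul_of_nonneg_left hsplit hK0.le
      _ = K * ((Sp A K).card * (A.card : ℝ) ^ 4) + (M : ℝ) * (A.card : ℝ) ^ 3 / 2 := by
          field_simp
  have h6 : (M : ℝ) * (A.card : ℝ) ^ 3 ≤
      (2 * K * A.card * (Sp A K).card) * (A.card : ℝ) ^ 3 := by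
    nlinarith [h5]
  exact le_of_mul_le_mul_right h6 (by positivity)

/-- Parseval `sum_hat_sq` -/
theorem spec_upper (A : Finset (ZMod M)) (hA : A.Nonempty) (K : ℝ) (hK : 1 ≤ K) :
    ((Sp A K).card : ℝ) * A.card ≤ 2 * K * M := by
  classical
  have hK0 : 0 < K := by linarith
  have ha : (0 : ℝ) < A.card := by exact_mod_cast hA.card_pos
  have h2 := sum_hat_sq A
  have h3 : ((Sp A K).card : ℝ) * ((A.card : ℝ) ^ 2 / (2 * K)) ≤ M * (A.card : ℝ) := by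
    calc ((Sp A K).card : ℝ) * ((A.card : ℝ) ^ 2 / (2 * K))
        = ∑ _ξ ∈ Sp A K, (A.card : ℝ) ^ 2 / (2 * K) := by rw [Finset.sum_const, nsmul_eq_mul]
      _ ≤ ∑ ξ ∈ Sp A K, ‖hat A ξ‖ ^ 2 :=
          Finset.sum_le_sum fun ξ hξ => (specA_mem_Sp A K ξ).1 hξ
      _ ≤ ∑ ξ : ZMod M, ‖hat A ξ‖ ^ 2 :=
          Finset.sum_le_sum_of_subset_of_nonneg (Finset.subset_univ _)
            (fun _ _ _ => by positivity)
      _ = M * (A.card : ℝ) := h2
  have h4 : (((Sp A K).card : ℝ) * A.card) * (A.card : ℝ) ≤ (2 * K * M) * (A.card : ℝ) := by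
    calc (((Sp A K).card : ℝ) * A.card) * (A.card : ℝ)
        = 2 * K * (((Sp A K).card : ℝ) * ((A.card : ℝ) ^ 2 / (2 * K))) := by
          field_simp
      _ ≤ 2 * K * (M * (A.card : ℝ)) := mul_le_mul_of_nonneg_left h3 (by positivity)
      _ = (2 * K * M) * (A.card : ℝ) := by ring
  exact le_of_mul_le_mul_right h4 ha

/-- Parseval `sum_hat_sq` for `Dp A K` (`|Dp| |A|^2 / (16 K^2) ≤ M |A|`) and `spec_lower` -/
theorem Dp_card (A : Finset (ZMod M)) (hA : A.Nonempty) (K : ℝ) (hK : 1 ≤ K)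
    (h : ((A + A).card : ℝ) ≤ K * A.card) :
    ((Dp A K).card : ℝ) ≤ 32 * K ^ 3 * (Sp A K).card := by
  classical
  have hK0 : 0 < K := by linarith
  have ha : (0 : ℝ) < A.card := by exact_mod_cast hA.card_pos
  have h2 := sum_hat_sq A
  have hlow := spec_lower A hA K hK h
  have h3 : ((Dp A K).card : ℝ) * ((A.card : ℝ) / (4 * K)) ^ 2 ≤ M * (A.card : ℝ) := by
    calc ((Dp A K).card : ℝ) * ((A.card : ℝ) / (4 * K)) ^ 2
        = ∑ _ξ ∈ Dp A K, ((A.card : ℝ) / (4 * K)) ^ 2 := by rw [Finset.sum_const, nsmul_eq_mul]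
      _ ≤ ∑ ξ ∈ Dp A K, ‖hat A ξ‖ ^ 2 :=
          Finset.sum_le_sum fun ξ hξ =>
            pow_le_pow_left₀ (by positivity) ((specA_mem_Dp A K ξ).1 hξ) 2
      _ ≤ ∑ ξ : ZMod M, ‖hat A ξ‖ ^ 2 :=
          Finset.sum_le_sum_of_subset_of_nonneg (Finset.subset_univ _)
            (fun _ _ _ => by positivity)
      _ = M * (A.card : ℝ) := h2
  have h4 : ((Dp A K).card : ℝ) * (A.card : ℝ) ^ 2 ≤
      (32 * K ^ 3 * (Sp A K).card) * (A.card : ℝ) ^ 2 := by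
    calc ((Dp A K).card : ℝ) * (A.card : ℝ) ^ 2
        = 16 * K ^ 2 * (((Dp A K).card : ℝ) * ((A.card : ℝ) / (4 * K)) ^ 2) := by
          field_simp
          ring
      _ ≤ 16 * K ^ 2 * (M * (A.card : ℝ)) := mul_le_mul_of_nonneg_left h3 (by positivity)
      _ ≤ 16 * K ^ 2 * ((2 * K * A.card * (Sp A K).card) * (A.card : ℝ)) :=
          mul_le_mul_of_nonneg_left (mul_le_mul_of_nonneg_right hlow ha.le) (by positivity)
      _ = (32 * K ^ 3 * (Sp A K).card) * (A.card : ℝ) ^ 2 := by ring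
  exact le_of_mul_le_mul_right h4 (by positivity)

end SpecA

section SpecB

open Finset
open scoped Pointwise

variable {M : ℕ} [NeZero M]

/-- a number of norm at most one which rotates `w` to its norm -/
private noncomputable def SpecB_c (w : ℂ) : ℂ := (starRingEnd ℂ) w / (‖w‖ : ℂ)

private theorem SpecB_c_norm (w : ℂ) : ‖SpecB_c w‖ ≤ 1 := by
  unfold SpecB_c
  rw [norm_div, RCLike.norm_conj, Complex.norm_real, norm_norm]
  exact div_self_le_one _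

private theorem SpecB_c_mul (w : ℂ) : SpecB_c w * w = (‖w‖ : ℂ) := by
  unfold SpecB_c
  by_cases hw : w = 0
  · subst hw; simp
  · have h1 : (‖w‖ : ℂ) ≠ 0 := by
      simpa using hw
    rw [div_mul_eq_mul_div, mul_comm, Complex.mul_conj', pow_two, mul_div_assoc, div_self h1,
      mul_one]

/-- Cauchy-Schwarz.  Let `c ξ` be unimodular with `c ξ * hat A ξ = ‖hat A ξ‖`.  Then
`∑ ξ ∈ S, ‖hat A ξ‖ = ∑ x ∈ A, ∑ ξ ∈ S, c ξ * ch (ξ * x)`, so its square is at most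
`|A| * ∑ x ∈ A, ‖∑ ξ ∈ S, c ξ * ch (ξ * x)‖^2 = |A| * ∑ ξ ξ', c ξ * conj (c ξ') * hat A (ξ - ξ')`. -/
theorem sum_hat_le (A S : Finset (ZMod M)) :
    (∑ ξ ∈ S, ‖hat A ξ‖) ^ 2 ≤ A.card * ∑ ξ ∈ S, ∑ ξ' ∈ S, ‖hat A (ξ - ξ')‖ := by
  classical
  set F : ZMod M → ℂ := fun x => ∑ ξ ∈ S, SpecB_c (hat A ξ) * ch M (ξ * x) with hF
  have h1 : ((∑ ξ ∈ S, ‖hat A ξ‖ : ℝ) : ℂ) = ∑ x ∈ A, F x := by
    rw [hF, Finset.sum_comm, Complex.ofReal_sum]
    refine Finset.sum_congr rfl fun ξ _ => ?_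
    rw [← Finset.mul_sum, ← SpecB_c_mul (hat A ξ)]
    rfl
  have h0 : 0 ≤ ∑ ξ ∈ S, ‖hat A ξ‖ := Finset.sum_nonneg fun _ _ => norm_nonneg _
  have h2 : ∑ ξ ∈ S, ‖hat A ξ‖ ≤ ∑ x ∈ A, ‖F x‖ := by
    have h3 : ∑ ξ ∈ S, ‖hat A ξ‖ = ‖∑ x ∈ A, F x‖ := by
      rw [← h1, Complex.norm_real, Real.norm_of_nonneg h0]
    rw [h3]
    exact norm_sum_le _ _
  have h4 : (∑ ξ ∈ S, ‖hat A ξ‖) ^ 2 ≤ A.card * ∑ x ∈ A, ‖F x‖ ^ 2 :=
    le_trans (pow_le_pow_left₀ h0 h2 2) sq_sum_le_card_mul_sum_sq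
  have h5 : ((∑ x ∈ A, ‖F x‖ ^ 2 : ℝ) : ℂ)
      = ∑ ξ ∈ S, ∑ ξ' ∈ S, SpecB_c (hat A ξ) * (starRingEnd ℂ) (SpecB_c (hat A ξ'))
          * hat A (ξ - ξ') := by
    rw [Complex.ofReal_sum]
    have h6 : ∀ x ∈ A, ((‖F x‖ ^ 2 : ℝ) : ℂ)
        = ∑ ξ ∈ S, ∑ ξ' ∈ S, SpecB_c (hat A ξ) * (starRingEnd ℂ) (SpecB_c (hat A ξ'))
          * ch M ((ξ - ξ') * x) := by
      intro x _
      rw [Complex.ofReal_pow, ← Complex.mul_conj', hF]
      simp only [map_sum, map_mul]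
      rw [Finset.sum_mul_sum]
      refine Finset.sum_congr rfl fun ξ _ => Finset.sum_congr rfl fun ξ' _ => ?_
      rw [← ch_neg, show (ξ - ξ') * x = ξ * x + -(ξ' * x) by ring, ch_add]
      ring
    rw [Finset.sum_congr rfl h6, Finset.sum_comm]
    refine Finset.sum_congr rfl fun ξ _ => ?_
    rw [Finset.sum_comm]
    refine Finset.sum_congr rfl fun ξ' _ => ?_
    rw [← Finset.mul_sum]
    rfl
  have h7 : ∑ x ∈ A, ‖F x‖ ^ 2 ≤ ∑ ξ ∈ S, ∑ ξ' ∈ S, ‖hat A (ξ - ξ')‖ := by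
    have h8 : 0 ≤ ∑ x ∈ A, ‖F x‖ ^ 2 := Finset.sum_nonneg fun _ _ => sq_nonneg _
    have h9 : ∑ x ∈ A, ‖F x‖ ^ 2 = ‖((∑ x ∈ A, ‖F x‖ ^ 2 : ℝ) : ℂ)‖ := by
      rw [Complex.norm_real, Real.norm_of_nonneg h8]
    rw [h9, h5]
    refine le_trans (norm_sum_le _ _) (Finset.sum_le_sum fun ξ _ => ?_)
    refine le_trans (norm_sum_le _ _) (Finset.sum_le_sum fun ξ' _ => ?_)
    rw [norm_mul, norm_mul, RCLike.norm_conj]
    have ha := SpecB_c_norm (hat A ξ)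
    have hb := SpecB_c_norm (hat A ξ')
    have hab : ‖SpecB_c (hat A ξ)‖ * ‖SpecB_c (hat A ξ')‖ ≤ 1 :=
      mul_le_one₀ ha (norm_nonneg _) hb
    calc ‖SpecB_c (hat A ξ)‖ * ‖SpecB_c (hat A ξ')‖ * ‖hat A (ξ - ξ')‖
        ≤ 1 * ‖hat A (ξ - ξ')‖ := mul_le_mul_of_nonneg_right hab (norm_nonneg _)
      _ = ‖hat A (ξ - ξ')‖ := one_mul _
  exact le_trans h4 (mul_le_mul_of_nonneg_left h7 (Nat.cast_nonneg _))

/-- `‖hat A ξ‖ ≥ |A| / √(2 K)` on `Sp A K`, so `sum_hat_le` gives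
`|S|^2 |A| / (2 K) ≤ ∑ ξ ξ' ∈ S, ‖hat A (ξ - ξ')‖`; the pairs whose difference is not in `Dp A K`
contribute at most `|S|^2 |A| / (4 K)` and each other pair at most `|A|`. -/
theorem spec_pairs (A : Finset (ZMod M)) (hA : A.Nonempty) (K : ℝ) (hK : 1 ≤ K) :
    ((Sp A K).card : ℝ) ^ 2 ≤
      4 * K * (((Sp A K) ×ˢ (Sp A K)).filter (fun p => p.1 - p.2 ∈ Dp A K)).card := by
  classical
  have hK0 : (0 : ℝ) < K := by linarith
  have hn : (0 : ℝ) < A.card := by exact_mod_cast hA.card_pos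
  set n : ℝ := (A.card : ℝ) with hndef
  set S := Sp A K with hS
  set r : ℝ := Real.sqrt (n ^ 2 / (2 * K)) with hr
  have hr2 : r ^ 2 = n ^ 2 / (2 * K) := Real.sq_sqrt (by positivity)
  have hr0 : 0 ≤ r := Real.sqrt_nonneg _
  have h1 : ∀ ξ ∈ S, r ≤ ‖hat A ξ‖ := by
    intro ξ hξ
    have h2 : n ^ 2 / (2 * K) ≤ ‖hat A ξ‖ ^ 2 := by
      have h3 := hξ
      rw [hS] at h3
      unfold Sp at h3
      exact (Finset.mem_filter.mp h3).2
    rw [hr]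
    exact Real.sqrt_le_iff.mpr ⟨norm_nonneg _, h2⟩
  have h2 : (S.card : ℝ) * r ≤ ∑ ξ ∈ S, ‖hat A ξ‖ := by
    have h3 := Finset.card_nsmul_le_sum S (fun ξ => ‖hat A ξ‖) r h1
    rwa [nsmul_eq_mul] at h3
  have h3 : ((S.card : ℝ) * r) ^ 2 ≤ n * ∑ ξ ∈ S, ∑ ξ' ∈ S, ‖hat A (ξ - ξ')‖ :=
    le_trans (pow_le_pow_left₀ (by positivity) h2 2) (sum_hat_le A S)
  rw [mul_pow, hr2] at h3
  set P := (S ×ˢ S).filter (fun p => p.1 - p.2 ∈ Dp A K) with hP
  have h4 : ∑ ξ ∈ S, ∑ ξ' ∈ S, ‖hat A (ξ - ξ')‖ ≤ P.card * n + (S.card : ℝ) ^ 2 * (n / (4 * K)) := by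
    rw [← Finset.sum_product' (f := fun ξ ξ' => ‖hat A (ξ - ξ')‖),
      ← Finset.sum_filter_add_sum_filter_not (S ×ˢ S) (fun p => p.1 - p.2 ∈ Dp A K)]
    refine add_le_add ?_ ?_
    · have h5 := Finset.sum_le_card_nsmul P (fun p => ‖hat A (p.1 - p.2)‖) n
        (fun p _ => norm_hat_le A _)
      rwa [nsmul_eq_mul] at h5
    · have h5 := Finset.sum_le_card_nsmul ((S ×ˢ S).filter (fun p => ¬ p.1 - p.2 ∈ Dp A K))
        (fun p => ‖hat A (p.1 - p.2)‖) (n / (4 * K)) (fun p hp => by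
          have h6 := (Finset.mem_filter.mp hp).2
          unfold Dp at h6
          rw [Finset.mem_filter] at h6
          have h7 : ¬ n / (4 * K) ≤ ‖hat A (p.1 - p.2)‖ := fun h => h6 ⟨Finset.mem_univ _, h⟩
          exact (not_le.mp h7).le)
      rw [nsmul_eq_mul] at h5
      refine le_trans h5 (mul_le_mul_of_nonneg_right ?_ (by positivity))
      have h6 : ((S ×ˢ S).filter (fun p => ¬ p.1 - p.2 ∈ Dp A K)).card ≤ S.card * S.card := by
        rw [← Finset.card_product]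
        exact Finset.card_filter_le _ _
      have h7 : (((S ×ˢ S).filter (fun p => ¬ p.1 - p.2 ∈ Dp A K)).card : ℝ)
          ≤ ((S.card * S.card : ℕ) : ℝ) := by exact_mod_cast h6
      rw [Nat.cast_mul] at h7
      rw [pow_two]
      exact h7
  have h5 : (S.card : ℝ) ^ 2 * (n ^ 2 / (2 * K))
      ≤ n * (P.card * n + (S.card : ℝ) ^ 2 * (n / (4 * K))) :=
    le_trans h3 (mul_le_mul_of_nonneg_left h4 hn.le)
  have h6 : (S.card : ℝ) ^ 2 * (n ^ 2 / (2 * K))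
      = (n ^ 2) * ((S.card : ℝ) ^ 2 / (2 * K)) := by ring
  have h7 : n * (P.card * n + (S.card : ℝ) ^ 2 * (n / (4 * K)))
      = (n ^ 2) * (P.card + (S.card : ℝ) ^ 2 / (4 * K)) := by ring
  rw [h6, h7] at h5
  have h8 : (S.card : ℝ) ^ 2 / (2 * K) ≤ P.card + (S.card : ℝ) ^ 2 / (4 * K) :=
    le_of_mul_le_mul_left h5 (by positivity)
  have h9 : (S.card : ℝ) ^ 2 / (2 * K) = 2 * ((S.card : ℝ) ^ 2 / (4 * K)) := by
    field_simp
    ring
  have h10 : (S.card : ℝ) ^ 2 / (4 * K) ≤ P.card := by linarith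
  rw [div_le_iff₀ (by positivity)] at h10
  linarith

end SpecB

end Pool.Agent.W_626a77_h79
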