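import Pool.Agent.OST_h95.LatA
import Pool.Agent.OST_h95.LatB
import Pool.Agent.W_626a77_h71.BohrLat2
import Pool.Agent.W_626a77_h79.Defs
import Pool.Agent.W_626a77_h79.Spectrum

/-!
# Bohr sets and the convex progression
-/

set_option autoImplicit false

namespace Pool.Agent.W_626a77_h79

section BohrOut

open Finset
open scoped Pointwise

open Pool.Agent.W_626a77_h71

variable {M : ℕ} [NeZero M] {H : Type*} [AddCommGroup H] (φ : H →+ ZMod M)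

/-- `Λ` = the characters `z ↦ ch (z * φ b)`, `b ∈ Y` (`ZMod.stdAddChar.mulShift (φ b)`,
`AddChar.mulShift_apply`), together with `z ↦ ch z`; `W_626a77_h71.mem_Boh`. -/
theorem exists_chars (Y : Finset H) : ∃ Λ : Finset (AddChar (ZMod M) ℂ), ∀ τ : ℝ,
    Boh Λ τ = (Bz φ Y τ).filter (fun z => ‖1 - ch M z‖ ≤ τ) := by
  classical
  refine ⟨insert ZMod.stdAddChar
    (Y.image fun b => AddChar.mulShift (ZMod.stdAddChar (N := M)) (φ b)), ?_⟩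
  intro τ
  ext z
  rw [mem_Boh, Finset.mem_filter]
  unfold Bz
  simp only [Finset.mem_filter, Finset.mem_univ, true_and, Finset.mem_insert, Finset.mem_image]
  constructor
  · intro h
    refine ⟨fun b hb => ?_, h _ (Or.inl rfl)⟩
    have h1 := h _ (Or.inr ⟨b, hb, rfl⟩)
    rw [AddChar.mulShift_apply, mul_comm] at h1
    exact h1
  · rintro ⟨h1, h2⟩ χ (rfl | ⟨b, hb, rfl⟩)
    · exact h2
    · rw [AddChar.mulShift_apply, mul_comm]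
      exact h1 b hb

private theorem ch_int (n : ℤ) : ch M (n : ZMod M) = e ((n : ℝ) / M) := by
  unfold ch e
  rw [ZMod.stdAddChar_coe]
  congr 1
  push_cast
  ring

/-- `n = z.valMinAbs`, `|n| ≤ M / 2`, `ch z = e (n / M)`, `le_norm_one_sub_e` -/
theorem exists_rep (z : ZMod M) (τ : ℝ) (h : ‖1 - ch M z‖ ≤ τ) :
    ∃ n : ℤ, z = (n : ZMod M) ∧ |(n : ℝ)| ≤ τ * M := by
  have hM : (0 : ℝ) < M := by exact_mod_cast Nat.pos_of_ne_zero (NeZero.ne M)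
  have h1 : ((z.valMinAbs : ℤ) : ZMod M) = z := ZMod.coe_valMinAbs z
  refine ⟨z.valMinAbs, h1.symm, ?_⟩
  have h2 := ZMod.valMinAbs_mem_Ioc z
  rw [Set.mem_Ioc] at h2
  have h3 : |((z.valMinAbs : ℤ) : ℝ) * 2| ≤ M := by
    rw [abs_le]
    constructor
    · have := h2.1.le
      exact_mod_cast this
    · exact_mod_cast h2.2
  rw [abs_mul, abs_of_pos (by norm_num : (0 : ℝ) < 2)] at h3
  rw [← h1, ch_int] at h
  have h4 := le_norm_one_sub_e (((z.valMinAbs : ℤ) : ℝ) / M) (by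
    rw [abs_div, abs_of_pos hM, div_le_iff₀ hM]
    linarith)
  rw [abs_div, abs_of_pos hM] at h4
  have h5 : 4 * (|((z.valMinAbs : ℤ) : ℝ)| / M) ≤ τ := h4.trans h
  have h6 : 0 ≤ |((z.valMinAbs : ℤ) : ℝ)| / M := by positivity
  have h7 : |((z.valMinAbs : ℤ) : ℝ)| / M ≤ τ := by linarith
  rwa [div_le_iff₀ hM] at h7

/-- `‖1 - ch n‖ ≤ 2 π |n| / M ≤ 8 |n| / M` -/
theorem norm_one_sub_ch_le (n : ℤ) (τ : ℝ) (h : 8 * |(n : ℝ)| ≤ τ * M) :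
    ‖1 - ch M (n : ZMod M)‖ ≤ τ := by
  have hM : (0 : ℝ) < M := by exact_mod_cast Nat.pos_of_ne_zero (NeZero.ne M)
  rw [ch_int, norm_one_sub_e]
  have h1 : |Real.sin (Real.pi * ((n : ℝ) / M))| ≤ |Real.pi * ((n : ℝ) / M)| := Real.abs_sin_le_abs
  rw [abs_mul, abs_of_pos Real.pi_pos, abs_div, abs_of_pos hM] at h1
  have h2 := Real.pi_lt_four
  have h3 : 0 ≤ |(n : ℝ)| / M := by positivity
  have h4 : Real.pi * (|(n : ℝ)| / M) ≤ 4 * (|(n : ℝ)| / M) := by gcongr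
  have h5 : 8 * (|(n : ℝ)| / M) ≤ τ := by
    rw [mul_div_assoc', div_le_iff₀ hM]
    exact h
  linarith

end BohrOut

section Assembly

open Finset
open scoped Pointwise

open Pool.Agent.W_626a77_h71 Pool.Agent.OST

/-- `δ = (4^ν)⁻¹`, `R = M`.  `dim_bound` (W_626a77_h71) bounds the dimension of the span of `S δ` by
`D`; Ruzsa covering in `ℤ` (`Finset.ruzsa_covering_add`, as in `OST.exists_cover`):
`A ⊆ F + (A1 - A1)`, `|F| ≤ E`; every difference is `piLin v`, `v ∈ S δ`, by `exists_mem_S` with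
`η = 4 δ`; `OST.exists_body` with `s = δ`, injectivity from `OST.piLin_inj`; `|S δ| ≤ |Boh Λ 1|` by
`S_le_Boh` (`δ ≤ 1/8` since `24 ≤ 2^ν`).  Model: `OST.lattice_concl`. -/
theorem assembly3 (M : ℕ) [NeZero M] (Λ : Finset (AddChar (ZMod M) ℂ)) (ν D : ℕ) (c : ℝ)
    (hν : 1 ≤ ν) (hD2 : 24 * (D + 1) ≤ 2 ^ ν) (hD : c < Real.log 2 * (D + 1))
    (hrep : ∀ x ∈ Boh Λ ((4 ^ ν)⁻¹), ∃ n : ℤ, x = (n : ZMod M) ∧ |(n : ℝ)| ≤ (4 ^ ν)⁻¹ * M)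
    (hc : ((Boh Λ 1).card : ℝ) ≤ Real.exp (c * ν) * (Boh Λ ((4 ^ ν)⁻¹)).card)
    (A A1 : Finset ℤ) (hA1 : A1.Nonempty)
    (hdiff : ∀ x ∈ A1, ∀ y ∈ A1, ((x - y : ℤ) : ZMod M) ∈ Boh Λ (4 * (4 ^ ν)⁻¹) ∧
      |((x - y : ℤ) : ℝ)| ≤ (4 ^ ν)⁻¹ * M)
    (V E : ℝ) (hV : ((Boh Λ 1).card : ℝ) ≤ V * A.card)
    (hE : ((A + A1).card : ℝ) ≤ E * A1.card) : Concl3 A D V E := by
  classical
  choose θ hθ using fun χ : Λ => exists_theta M (χ : AddChar (ZMod M) ℂ)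
  have hM : (0 : ℝ) < M := by exact_mod_cast NeZero.pos M
  have h4pos : (0 : ℝ) < 4 ^ ν := by positivity
  have hδ : (0 : ℝ) < ((4 : ℝ) ^ ν)⁻¹ := by positivity
  have h24 : 24 ≤ 2 ^ ν := le_trans (by omega) hD2
  have hδ8 : ((4 : ℝ) ^ ν)⁻¹ ≤ 1 / 8 := by
    have e1 : (24 : ℝ) ≤ 2 ^ ν := by exact_mod_cast h24
    have e2 : (4 : ℝ) ^ ν = 2 ^ ν * 2 ^ ν := by rw [← mul_pow]; norm_num
    have e3 : (8 : ℝ) ≤ 4 ^ ν := by
      rw [e2]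
      calc (8 : ℝ) ≤ 24 * 24 := by norm_num
        _ ≤ 2 ^ ν * 2 ^ ν := by gcongr
    rw [inv_le_comm₀ h4pos (by norm_num)]
    norm_num
    exact e3
  have hsR : 2 * (1 / 8 * (M : ℝ)) < M := by linarith
  have hsR' : 2 * (((4 : ℝ) ^ ν)⁻¹ * (M : ℝ)) < M := by
    have : ((4 : ℝ) ^ ν)⁻¹ * (M : ℝ) ≤ 1 / 8 * M := mul_le_mul_of_nonneg_right hδ8 hM.le
    linarith
  have hdim := dim_bound Λ θ hθ (M : ℝ) hM c D ν hν hsR hrep hc hD hD2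
  obtain ⟨F, -, hFc, hcov⟩ := Finset.ruzsa_covering_add hA1 hE
  obtain ⟨d, B, v, r1, r2, r3, r4, r5, r6, r7, r8⟩ := exists_body (lat θ (M : ℝ))
    (lat_finite θ (M : ℝ) hM) (piLin Λ (M : ℝ)) (piLin_int θ (M : ℝ) hM) ((4 ^ ν)⁻¹) D hdim
    ((4 ^ ν)⁻¹) hδ le_rfl (piLin_inj Λ θ hθ (M : ℝ) hM _ hδ.le hδ8 hsR').1
  refine ⟨d, B, v, F, r1, r2, r3, r4, r5, ?_, hFc, r7, ?_⟩
  · rw [r6]
    have h1 := S_le_Boh Λ θ hθ (M : ℝ) hM _ hδ.le hδ8 hsR'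
    exact le_trans (by exact_mod_cast h1) hV
  · intro a ha
    have h1 := hcov ha
    rw [Finset.mem_add] at h1
    obtain ⟨t, ht, z, hz, hzeq⟩ := h1
    rw [Finset.mem_sub] at hz
    obtain ⟨x, hx, y, hy, hxy⟩ := hz
    obtain ⟨g1, g2⟩ := hdiff x hx y hy
    obtain ⟨w, hw, hwx⟩ := exists_mem_S Λ θ hθ (M : ℝ) hM _ (4 * ((4 : ℝ) ^ ν)⁻¹) hδ.le
      (by linarith) (x - y) g1 g2
    obtain ⟨m, hm, hwm⟩ := r8 w hw
    refine ⟨t, ht, m, hm, ?_⟩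
    rw [hwx] at hwm
    have h2 : x - y = ∑ i, v i * m i := by exact_mod_cast hwm
    rw [← hzeq, ← hxy, h2]

end Assembly

end Pool.Agent.W_626a77_h79
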