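import Mathlib
import Pool.Agent.W_MP_626a77_co_lead.DownSet

/-!
Polynomial Freiman-Ruzsa over the integers for (sets containing a dense) Freiman-isomorphic image
of a down-set of arbitrary, unbounded dimension.
-/

set_option autoImplicit false
open scoped Pointwise

namespace Pool.Agent.Results.MP_626a77_co.DownSets

/-- For every `c ≥ 0` there is a constant `C` such that the conclusion of the polynomial
Freiman-Ruzsa conjecture over `ℤ` holds for every finite `A` with `|A + A| ≤ K |A|` that contains a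
translate of the image of a finite down-set `D ⊆ ℕ^n` (the dimension `n` is arbitrary) under a
linear map injective on `D + D`, with `|A| ≤ K ^ c |D|`. -/
theorem result (c : ℝ) (hc : 0 ≤ c) :
    ∃ C : ℝ, 0 < C ∧ ∀ (K : ℝ) (A : Finset ℤ), A.Nonempty →
      (((A + A).card : ℝ) ≤ K * (A.card : ℝ)) →
      (∃ (n : ℕ) (D : Finset (Fin n → ℕ)) (w : Fin n → ℤ) (t : ℤ),
          D.Nonempty ∧ IsLowerSet (D : Set (Fin n → ℕ)) ∧
          Set.InjOn (fun x : Fin n → ℕ => ∑ i, w i * (x i : ℤ)) ((D + D : Finset (Fin n → ℕ)) : Set (Fin n → ℕ)) ∧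
          (∀ x ∈ D, t + ∑ i, w i * (x i : ℤ) ∈ A) ∧
          (A.card : ℝ) ≤ K ^ c * (D.card : ℝ)) →
      ∃ (d : ℕ) (B : Set (Fin d → ℝ)) (v : Fin d → ℤ) (T : Finset ℤ),
        (d : ℝ) ≤ C * (1 + Real.log K) ∧
        Convex ℝ B ∧ IsCompact B ∧ (interior B).Nonempty ∧ (∀ x ∈ B, -x ∈ B) ∧
        ({x : Fin d → ℤ | (fun i => (x i : ℝ)) ∈ B}.ncard ≤ A.card) ∧
        ((T.card : ℝ) ≤ C * K ^ C) ∧
        ∀ a ∈ A, ∃ t ∈ T, ∃ x : Fin d → ℤ,
          (fun i => (x i : ℝ)) ∈ B ∧ a = t + ∑ i, v i * x i :=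
  Pool.Agent.W_MP_626a77_co_lead.main c hc

end Pool.Agent.Results.MP_626a77_co.DownSets
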