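import Pool.Agent.W_626a77_h79.Defs
import Pool.Agent.W_626a77_h79.EnergyA
import Pool.Agent.W_626a77_h79.Spectrum

/-!
# A structured piece of the large spectrum, lifting to the integers
-/

set_option autoImplicit false

namespace Pool.Agent.W_626a77_h79

section Lift

open Finset
open scoped Pointwise

/-- `S''` = the image of `S'` under `x ↦ (x.val : ℤ)`.  The fibres of `S'' + S'' → S' + S'`,
`n ↦ (n : ZMod M)` have at most two elements since `S'' + S''` is contained in `[0, 2 M)`. -/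
theorem exists_lift {M : ℕ} [NeZero M] (S' : Finset (ZMod M)) :
    ∃ S'' : Finset ℤ, S''.card = S'.card ∧ (S'' + S'').card ≤ 2 * (S' + S').card ∧
      ∀ n ∈ S'', 0 ≤ n ∧ n < M ∧ (n : ZMod M) ∈ S' := by
  classical
  have hcast : ∀ x : ZMod M, (((x.val : ℤ) : ZMod M)) = x := by
    intro x
    rw [Int.cast_natCast]
    exact ZMod.natCast_zmod_val x
  refine ⟨S'.image (fun x => (x.val : ℤ)), ?_, ?_, ?_⟩
  · refine Finset.card_image_of_injective _ ?_
    intro x y hxy
    have h : (x.val : ℤ) = (y.val : ℤ) := hxy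
    have h2 : x.val = y.val := by exact_mod_cast h
    exact ZMod.val_injective M h2
  · set T := S'.image (fun x => (x.val : ℤ)) with hT
    have hTb : ∀ n ∈ T, 0 ≤ n ∧ n < M ∧ (n : ZMod M) ∈ S' := by
      intro n hn
      rw [hT, Finset.mem_image] at hn
      obtain ⟨x, hx, rfl⟩ := hn
      refine ⟨by positivity, ?_, ?_⟩
      · exact_mod_cast ZMod.val_lt x
      · rw [hcast]; exact hx
    have hMpos : (0 : ℤ) < M := by
      have := Nat.pos_of_ne_zero (NeZero.ne M)
      exact_mod_cast this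
    -- injection into the product
    have hinj : (T + T).card ≤ ((S' + S') ×ˢ ({0, 1} : Finset ℤ)).card := by
      refine Finset.card_le_card_of_injOn (fun n => ((n : ZMod M), n / (M : ℤ))) ?_ ?_
      · intro n hn
        rw [Finset.mem_coe, Finset.mem_add] at hn
        obtain ⟨a, ha, b, hb, rfl⟩ := hn
        obtain ⟨ha0, haM, haS⟩ := hTb a ha
        obtain ⟨hb0, hbM, hbS⟩ := hTb b hb
        rw [Finset.mem_coe, Finset.mem_product]
        refine ⟨?_, ?_⟩
        · show ((a + b : ℤ) : ZMod M) ∈ S' + S'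
          rw [Int.cast_add]
          exact Finset.add_mem_add haS hbS
        · show (a + b) / (M : ℤ) ∈ ({0, 1} : Finset ℤ)
          have h0 : 0 ≤ (a + b) / (M : ℤ) := Int.ediv_nonneg (by linarith) hMpos.le
          have h1 : (a + b) / (M : ℤ) < 2 := Int.ediv_lt_of_lt_mul hMpos (by linarith)
          have h2 : (a + b) / (M : ℤ) = 0 ∨ (a + b) / (M : ℤ) = 1 := by omega
          simpa using h2
      · intro n _ m _ hnm
        have h1 : ((n : ZMod M)) = (m : ZMod M) := congrArg Prod.fst hnm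
        have h2 : n / (M : ℤ) = m / (M : ℤ) := congrArg Prod.snd hnm
        have h3 : n % (M : ℤ) = m % (M : ℤ) := (ZMod.intCast_eq_intCast_iff' n m M).1 h1
        have h4 := Int.emod_add_mul_ediv n (M : ℤ)
        have h5 := Int.emod_add_mul_ediv m (M : ℤ)
        rw [← h4, ← h5, h2, h3]
    calc (T + T).card ≤ ((S' + S') ×ˢ ({0, 1} : Finset ℤ)).card := hinj
      _ = (S' + S').card * 2 := by
          rw [Finset.card_product]
          congr 1
      _ = 2 * (S' + S').card := by ring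
  · intro n hn
    rw [Finset.mem_image] at hn
    obtain ⟨x, hx, rfl⟩ := hn
    refine ⟨by positivity, ?_, ?_⟩
    · exact_mod_cast ZMod.val_lt x
    · rw [hcast]; exact hx

end Lift

section LiftB

open Finset
open scoped Pointwise

/-- `S ⊆ ⋃ t ∈ T, image of {x ∈ X1 : t + f x ∈ S}`; take the best `t`, and
`D1 = {x ∈ X1 : t + f x ∈ S}`. -/
theorem exists_translate {H : Type*} [AddCommGroup H] (S T : Finset ℤ) (hS : S.Nonempty)
    (X1 : Finset H) (f : H →+ ℤ) (hcov : ∀ a ∈ S, ∃ t ∈ T, ∃ x ∈ X1, a = t + f x) :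
    ∃ t ∈ T, ∃ D1 ⊆ X1, (∀ m ∈ D1, t + f m ∈ S) ∧ S.card ≤ T.card * D1.card := by
  classical
  have hT : T.Nonempty := by
    obtain ⟨a, ha⟩ := hS
    obtain ⟨t, ht, -⟩ := hcov a ha
    exact ⟨t, ht⟩
  obtain ⟨t, ht, hmax⟩ := T.exists_max_image
    (fun t => (X1.filter (fun x => t + f x ∈ S)).card) hT
  refine ⟨t, ht, X1.filter (fun x => t + f x ∈ S), filter_subset _ _,
    fun m hm => (mem_filter.mp hm).2, ?_⟩
  have hsub : S ⊆ T.biUnion (fun t => (X1.filter (fun x => t + f x ∈ S)).image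
      (fun x => t + f x)) := by
    intro a ha
    obtain ⟨t', ht', x, hx, rfl⟩ := hcov a ha
    rw [mem_biUnion]
    exact ⟨t', ht', mem_image.mpr ⟨x, mem_filter.mpr ⟨hx, ha⟩, rfl⟩⟩
  calc S.card ≤ _ := card_le_card hsub
    _ ≤ ∑ t' ∈ T, ((X1.filter (fun x => t' + f x ∈ S)).image (fun x => t' + f x)).card :=
        card_biUnion_le
    _ ≤ ∑ t' ∈ T, (X1.filter (fun x => t + f x ∈ S)).card :=
        sum_le_sum fun t' ht' => card_image_le.trans (hmax t' ht')
    _ = T.card * (X1.filter (fun x => t + f x ∈ S)).card := by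
        rw [sum_const, smul_eq_mul]

/-- `(m, h) ↦ m + h` is injective on `D1 ×ˢ K1`: if `m + h = m' + h'` then `f m = f m'` modulo `M`
(as `f h = f h' = 0` modulo `M`), so `t + f m = t + f m'` since both are in `[0, M)`
(`Int.emod_emod_of_dvd`, `Int.emod_eq_of_lt`, or `ZMod.intCast_eq_intCast_iff_dvd_sub`), so `m = m'`
by injectivity of `f` on `X1`. -/
theorem ker_card {H : Type*} [AddCommGroup H] {M : ℕ} [NeZero M] (f : H →+ ℤ)
    (X1 X2 D1 K1 : Finset H) (hD1 : D1 ⊆ X1) (hinj : Set.InjOn f X1) (t : ℤ)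
    (hr : ∀ m ∈ D1, 0 ≤ t + f m ∧ t + f m < M) (hK1 : ∀ h ∈ K1, ((f h : ℤ) : ZMod M) = 0)
    (hadd : ∀ m ∈ D1, ∀ h ∈ K1, m + h ∈ X2) : D1.card * K1.card ≤ X2.card := by
  classical
  rw [← card_product]
  apply card_le_card_of_injOn (fun p : H × H => p.1 + p.2)
  · intro p hp
    have hp' := mem_product.mp (mem_coe.mp hp)
    exact mem_coe.mpr (hadd _ hp'.1 _ hp'.2)
  · rintro ⟨m, h⟩ hp ⟨m', h'⟩ hp' heq
    have hp1 := mem_product.mp (mem_coe.mp hp)
    have hp2 := mem_product.mp (mem_coe.mp hp')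
    simp only at heq hp1 hp2
    have h1 : f m + f h = f m' + f h' := by
      rw [← map_add, ← map_add, heq]
    have h2 : ((f m : ℤ) : ZMod M) = ((f m' : ℤ) : ZMod M) := by
      have h3 := congrArg (fun z : ℤ => (z : ZMod M)) h1
      simp only [Int.cast_add, hK1 h hp1.2, hK1 h' hp2.2, add_zero] at h3
      exact h3
    have h4 : (M : ℤ) ∣ f m' - f m := (ZMod.intCast_eq_intCast_iff_dvd_sub _ _ _).mp h2
    obtain ⟨a1, a2⟩ := hr m hp1.1
    obtain ⟨b1, b2⟩ := hr m' hp2.1
    have h5 : f m' - f m = 0 := by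
      apply Int.eq_zero_of_abs_lt_dvd h4
      rw [abs_lt]
      constructor <;> linarith
    have h6 : m = m' := hinj (hD1 hp1.1) (hD1 hp2.1) (by linarith)
    subst h6
    have h7 : h = h' := add_left_cancel heq
    rw [h7]

end LiftB

section Piece

open Finset
open scoped Pointwise

variable {M : ℕ} [NeZero M]

/-- `bsg` for `S = Sp A K`, `D = Dp A K`, `J = 32 K^3` (`spec_pairs`, `Dp_card`), with `spec_lower`:
`M ≤ 2 K |A| |S| ≤ 2 K |A| * 128 K^3 |S'|`, `|S' - S'| ≤ 2^12 * 2^50 * K^30 |S'|`; then Pluennecke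
(`Finset.pluennecke_ruzsa_inequality_nsmul_sub_nsmul_sub` with `A = B = S'`, `m = 2`, `n = 0`). -/
theorem exists_piece (A : Finset (ZMod M)) (hA : A.Nonempty) (K : ℝ) (hK : 1 ≤ K)
    (h : ((A + A).card : ℝ) ≤ K * A.card) :
    ∃ S' ⊆ Sp A K, S'.Nonempty ∧ (M : ℝ) ≤ 256 * K ^ 4 * A.card * S'.card ∧
      ((S' + S').card : ℝ) ≤ 2 ^ 124 * K ^ 60 * S'.card := by
  classical
  have hK0 : (0 : ℝ) < K := by linarith
  have hn : (0 : ℝ) < A.card := by exact_mod_cast hA.card_pos
  have hlow := spec_lower A hA K hK h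
  have hM : (0 : ℝ) < M := by exact_mod_cast Nat.pos_of_ne_zero (NeZero.ne M)
  have hS0 : (0 : ℝ) < (Sp A K).card := by
    by_contra hc
    have h1 : ((Sp A K).card : ℝ) = 0 := le_antisymm (not_lt.mp hc) (Nat.cast_nonneg _)
    rw [h1, mul_zero] at hlow
    linarith
  have hSne : (Sp A K).Nonempty := by
    rw [← Finset.card_pos]
    exact_mod_cast hS0
  have hK3 : K ≤ K ^ 3 := by
    have := pow_le_pow_right₀ hK (show 1 ≤ 3 by norm_num)
    simpa using this
  have hJ : (1 : ℝ) ≤ 32 * K ^ 3 := by linarith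
  have h1 : ((Sp A K).card : ℝ) ^ 2 ≤ (32 * K ^ 3) *
      (((Sp A K ×ˢ Sp A K).filter (fun p => p.1 - p.2 ∈ Dp A K)).card : ℝ) := by
    refine le_trans (spec_pairs A hA K hK) ?_
    refine le_trans (mul_le_mul_of_nonneg_right (show 4 * K ≤ 32 * K ^ 3 by linarith)
      (Nat.cast_nonneg _)) (le_of_eq ?_)
    congr!
  obtain ⟨S', hsub, hne, hc1, hc2⟩ := bsg (Sp A K) (Dp A K) (32 * K ^ 3) hJ hSne h1
    (Dp_card A hA K hK h)
  refine ⟨S', hsub, hne, ?_, ?_⟩
  · have h2 : 2 * K * A.card * (Sp A K).card ≤ 2 * K * A.card * (4 * (32 * K ^ 3) * S'.card) :=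
      mul_le_mul_of_nonneg_left hc1 (by positivity)
    calc (M : ℝ) ≤ 2 * K * A.card * (4 * (32 * K ^ 3) * S'.card) := le_trans hlow h2
      _ = 256 * K ^ 4 * A.card * S'.card := by ring
  · have hs : (0 : ℝ) < S'.card := by exact_mod_cast hne.card_pos
    have h3 := Finset.pluennecke_ruzsa_inequality_nsmul_sub_nsmul_sub hne S' 2 0
    have h4 : (2 • S' - 0 • S' : Finset (ZMod M)) = S' + S' := by
      rw [zero_nsmul, two_nsmul, sub_zero]
    rw [h4] at h3
    have h5 : ((S' + S').card : ℝ) ≤ (((S' - S').card : ℝ) / S'.card) ^ 2 * S'.card := by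
      have h6 : (((S' + S').card : ℚ≥0) : ℝ) ≤
          (((((S' - S').card : ℚ≥0) / S'.card) ^ (2 + 0) * S'.card : ℚ≥0) : ℝ) := by
        exact_mod_cast h3
      push_cast at h6
      simpa using h6
    have h7 : ((S' - S').card : ℝ) / S'.card ≤ 4096 * (32 * K ^ 3) ^ 10 := by
      rw [div_le_iff₀ hs]
      exact hc2
    have h8 : (((S' - S').card : ℝ) / S'.card) ^ 2 ≤ (4096 * (32 * K ^ 3) ^ 10) ^ 2 :=
      pow_le_pow_left₀ (by positivity) h7 2
    calc ((S' + S').card : ℝ) ≤ (((S' - S').card : ℝ) / S'.card) ^ 2 * S'.card := h5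
      _ ≤ (4096 * (32 * K ^ 3) ^ 10) ^ 2 * S'.card := mul_le_mul_of_nonneg_right h8 hs.le
      _ = 2 ^ 124 * K ^ 60 * S'.card := by ring

end Piece

end Pool.Agent.W_626a77_h79
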