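import Pool.Agent.W_626a77_h79.Middle
import Pool.Agent.W_626a77_h79.EnergyB
import Pool.Agent.W_626a77_h79.BohrAssembly
import Pool.Agent.OST_h95.Final2

/-!
# The theorem
-/

set_option autoImplicit false

open Finset
open scoped Pointwise

namespace Pool.Agent.W_626a77_h79

open Pool.Agent.W_626a77_h71 Pool.Agent.OST

theorem Concl3.mono {A : Finset ℤ} {D : ℕ} {V E V' E' : ℝ} (hV : V ≤ V') (hE : E ≤ E')
    (h : Concl3 A D V E) : Concl3 A D V' E' := by
  obtain ⟨d, B, v, T, h1, h2, h3, h4, h5, h6, h7, h8, h9⟩ := h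
  exact ⟨d, B, v, T, h1, h2, h3, h4, h5, h6.trans (by gcongr), h7.trans hE, h8, h9⟩

/-- the theorem for fixed parameters -/
theorem translates_aux (C₀ : ℝ) (hC₀ : 1 ≤ C₀) (ε : ℝ)
    (hcov : ∀ (k : ℝ) (A : Finset ℤ), 1 ≤ k → A.Nonempty →
      ((A + A).card : ℝ) ≤ Real.exp k * A.card →
      ∃ D : ℕ, (D : ℝ) ≤ C₀ * k ∧ Concl2 A D (Real.exp (C₀ * k ^ (1 + ε))) (Real.exp (C₀ * k)))
    (k : ℝ) (A : Finset ℤ) (hk : 1 ≤ k) (hA : A.Nonempty)
    (hAA : ((A + A).card : ℝ) ≤ Real.exp k * A.card)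
    (L ν D : ℕ) (hL : 1 ≤ L) (hLk : C₀ * (150 * k) ≤ L) (hν1 : 1 ≤ ν)
    (hν2 : 1 + Real.log L ≤ ν) (hD2 : 24 * (D + 1) ≤ 2 ^ ν)
    (hD1 : 30 * (L : ℝ) < Real.log 2 * (D + 1)) :
    Concl3 A D (256 * Real.exp k ^ 4 * Real.exp (30 * L * ν) *
      Real.exp (C₀ * (150 * k) ^ (1 + ε))) (Real.exp k * Real.exp (7 * L)) := by
  classical
  have hk0 : 0 < k := by linarith
  have hA0 : (0 : ℝ) < A.card := by exact_mod_cast hA.card_pos
  have hkL : k ≤ L := by nlinarith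
  obtain ⟨a, ha⟩ : ∃ a : ℕ, ∀ x ∈ A, |x| ≤ (a : ℤ) := by
    refine ⟨∑ x ∈ A, x.natAbs, ?_⟩
    intro x hx
    rw [Int.abs_eq_natAbs]
    exact_mod_cast Finset.single_le_sum (f := fun x : ℤ => x.natAbs) (fun _ _ => Nat.zero_le _) hx
  obtain ⟨M, hM⟩ : ∃ M : ℕ, M = 8 * 4 ^ ν * (2 * a + 1) + 1 := ⟨_, rfl⟩
  have : NeZero M := ⟨by omega⟩
  have hMr : (M : ℝ) = 8 * 4 ^ ν * (2 * a + 1) + 1 := by rw [hM]; push_cast; ring
  have h4 : (1 : ℝ) ≤ 4 ^ ν := one_le_pow₀ (by norm_num)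
  have ha0 : (0 : ℝ) ≤ a := Nat.cast_nonneg _
  have hMa : 8 * (2 * (a : ℝ) + 1) ≤ ((4 : ℝ) ^ ν)⁻¹ * M := by
    rw [hMr]
    have e1 : ((4 : ℝ) ^ ν)⁻¹ * (8 * 4 ^ ν * (2 * a + 1) + 1)
        = 8 * (2 * a + 1) + ((4 : ℝ) ^ ν)⁻¹ := by field_simp
    rw [e1]
    have : 0 ≤ ((4 : ℝ) ^ ν)⁻¹ := by positivity
    linarith
  have hM2 : 2 * (a : ℝ) < M := by
    rw [hMr]; nlinarith
  have har : ∀ x ∈ A, |(x : ℝ)| ≤ a := fun x hx => by exact_mod_cast ha x hx
  have hdiffA : ∀ x ∈ A, ∀ y ∈ A, |(x : ℝ) - y| ≤ 2 * a := by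
    intro x hx y hy
    have := abs_sub (x : ℝ) y
    linarith [har x hx, har y hy]
  obtain ⟨A', hA'⟩ : ∃ A' : Finset (ZMod M), A' = A.image (fun a : ℤ => (a : ZMod M)) := ⟨_, rfl⟩
  have hinj : Set.InjOn (fun a : ℤ => (a : ZMod M)) A := by
    intro x hx y hy hxy
    exact int_eq_of_cast_eq M x y hxy (lt_of_le_of_lt (hdiffA x hx y hy) hM2)
  have hcard : A'.card = A.card := by rw [hA']; exact Finset.card_image_of_injOn hinj
  have hA'ne : A'.Nonempty := by rw [hA']; exact hA.image _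
  obtain ⟨K, hK⟩ : ∃ K : ℝ, K = Real.exp k := ⟨_, rfl⟩
  have hK1 : 1 ≤ K := by rw [hK]; exact Real.one_le_exp hk0.le
  rw [← hK]
  have hadd : ((A' + A').card : ℝ) ≤ K * A'.card := by
    have h1 : A' + A' = (A + A).image (fun a : ℤ => (a : ZMod M)) := by
      rw [hA']
      exact (Finset.image_add (Int.castRingHom (ZMod M))).symm
    rw [hcard, h1, hK]
    refine le_trans ?_ hAA
    exact_mod_cast Finset.card_image_le
  obtain ⟨S', hS'sub, hS'ne, hS'M, hS'2⟩ := exists_piece A' hA'ne K hK1 hadd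
  obtain ⟨S, hSc, hS2, hSr⟩ := exists_lift S'
  have hSne : S.Nonempty := by
    rw [← Finset.card_pos, hSc]; exact hS'ne.card_pos
  have hS0 : (0 : ℝ) < S.card := by exact_mod_cast hSne.card_pos
  have hSdoub : ((S + S).card : ℝ) ≤ Real.exp (150 * k) * S.card := by
    have e1 : ((S + S).card : ℝ) ≤ 2 * (S' + S').card := by exact_mod_cast hS2
    have e2 : (2 : ℝ) ^ 125 ≤ Real.exp (90 * k) := by
      have e5 := Real.exp_one_gt_d9
      calc (2 : ℝ) ^ 125 ≤ 2.7182818283 ^ 90 := by norm_num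
        _ ≤ Real.exp 1 ^ 90 := by gcongr
        _ = Real.exp 90 := by rw [← Real.exp_nat_mul]; norm_num
        _ ≤ Real.exp (90 * k) := Real.exp_le_exp.2 (by linarith)
    have e3 : K ^ 60 = Real.exp (60 * k) := by
      rw [hK, ← Real.exp_nat_mul]; norm_num
    calc ((S + S).card : ℝ) ≤ 2 * (2 ^ 124 * K ^ 60 * S'.card) := e1.trans (by gcongr)
      _ = 2 ^ 125 * K ^ 60 * S.card := by rw [hSc]; ring
      _ ≤ Real.exp (90 * k) * Real.exp (60 * k) * S.card := by rw [e3]; gcongr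
      _ = Real.exp (150 * k) * S.card := by rw [← Real.exp_add]; congr 2; ring
  obtain ⟨D', hD', d, B, v, T, r1, r2, r3, r4, r5, r6, r7, r8, r9, r10⟩ :=
    hcov (150 * k) S (by linarith) hSne hSdoub
  have hB : Body B := ⟨r2, r3, r4, r5⟩
  rw [ncard_eq hB] at r6 r7 r8
  have hdL : d ≤ L := by
    have e1 : (d : ℝ) ≤ D' := by exact_mod_cast r1
    have e2 : (d : ℝ) ≤ L := e1.trans (hD'.trans hLk)
    exact_mod_cast e2
  obtain ⟨f, hf⟩ : ∃ f : (Fin d → ℤ) →+ ℤ, ∀ x, f x = ∑ i, v i * x i :=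
    ⟨{ toFun := fun x => ∑ i, v i * x i
       map_zero' := by simp
       map_add' := by intro x y; simp [mul_add, Finset.sum_add_distrib] }, fun x => rfl⟩
  have hX1 : ∀ m, m ∈ X B 1 ↔ (fun i => (m i : ℝ)) ∈ B := by
    intro m; rw [mem_X hB, one_smul]
  have hfinj : Set.InjOn f (X B 1) := by
    intro x hx y hy hxy
    rw [Finset.mem_coe, hX1] at hx hy
    rw [hf, hf] at hxy
    exact r9 x y hx hy hxy
  obtain ⟨t, htT, D1, hD1sub, hD1mem, hD1card⟩ := exists_translate S T hSne (X B 1) f (by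
    intro b hb
    obtain ⟨t, ht, x, hx, hbx⟩ := r10 b hb
    exact ⟨t, ht, x, (hX1 x).2 hx, by rw [hf]; exact hbx⟩)
  have hT0 : (0 : ℝ) < T.card := by exact_mod_cast Finset.card_pos.2 ⟨t, htT⟩
  have hDX : ((X B 1).card : ℝ) ≤ Real.exp L * D1.card := by
    have e1 : (S.card : ℝ) ≤ T.card * D1.card := by exact_mod_cast hD1card
    have e2 : (T.card : ℝ) * (X B 1).card ≤ T.card * (Real.exp L * D1.card) := by
      calc (T.card : ℝ) * (X B 1).card ≤ Real.exp (C₀ * (150 * k)) * S.card := r8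
        _ ≤ Real.exp L * (T.card * D1.card) := by gcongr
        _ = T.card * (Real.exp L * D1.card) := by ring
    exact le_of_mul_le_mul_left e2 hT0
  obtain ⟨φ, Y, A₂, hA₂sub, hA₂card, hA₂diff, hvol, hratio⟩ :=
    middle A' hA'ne K hK1 L ν hL (by rw [hK]; exact Real.exp_le_exp.2 hkL) hν2 hdL hB f hfinj t D1
      hD1sub hDX (by
        intro m hm
        have := hSr _ (hD1mem m hm)
        exact ⟨this.1, this.2.1⟩) (by
        intro m hm
        have h1 := hS'sub (hSr _ (hD1mem m hm)).2.2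
        simp only [Sp, Finset.mem_filter, Finset.mem_univ, true_and] at h1
        exact h1)
  obtain ⟨Λ, hΛ⟩ := exists_chars φ Y
  have hBohle : ((Boh Λ 1).card : ℝ) ≤ (Bz φ Y 1).card := by
    rw [hΛ]
    exact_mod_cast Finset.card_le_card (Finset.filter_subset _ _)
  obtain ⟨A1, hA1⟩ : ∃ A1 : Finset ℤ, A1 = A.filter (fun a : ℤ => (a : ZMod M) ∈ A₂) := ⟨_, rfl⟩
  have hA1sub : A1 ⊆ A := by rw [hA1]; exact Finset.filter_subset _ _
  have hA1card : A1.card = A₂.card := by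
    have h1 : A₂ = A1.image (fun a : ℤ => (a : ZMod M)) := by
      ext z
      rw [Finset.mem_image]
      constructor
      · intro hz
        have h2 := hA₂sub hz
        rw [hA', Finset.mem_image] at h2
        obtain ⟨b, hb, rfl⟩ := h2
        exact ⟨b, by rw [hA1, Finset.mem_filter]; exact ⟨hb, hz⟩, rfl⟩
      · rintro ⟨b, hb, rfl⟩
        rw [hA1, Finset.mem_filter] at hb
        exact hb.2
    rw [h1, Finset.card_image_of_injOn]
    intro x hx y hy hxy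
    exact hinj (hA1sub hx) (hA1sub hy) hxy
  have hA1big : (A.card : ℝ) ≤ Real.exp (7 * L) * A1.card := by
    rw [hA1card, ← hcard]; exact hA₂card
  have hA1ne : A1.Nonempty := by
    rw [← Finset.card_pos]
    by_contra hcon
    have e1 : A1.card = 0 := by omega
    rw [e1, Nat.cast_zero, mul_zero] at hA1big
    linarith
  have hX1pos : (0 : ℝ) < (X B 1).card := by
    exact_mod_cast Finset.card_pos.2 ⟨0, zero_mem_X hB 1⟩
  apply assembly3 M Λ ν D (30 * L) hν1 hD2 hD1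
  · intro x hx
    rw [hΛ, Finset.mem_filter] at hx
    exact exists_rep x _ hx.2
  · rw [hΛ ((4 ^ ν)⁻¹)]
    exact hBohle.trans hratio
  · exact hA1ne
  · intro x hx y hy
    have hxA := hA1sub hx
    have hyA := hA1sub hy
    have hd2 := hdiffA x hxA y hyA
    rw [hA1, Finset.mem_filter] at hx hy
    constructor
    · rw [hΛ, Finset.mem_filter]
      constructor
      · have := hA₂diff _ hx.2 _ hy.2
        push_cast
        exact this
      · apply norm_one_sub_ch_le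
        push_cast
        nlinarith [abs_nonneg ((x : ℝ) - y)]
    · push_cast
      refine hd2.trans ?_
      linarith
  · -- volume
    have e1 : ((Bz φ Y 1).card : ℝ) * (X B 1).card ≤
        (256 * K ^ 4 * Real.exp (30 * L * ν) * Real.exp (C₀ * (150 * k) ^ (1 + ε)) * A.card) *
          (X B 1).card := by
      calc ((Bz φ Y 1).card : ℝ) * (X B 1).card ≤ M * Real.exp (30 * L * ν) := hvol
        _ ≤ (256 * K ^ 4 * A'.card * S'.card) * Real.exp (30 * L * ν) := by gcongr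
        _ = (256 * K ^ 4 * A.card * S.card) * Real.exp (30 * L * ν) := by rw [hcard, hSc]
        _ ≤ (256 * K ^ 4 * A.card * (Real.exp (C₀ * (150 * k) ^ (1 + ε)) * (X B 1).card)) *
              Real.exp (30 * L * ν) := by gcongr
        _ = _ := by ring
    exact hBohle.trans (le_of_mul_le_mul_right e1 hX1pos)
  · -- covering
    have e1 : ((A + A1).card : ℝ) ≤ (A + A).card := by
      exact_mod_cast Finset.card_le_card (Finset.add_subset_add_left hA1sub)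
    calc ((A + A1).card : ℝ) ≤ K * A.card := by rw [hK]; exact e1.trans hAA
      _ ≤ K * (Real.exp (7 * L) * A1.card) := by gcongr
      _ = K * Real.exp (7 * L) * A1.card := by ring

theorem translates (ε : ℝ) (hε : 0 < ε) : ∃ C : ℝ, 1 ≤ C ∧ ∀ (k : ℝ) (A : Finset ℤ), 1 ≤ k →
    A.Nonempty → ((A + A).card : ℝ) ≤ Real.exp k * A.card →
    ∃ D : ℕ, (D : ℝ) ≤ C * k ∧ Concl3 A D (Real.exp (C * k ^ (1 + ε))) (Real.exp (C * k)) := by
  obtain ⟨C₀, hC₀, hcov⟩ := covering ε hε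
  obtain ⟨C₃, hC₃⟩ : ∃ C₃ : ℝ, C₃ = 1001 * (1 + Real.log (151 * C₀) + 1 / ε) := ⟨_, rfl⟩
  have hlog : 0 ≤ Real.log (151 * C₀) := Real.log_nonneg (by linarith)
  have hC₃1 : 1001 ≤ C₃ := by
    have : 0 < 1 / ε := by positivity
    rw [hC₃]; linarith
  obtain ⟨C₄, hC₄⟩ : ∃ C₄ : ℝ, C₄ = C₀ * 150 ^ (1 + ε) := ⟨_, rfl⟩
  have hC₄0 : 0 ≤ C₄ := by rw [hC₄]; positivity
  have hCC : 1001 ≤ C₀ * C₃ := by nlinarith
  refine ⟨226500 * (C₀ * C₃) + C₄ + 10, by linarith, ?_⟩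
  intro k A hk hA hAA
  have hk0 : 0 < k := by linarith
  obtain ⟨L, hL⟩ : ∃ L : ℕ, L = ⌈C₀ * (150 * k)⌉₊ := ⟨_, rfl⟩
  have hL1 : C₀ * (150 * k) ≤ L := by rw [hL]; exact Nat.le_ceil _
  have hC0k : 1 ≤ C₀ * k := one_le_mul_of_one_le_of_one_le hC₀ hk
  have hL2 : (L : ℝ) ≤ 151 * C₀ * k := by
    have := Nat.ceil_lt_add_one (a := C₀ * (150 * k)) (by positivity)
    rw [← hL] at this
    linarith
  have hLr : (1 : ℝ) ≤ L := by linarith
  have hLn : 1 ≤ L := by exact_mod_cast hLr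
  obtain ⟨ν, D, hν1, hν2, hν3, hD2, hD1, hD3⟩ := num1 L hLr
  have hlogL : 0 ≤ Real.log L := Real.log_nonneg hLr
  have h := translates_aux C₀ hC₀ ε hcov k A hk hA hAA L ν D hLn hL1 hν1 (by linarith) hD2
    (by linarith)
  have hke0 : 0 < k ^ ε := Real.rpow_pos_of_pos hk0 _
  have hke1 : 1 ≤ k ^ ε := Real.one_le_rpow hk hε.le
  have hkk : k * k ^ ε = k ^ (1 + ε) := by rw [Real.rpow_add hk0, Real.rpow_one]
  have hk1 : k ≤ k ^ (1 + ε) := by
    rw [← hkk]; exact le_mul_of_one_le_right hk0.le hke1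
  have hνk : (ν : ℝ) ≤ C₃ * k ^ ε := by
    have h1 : Real.log L ≤ Real.log (151 * C₀) + Real.log k := by
      rw [← Real.log_mul (by positivity) hk0.ne']
      exact Real.log_le_log (by linarith) hL2
    have h2 : Real.log k ≤ k ^ ε / ε := Real.log_le_rpow_div hk0.le hε
    have h3 : Real.log (151 * C₀) ≤ Real.log (151 * C₀) * k ^ ε := le_mul_of_one_le_right hlog hke1
    rw [hC₃]
    have h4 : k ^ ε / ε = 1 / ε * k ^ ε := by ring
    have h5 : 1001 * (1 + Real.log (151 * C₀) + 1 / ε) * k ^ ε =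
      1001 * (k ^ ε + Real.log (151 * C₀) * k ^ ε + 1 / ε * k ^ ε) := by ring
    rw [h5]
    linarith
  have hLν : (L : ℝ) * ν ≤ 151 * (C₀ * C₃) * k ^ (1 + ε) := by
    calc (L : ℝ) * ν ≤ (151 * C₀ * k) * (C₃ * k ^ ε) := by gcongr
      _ = 151 * (C₀ * C₃) * (k * k ^ ε) := by ring
      _ = _ := by rw [hkk]
  have hz0 : 0 < k ^ (1 + ε) := Real.rpow_pos_of_pos hk0 _
  refine ⟨D, ?_, Concl3.mono ?_ ?_ h⟩
  · calc (D : ℝ) ≤ 1500 * L := hD3
      _ ≤ 1500 * (151 * C₀ * k) := by gcongr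
      _ = 226500 * (C₀ * 1) * k := by ring
      _ ≤ 226500 * (C₀ * C₃) * k := by gcongr; linarith
      _ ≤ (226500 * (C₀ * C₃) + C₄ + 10) * k := by gcongr; linarith
  · have e1 : (256 : ℝ) ≤ Real.exp (6 * k ^ (1 + ε)) := by
      have e5 := Real.exp_one_gt_d9
      calc (256 : ℝ) ≤ 2.7182818283 ^ 6 := by norm_num
        _ ≤ Real.exp 1 ^ 6 := by gcongr
        _ = Real.exp 6 := by rw [← Real.exp_nat_mul]; norm_num
        _ ≤ Real.exp (6 * k ^ (1 + ε)) := Real.exp_le_exp.2 (by linarith)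
    have e2 : Real.exp k ^ 4 ≤ Real.exp (4 * k ^ (1 + ε)) := by
      rw [← Real.exp_nat_mul]
      refine Real.exp_le_exp.2 ?_
      push_cast
      linarith
    have e3 : Real.exp (30 * L * ν) ≤ Real.exp (4530 * (C₀ * C₃) * k ^ (1 + ε)) := by
      refine Real.exp_le_exp.2 ?_
      nlinarith
    have e4 : C₀ * (150 * k) ^ (1 + ε) = C₄ * k ^ (1 + ε) := by
      rw [hC₄, Real.mul_rpow (by norm_num) hk0.le]; ring
    rw [e4]
    calc 256 * Real.exp k ^ 4 * Real.exp (30 * L * ν) * Real.exp (C₄ * k ^ (1 + ε)) ≤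
          Real.exp (6 * k ^ (1 + ε)) * Real.exp (4 * k ^ (1 + ε)) *
            Real.exp (4530 * (C₀ * C₃) * k ^ (1 + ε)) * Real.exp (C₄ * k ^ (1 + ε)) := by gcongr
      _ = Real.exp ((4530 * (C₀ * C₃) + C₄ + 10) * k ^ (1 + ε)) := by
          rw [← Real.exp_add, ← Real.exp_add, ← Real.exp_add]; congr 1; ring
      _ ≤ Real.exp ((226500 * (C₀ * C₃) + C₄ + 10) * k ^ (1 + ε)) := by
          refine Real.exp_le_exp.2 ?_
          gcongr
          linarith
  · rw [← Real.exp_add]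
    refine Real.exp_le_exp.2 ?_
    have e1 : C₀ * k ≤ C₀ * C₃ * k := by
      have : C₀ * 1 ≤ C₀ * C₃ := by gcongr; linarith
      nlinarith
    have e2 : 7 * (L : ℝ) ≤ 1057 * (C₀ * k) := by linarith
    have e3 : (226500 * (C₀ * C₃) + C₄ + 10) * k = 226500 * (C₀ * C₃ * k) + C₄ * k + 10 * k := by
      ring
    rw [e3]
    have e4 : 0 ≤ C₄ * k := by positivity
    have e5 : 0 ≤ C₀ * C₃ * k := by positivity
    linarith

/-- THE THEOREM. -/
theorem polynomial_translates (ε : ℝ) (hε : 0 < ε) :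
    ∃ C : ℝ, 0 < C ∧ ∀ (K : ℝ) (A : Finset ℤ), A.Nonempty →
      (((A + A).card : ℝ) ≤ K * (A.card : ℝ)) →
      ∃ (d : ℕ) (B : Set (Fin d → ℝ)) (v : Fin d → ℤ) (T : Finset ℤ),
        (d : ℝ) ≤ C * (1 + Real.log K) ∧
        Convex ℝ B ∧ IsCompact B ∧ (interior B).Nonempty ∧ (∀ x ∈ B, -x ∈ B) ∧
        ({x : Fin d → ℤ | (fun i => (x i : ℝ)) ∈ B}.ncard : ℝ) ≤
          Real.exp (C * (1 + Real.log K) ^ (1 + ε)) * A.card ∧
        (T.card : ℝ) ≤ C * K ^ C ∧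
        (∀ x y : Fin d → ℤ, (fun i => (x i : ℝ)) ∈ B → (fun i => (y i : ℝ)) ∈ B →
          ∑ i, v i * x i = ∑ i, v i * y i → x = y) ∧
        ∀ a ∈ A, ∃ t ∈ T, ∃ x : Fin d → ℤ,
          (fun i => (x i : ℝ)) ∈ B ∧ a = t + ∑ i, v i * x i := by
  obtain ⟨C, hC, h⟩ := translates ε hε
  refine ⟨Real.exp C, Real.exp_pos _, ?_⟩
  intro K A hA hAA
  have hA0 : (0 : ℝ) < A.card := by exact_mod_cast hA.card_pos
  have hK1 : 1 ≤ K := by
    have h1 : A.card ≤ (A + A).card := Finset.card_le_card_add_left hA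
    have h2 : (A.card : ℝ) ≤ (A + A).card := by exact_mod_cast h1
    by_contra hcon
    push Not at hcon
    have h3 : K * A.card < 1 * A.card := by gcongr
    linarith
  have hK0 : 0 < K := by linarith
  have hlog := Real.log_nonneg hK1
  obtain ⟨k, hk⟩ : ∃ k : ℝ, k = 1 + Real.log K := ⟨_, rfl⟩
  have hk1 : 1 ≤ k := by linarith
  have hKk : K ≤ Real.exp k := by
    calc K = Real.exp (Real.log K) := (Real.exp_log hK0).symm
      _ ≤ Real.exp k := by gcongr; linarith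
  have hCe : C ≤ Real.exp C := by
    have := Real.add_one_le_exp C
    linarith
  obtain ⟨D, hD, d, B, v, T, h1, h2, h3, h4, h5, h6, h7, h8, h9⟩ :=
    h k A hk1 hA (hAA.trans (by gcongr))
  rw [← hk]
  refine ⟨d, B, v, T, ?_, h2, h3, h4, h5, h6.trans ?_, h7.trans ?_, h8, h9⟩
  · calc (d : ℝ) ≤ D := by exact_mod_cast h1
      _ ≤ C * k := hD
      _ ≤ Real.exp C * k := by gcongr
  · gcongr
  · have e1 : Real.exp (C * k) = Real.exp C * K ^ C := by
      rw [hk, mul_add, mul_one, Real.exp_add, Real.rpow_def_of_pos hK0, mul_comm C (Real.log K)]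
    rw [e1]
    have e2 : K ^ C ≤ K ^ (Real.exp C) := Real.rpow_le_rpow_of_exponent_le hK1 hCe
    gcongr

end Pool.Agent.W_626a77_h79
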