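import Pool.Agent.W_626a77_h79.Defs

/-!
# Lattice points of dilates of a convex body
-/

set_option autoImplicit false

namespace Pool.Agent.W_626a77_h79

section GeoA

open Finset
open scoped Pointwise

variable {d : ℕ} {B : Set (Fin d → ℝ)}

/-- `t • B` is bounded: contained in `Metric.closedBall 0 R`, so all coordinates of `m` are in
`[-R, R]`. -/
theorem finite_X (hB : Body B) (t : ℝ) :
    {m : Fin d → ℤ | (fun i => (m i : ℝ)) ∈ t • B}.Finite := by
  have hb : Bornology.IsBounded (t • B) := hB.comp.isBounded.smul₀ t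
  obtain ⟨R, hR⟩ := hb.subset_closedBall 0
  obtain ⟨N, hN⟩ := exists_nat_gt R
  apply (Set.Finite.pi (fun _ : Fin d => Set.finite_Icc (-(N : ℤ)) N)).subset
  intro m hm i _
  have h1 := hR hm
  rw [mem_closedBall_zero_iff] at h1
  have h2 := (norm_le_pi_norm (fun i => (m i : ℝ)) i).trans h1
  rw [Real.norm_eq_abs] at h2
  have h3 : |(m i : ℝ)| < N := lt_of_le_of_lt h2 hN
  have h4 : |m i| < (N : ℤ) := by exact_mod_cast h3
  rw [abs_lt] at h4
  exact ⟨h4.1.le, h4.2.le⟩

theorem mem_X (hB : Body B) (t : ℝ) (m : Fin d → ℤ) :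
    m ∈ X B t ↔ (fun i => (m i : ℝ)) ∈ t • B := by
  unfold X
  rw [dif_pos (finite_X hB t)]
  simp

/-- `0 ∈ B`: midpoint of `x` and `-x` -/
theorem zero_mem (hB : Body B) : (0 : Fin d → ℝ) ∈ B := by
  obtain ⟨x, hx⟩ := hB.int
  have h1 := interior_subset hx
  have h2 := hB.symm x h1
  have h3 := hB.conv h1 h2 (a := 1 / 2) (b := 1 / 2) (by norm_num) (by norm_num) (by norm_num)
  simpa using h3

theorem zero_mem_X (hB : Body B) (t : ℝ) : (0 : Fin d → ℤ) ∈ X B t := by
  rw [mem_X hB]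
  refine ⟨0, zero_mem hB, ?_⟩
  funext i
  simp

/-- `s • B ⊆ t • B` for `0 ≤ s ≤ t` since `0 ∈ B` (`Convex.smul_mem_of_zero_mem` or similar) -/
theorem X_mono (hB : Body B) {s t : ℝ} (hs : 0 ≤ s) (hst : s ≤ t) : X B s ⊆ X B t := by
  intro m hm
  rw [mem_X hB] at hm ⊢
  rcases hs.eq_or_lt with h0 | h0
  · rw [← h0] at hm
    obtain ⟨x, _, hx⟩ := hm
    refine ⟨0, zero_mem hB, ?_⟩
    simp only [smul_zero, zero_smul] at hx ⊢
    exact hx
  · have ht : 0 < t := lt_of_lt_of_le h0 hst
    obtain ⟨x, hxB, hx⟩ := hm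
    refine ⟨(s / t) • x, ?_, ?_⟩
    · exact hB.conv.smul_mem_of_zero_mem (zero_mem hB) hxB
        ⟨by positivity, by rw [div_le_one ht]; exact hst⟩
    · simp only at hx ⊢
      rw [smul_smul, mul_div_cancel₀ _ ht.ne']
      exact hx

theorem neg_mem_X (hB : Body B) {t : ℝ} {m : Fin d → ℤ} (hm : m ∈ X B t) : -m ∈ X B t := by
  rw [mem_X hB] at hm ⊢
  obtain ⟨x, hxB, hx⟩ := hm
  refine ⟨-x, hB.symm x hxB, ?_⟩
  simp only at hx ⊢
  rw [smul_neg, hx]
  funext i
  simp

/-- `Convex.add_smul`: `(s + t) • B = s • B + t • B` -/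
theorem add_mem_X (hB : Body B) {s t : ℝ} (hs : 0 ≤ s) (ht : 0 ≤ t) {m n : Fin d → ℤ}
    (hm : m ∈ X B s) (hn : n ∈ X B t) : m + n ∈ X B (s + t) := by
  rw [mem_X hB] at hm hn ⊢
  rw [hB.conv.add_smul hs ht]
  have h := Set.add_mem_add hm hn
  convert h using 1
  funext i
  simp

theorem sub_mem_X (hB : Body B) {s t : ℝ} (hs : 0 ≤ s) (ht : 0 ≤ t) {m n : Fin d → ℤ}
    (hm : m ∈ X B s) (hn : n ∈ X B t) : m - n ∈ X B (s + t) := by
  rw [sub_eq_add_neg]
  exact add_mem_X hB hs ht hm (neg_mem_X hB hn)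

/-- induction on `j` with `Fin.sum_univ_succ` or `Fin.sum_univ_castSucc` -/
theorem sum_mem_X (hB : Body B) {s : ℝ} (hs : 0 ≤ s) (j : ℕ) (f : Fin j → (Fin d → ℤ))
    (hf : ∀ i, f i ∈ X B s) : ∑ i, f i ∈ X B (j * s) := by
  induction j with
  | zero =>
    simp only [Finset.univ_eq_empty, Finset.sum_empty]
    exact zero_mem_X hB _
  | succ j ih =>
    rw [Fin.sum_univ_castSucc]
    have h1 := ih (fun i => f i.castSucc) (fun i => hf _)
    have h2 := add_mem_X hB (by positivity) hs h1 (hf (Fin.last j))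
    have h3 : ((j + 1 : ℕ) : ℝ) * s = j * s + s := by push_cast; ring
    rw [h3]
    exact h2

theorem ncard_eq (hB : Body B) :
    {m : Fin d → ℤ | (fun i => (m i : ℝ)) ∈ B}.ncard = (X B 1).card := by
  rw [← Set.ncard_coe_finset]
  congr 1
  ext m
  rw [Finset.mem_coe, mem_X hB, one_smul]
  rfl

end GeoA

section GeoB

open Finset MeasureTheory
open scoped Pointwise

variable {d : ℕ} {B : Set (Fin d → ℝ)}

/-- VOLUME: a finite set `P` of points of `t • B` (real vectors) with `p - q ∉ s • B` for `p ≠ q` has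
at most `(2 t / s + 1)^d` elements: the sets `p + (s/2) • B` are disjoint (`p + (s/2) x =
q + (s/2) y` gives `p - q = s ((y - x)/2) ∈ s • B`) and contained in `(t + s/2) • B`; volumes:
`Measure.addHaar_smul`, `measure_biUnion_finset`, `0 < volume B < ∞`. -/
theorem packing (hB : Body B) {s t : ℝ} (hs : 0 < s) (ht : 0 ≤ t) (P : Finset (Fin d → ℝ))
    (hP : ∀ p ∈ P, p ∈ t • B) (hsep : ∀ p ∈ P, ∀ q ∈ P, p ≠ q → p - q ∉ s • B) :
    (P.card : ℝ) ≤ (2 * t / s + 1) ^ d := by
  have hconv := hB.conv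
  set S : (Fin d → ℝ) → Set (Fin d → ℝ) := fun p => p +ᵥ ((s / 2) • B) with hS
  have hs2 : (0 : ℝ) < s / 2 := by linarith
  have hts : (0 : ℝ) ≤ t + s / 2 := by linarith
  have hdisj : (P : Set (Fin d → ℝ)).PairwiseDisjoint S := by
    intro p hp q hq hpq
    rw [Function.onFun, Set.disjoint_left]
    rintro z hz1 hz2
    obtain ⟨u, ⟨x, hx, rfl⟩, hu⟩ := hz1
    obtain ⟨w, ⟨y, hy, rfl⟩, hw⟩ := hz2
    refine hsep p hp q hq hpq ?_
    refine ⟨(1 / 2 : ℝ) • y + (1 / 2 : ℝ) • (-x), ?_, ?_⟩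
    · exact hconv hy (hB.symm x hx) (by norm_num) (by norm_num) (by norm_num)
    · have h1 : p + (s / 2) • x = q + (s / 2) • y := by
        have h2 : p + (s / 2) • x = z := hu
        have h3 : q + (s / 2) • y = z := hw
        rw [h2, h3]
      have h4 : p - q = (s / 2) • y - (s / 2) • x := by
        have h5 : p = q + (s / 2) • y - (s / 2) • x := by rw [← h1]; abel
        rw [h5]; abel
      rw [h4]
      ext i
      simp only [Pi.smul_apply, Pi.add_apply, Pi.neg_apply, Pi.sub_apply, smul_eq_mul]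
      ring
  have hmeas : ∀ p ∈ P, MeasurableSet (S p) := by
    intro p _
    exact ((hB.comp.smul (s / 2)).measurableSet).const_vadd p
  have hsub : (⋃ p ∈ P, S p) ⊆ (t + s / 2) • B := by
    intro z hz
    rw [Set.mem_iUnion₂] at hz
    obtain ⟨p, hp, hz⟩ := hz
    obtain ⟨u, hu, rfl⟩ := hz
    rw [hconv.add_smul ht hs2.le]
    exact Set.add_mem_add (hP p hp) hu
  have hfin : Module.finrank ℝ (Fin d → ℝ) = d := by simp
  have hvolS : ∀ p ∈ P, volume (S p) = ENNReal.ofReal ((s / 2) ^ d) * volume B := by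
    intro p _
    rw [hS]
    simp only
    rw [measure_vadd, Measure.addHaar_smul, hfin, abs_of_nonneg (by positivity)]
  have h1 : (P.card : ENNReal) * (ENNReal.ofReal ((s / 2) ^ d) * volume B) ≤
      ENNReal.ofReal ((t + s / 2) ^ d) * volume B := by
    calc (P.card : ENNReal) * (ENNReal.ofReal ((s / 2) ^ d) * volume B)
        = ∑ p ∈ P, volume (S p) := by
          rw [Finset.sum_congr rfl hvolS, Finset.sum_const, nsmul_eq_mul]
      _ = volume (⋃ p ∈ P, S p) := (measure_biUnion_finset hdisj hmeas).symm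
      _ ≤ volume ((t + s / 2) • B) := measure_mono hsub
      _ = _ := by
          rw [Measure.addHaar_smul, hfin, abs_of_nonneg (by positivity)]
  have hpos : 0 < volume B := Measure.measure_pos_of_nonempty_interior volume hB.int
  have hlt : volume B < ⊤ := hB.comp.measure_lt_top
  have h2 : (P.card : ENNReal) * ENNReal.ofReal ((s / 2) ^ d) ≤
      ENNReal.ofReal ((t + s / 2) ^ d) := by
    rw [← mul_assoc] at h1
    exact (ENNReal.mul_le_mul_iff_left hpos.ne' hlt.ne).1 h1
  have h3 : (P.card : ℝ) * (s / 2) ^ d ≤ (t + s / 2) ^ d := by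
    have h4 : ENNReal.ofReal ((P.card : ℝ) * (s / 2) ^ d) ≤ ENNReal.ofReal ((t + s / 2) ^ d) := by
      rw [ENNReal.ofReal_mul (by positivity), ENNReal.ofReal_natCast]
      exact h2
    exact (ENNReal.ofReal_le_ofReal_iff (by positivity)).1 h4
  have h5 : (2 * t / s + 1) ^ d = (t + s / 2) ^ d / (s / 2) ^ d := by
    rw [← div_pow]
    congr 1
    field_simp
  rw [h5, le_div_iff₀ (by positivity)]
  exact h3

end GeoB

section GeoC

open Finset MeasureTheory
open scoped Pointwise

variable {d : ℕ} {B : Set (Fin d → ℝ)}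

/-- (G2) `P ⊆ X B t` maximal with `p - q ∉ X B s` for `p ≠ q` in `P` (maximal cardinality in the
powerset); then `X B t ⊆ P + X B s`, and `packing` bounds `|P|`. -/
theorem card_X_le (hB : Body B) {s t : ℝ} (hs : 0 < s) (ht : 0 ≤ t) :
    ((X B t).card : ℝ) ≤ (2 * t / s + 1) ^ d * (X B s).card := by
  classical
  set F : Finset (Finset (Fin d → ℤ)) :=
    (X B t).powerset.filter (fun P => ∀ p ∈ P, ∀ q ∈ P, p ≠ q → p - q ∉ X B s) with hF
  have hne : F.Nonempty := ⟨∅, by simp [hF]⟩
  obtain ⟨P, hPF, hmax⟩ := Finset.exists_max_image F Finset.card hne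
  rw [hF, Finset.mem_filter, Finset.mem_powerset] at hPF
  obtain ⟨hPsub, hPsep⟩ := hPF
  have hcov : X B t ⊆ P + X B s := by
    intro m hm
    by_cases hmP : m ∈ P
    · rw [Finset.mem_add]
      exact ⟨m, hmP, 0, zero_mem_X hB s, by simp⟩
    by_contra hcon
    have hfar : ∀ p ∈ P, m - p ∉ X B s := by
      intro p hp h
      apply hcon
      rw [Finset.mem_add]
      exact ⟨p, hp, m - p, h, by simp⟩
    have hins : insert m P ∈ F := by
      rw [hF, Finset.mem_filter, Finset.mem_powerset]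
      refine ⟨Finset.insert_subset hm hPsub, ?_⟩
      intro p hp q hq hpq
      rw [Finset.mem_insert] at hp hq
      rcases hp with rfl | hp
      · rcases hq with rfl | hq
        · exact absurd rfl hpq
        · exact hfar q hq
      · rcases hq with rfl | hq
        · intro h
          have h2 := neg_mem_X hB h
          rw [neg_sub] at h2
          exact hfar p hp h2
        · exact hPsep p hp q hq hpq
    have h3 := hmax _ hins
    rw [Finset.card_insert_of_notMem hmP] at h3
    omega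
  have hinj : Function.Injective (fun (m : Fin d → ℤ) (i : Fin d) => (m i : ℝ)) := by
    intro m n h
    funext i
    have h2 : (m i : ℝ) = (n i : ℝ) := congrFun h i
    exact_mod_cast h2
  have hpack := packing hB hs ht (P.image (fun (m : Fin d → ℤ) (i : Fin d) => (m i : ℝ)))
    (by
      intro p hp
      rw [Finset.mem_image] at hp
      obtain ⟨m, hm, rfl⟩ := hp
      exact (mem_X hB t m).1 (hPsub hm))
    (by
      intro p hp q hq hpq
      rw [Finset.mem_image] at hp hq
      obtain ⟨m, hm, rfl⟩ := hp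
      obtain ⟨n, hn, rfl⟩ := hq
      intro h
      have hmn : m ≠ n := by
        rintro rfl
        exact hpq rfl
      apply hPsep m hm n hn hmn
      rw [mem_X hB s]
      convert h using 1
      funext i
      simp)
  rw [Finset.card_image_of_injective _ hinj] at hpack
  have h4 : ((X B t).card : ℝ) ≤ (P.card : ℝ) * (X B s).card := by
    have h5 : (X B t).card ≤ P.card * (X B s).card :=
      (Finset.card_le_card hcov).trans Finset.card_add_le
    exact_mod_cast h5
  exact h4.trans (mul_le_mul_of_nonneg_right hpack (by positivity))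

end GeoC

section GeoD

open Finset MeasureTheory
open scoped Pointwise

variable {d : ℕ} {B : Set (Fin d → ℝ)}

/-- (G3) a regular scale: otherwise `|X (σ/2)| < (1 - c2)^n |X σ|` (go down from `σ` to `σ/2` in `n`
steps of length `σ/(2 n)`), and `|X σ| ≤ 5^d |X (σ/2)|` by `card_X_le`. -/
theorem exists_regular (hB : Body B) (σ : ℝ) (hσ : 0 < σ) (n : ℕ) (hn : 1 ≤ n) (c2 : ℝ)
    (hc0 : 0 < c2) (hc1 : c2 < 1) (h : (1 - c2) ^ n * 5 ^ d < 1) :
    ∃ s : ℝ, σ / 2 ≤ s ∧ s ≤ σ ∧ s - σ / (2 * n) ≥ 0 ∧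
      (1 - c2) * ((X B s).card : ℝ) ≤ ((X B (s - σ / (2 * n))).card : ℝ) := by
  by_contra hcon
  push Not at hcon
  have hn0 : (0 : ℝ) < n := by exact_mod_cast hn
  have hstep : ∀ k : ℕ, k ≤ n →
      ((X B (σ - k * (σ / (2 * n)))).card : ℝ) ≤ (1 - c2) ^ k * (X B σ).card := by
    intro k
    induction k with
    | zero => intro _; simp
    | succ k ih =>
      intro hk
      have ih' := ih (by omega)
      have hkn : ((k : ℝ) + 1) ≤ n := by exact_mod_cast hk
      have hδ : 0 < σ / (2 * n) := by positivity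
      have hnδ : (n : ℝ) * (σ / (2 * n)) = σ / 2 := by field_simp
      have h1 : ((k : ℝ) + 1) * (σ / (2 * n)) ≤ σ / 2 := by
        rw [← hnδ]; exact mul_le_mul_of_nonneg_right hkn hδ.le
      have h0 : 0 ≤ (k : ℝ) * (σ / (2 * n)) := by positivity
      have h2 := hcon (σ - k * (σ / (2 * n))) (by linarith) (by linarith) (by linarith)
      have h3 : σ - ((k + 1 : ℕ) : ℝ) * (σ / (2 * n)) = σ - k * (σ / (2 * n)) - σ / (2 * n) := by
        push_cast; ring
      rw [h3]
      refine h2.le.trans ?_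
      rw [pow_succ']
      rw [mul_assoc]
      exact mul_le_mul_of_nonneg_left ih' (by linarith)
  have h1 := hstep n le_rfl
  have hnδ : (n : ℝ) * (σ / (2 * n)) = σ / 2 := by field_simp
  rw [hnδ, show σ - σ / 2 = σ / 2 by ring] at h1
  have h2 := card_X_le hB (s := σ / 2) (t := σ) (by linarith) hσ.le
  have h3 : 2 * σ / (σ / 2) + 1 = 5 := by field_simp; norm_num
  rw [h3] at h2
  have h4 : (1 : ℝ) ≤ (X B (σ / 2)).card := by
    have : 0 < (X B (σ / 2)).card := Finset.card_pos.2 ⟨0, zero_mem_X hB _⟩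
    exact_mod_cast this
  have h5 : (0 : ℝ) ≤ (1 - c2) ^ n := pow_nonneg (by linarith) _
  have h6 : ((X B (σ / 2)).card : ℝ) ≤ ((1 - c2) ^ n * 5 ^ d) * (X B (σ / 2)).card := by
    calc ((X B (σ / 2)).card : ℝ) ≤ (1 - c2) ^ n * (X B σ).card := h1
      _ ≤ (1 - c2) ^ n * (5 ^ d * (X B (σ / 2)).card) := mul_le_mul_of_nonneg_left h2 h5
      _ = _ := by ring
  nlinarith

end GeoD

end Pool.Agent.W_626a77_h79
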