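import Mathlib

/-!
# Numerical inequalities
-/

set_option autoImplicit false

namespace Pool.Agent.W_626a77_h79

section NumA



private theorem numA_e2 : (5 : ℝ) < Real.exp 2 := by
  have h1 := Real.exp_one_gt_d9
  have h2 : Real.exp 2 = Real.exp 1 * Real.exp 1 := by
    rw [← Real.exp_add]
    norm_num
  nlinarith

private theorem numA_e4 : (20 : ℝ) < Real.exp 4 := by
  have h1 := numA_e2
  have h2 : Real.exp 4 = Real.exp 2 * Real.exp 2 := by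
    rw [← Real.exp_add]
    norm_num
  nlinarith

private theorem numA_pow (a : ℝ) (L : ℕ) : Real.exp (a * L) = Real.exp a ^ L := by
  rw [← Real.exp_nat_mul, mul_comm]

/-- `log 5 < 1.61`: `5^L ≤ exp (2 L)` -/
theorem five_pow_le (L : ℕ) : (5 : ℝ) ^ L ≤ Real.exp (2 * L) := by
  rw [numA_pow 2 L]
  exact pow_le_pow_left₀ (by norm_num) numA_e2.le L

private theorem numA_one_sub {c : ℝ} (hc : c ≤ 1) (n : ℕ) {t : ℝ} (h : c * n = t) :
    (1 - c) ^ n ≤ Real.exp (-t) := by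
  have h1 : 1 - c ≤ Real.exp (-c) := Real.one_sub_le_exp_neg c
  have h2 : Real.exp (-t) = Real.exp (-c) ^ n := by
    rw [← Real.exp_nat_mul, ← h]
    congr 1
    ring
  rw [h2]
  exact pow_le_pow_left₀ (by linarith) h1 n

/-- `(1 - c)^j ≤ exp (-c j)`, `j = 100 L 16^ν`, `c = 16^(-ν) / 16`: `c j = 6.25 L`, while
`4 K 5^L e^L ≤ e^(1.4 + L + 1.61 L + L) < e^(5.1 L)`. -/
theorem num_j (L ν : ℕ) (hL : 1 ≤ L) (K : ℝ) (hK : 1 ≤ K) (hKL : K ≤ Real.exp L) :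
    (1 - ((16 : ℝ) ^ ν)⁻¹ / 16) ^ (100 * L * 16 ^ ν) < (Real.exp L * (2 * K) * 5 ^ L)⁻¹ / 2 := by
  have h16 : (1 : ℝ) ≤ 16 ^ ν := one_le_pow₀ (by norm_num)
  have h16' : ((16 : ℝ) ^ ν)⁻¹ ≤ 1 := inv_le_one_of_one_le₀ h16
  have h16p : (0 : ℝ) < 16 ^ ν := by positivity
  have h1 : (1 - ((16 : ℝ) ^ ν)⁻¹ / 16) ^ (100 * L * 16 ^ ν) ≤ Real.exp (-(25 / 4 * L)) := by
    apply numA_one_sub (by linarith)
    push_cast
    field_simp
    ring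
  refine h1.trans_lt ?_
  have hL' : (1 : ℝ) ≤ L := by exact_mod_cast hL
  have h2 : Real.exp (-(25 / 4 * L)) ≤ Real.exp (-(6 * L)) := by
    apply Real.exp_le_exp.2
    linarith
  refine h2.trans_lt ?_
  have h3 : (0 : ℝ) < Real.exp L * (2 * K) * 5 ^ L := by positivity
  have h4 : (Real.exp L * (2 * K) * 5 ^ L)⁻¹ / 2 = (2 * (Real.exp L * (2 * K) * 5 ^ L))⁻¹ := by
    rw [mul_inv]
    ring
  rw [h4, Real.exp_neg]
  apply inv_strictAnti₀ (by positivity)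
  have h5 : 2 * (Real.exp L * (2 * K) * 5 ^ L) ≤ 4 ^ L * (Real.exp L * Real.exp L) * 5 ^ L := by
    have h6 : (4 : ℝ) ≤ 4 ^ L := by
      calc (4 : ℝ) = 4 ^ 1 := by norm_num
        _ ≤ 4 ^ L := pow_le_pow_right₀ (by norm_num) hL
    have h7 : 2 * (Real.exp L * (2 * K) * 5 ^ L) = 4 * (Real.exp L * K) * 5 ^ L := by ring
    rw [h7]
    apply mul_le_mul_of_nonneg_right _ (by positivity)
    apply mul_le_mul h6 _ (by positivity) (by positivity)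
    exact mul_le_mul_of_nonneg_left hKL (Real.exp_pos _).le
  refine h5.trans_lt ?_
  have h8 : (4 : ℝ) ^ L * (Real.exp L * Real.exp L) * 5 ^ L =
      20 ^ L * (Real.exp L * Real.exp L) := by
    have : (20 : ℝ) = 4 * 5 := by norm_num
    rw [this, mul_pow]
    ring
  have h9 : Real.exp (6 * L) = Real.exp 4 ^ L * (Real.exp L * Real.exp L) := by
    rw [← numA_pow 4 L, ← Real.exp_add, ← Real.exp_add]
    congr 1
    ring
  rw [h8, h9]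
  apply mul_lt_mul_of_pos_right _ (by positivity)
  exact pow_lt_pow_left₀ numA_e4 (by norm_num) (by omega)

/-- `(1 - c2)^n 5^L < 1` with `c2 = 4^(-ν) / 8`, `n = 16 L 4^ν`, as `c2 n = 2 L > L log 5` -/
theorem num_n (L ν d : ℕ) (hL : 1 ≤ L) (hd : d ≤ L) :
    (1 - ((4 : ℝ) ^ ν)⁻¹ / 8) ^ (16 * L * 4 ^ ν) * 5 ^ d < 1 := by
  have h4 : (1 : ℝ) ≤ 4 ^ ν := one_le_pow₀ (by norm_num)
  have h4' : ((4 : ℝ) ^ ν)⁻¹ ≤ 1 := inv_le_one_of_one_le₀ h4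
  have h4p : (0 : ℝ) < 4 ^ ν := by positivity
  have h1 : (1 - ((4 : ℝ) ^ ν)⁻¹ / 8) ^ (16 * L * 4 ^ ν) ≤ Real.exp (-(2 * L)) := by
    apply numA_one_sub (by linarith)
    push_cast
    field_simp
    ring
  have h2 : (5 : ℝ) ^ d ≤ 5 ^ L := pow_le_pow_right₀ (by norm_num) hd
  have h3 : (5 : ℝ) ^ L < Real.exp (2 * L) := by
    rw [numA_pow 2 L]
    exact pow_lt_pow_left₀ numA_e2 (by norm_num) (by omega)
  calc (1 - ((4 : ℝ) ^ ν)⁻¹ / 8) ^ (16 * L * 4 ^ ν) * 5 ^ d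
      ≤ Real.exp (-(2 * L)) * 5 ^ d := mul_le_mul_of_nonneg_right h1 (by positivity)
    _ < Real.exp (-(2 * L)) * Real.exp (2 * L) :=
        mul_lt_mul_of_pos_left (h2.trans_lt h3) (Real.exp_pos _)
    _ = 1 := by rw [← Real.exp_add]; simp

end NumA

section NumB



/-- moments: `k = 100 L^2`; logarithms: `(k - 1) log 4 ≥ 138 L^2 - 1.4`, right side
`log 2 + L log (200 L^2 + 1) + L log 5 + L` -/
theorem num_k (L d : ℕ) (hL : 1 ≤ L) (hd : d ≤ L) :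
    2 * (2 * (100 * L ^ 2 : ℕ) + 1 : ℝ) ^ d * (5 ^ d * Real.exp L) ≤ 4 ^ (100 * L ^ 2 - 1) := by
  have hLR : (1 : ℝ) ≤ L := by exact_mod_cast hL
  have hL2 : (1 : ℝ) ≤ (L : ℝ) ^ 2 := one_le_pow₀ hLR
  have h1 : (1 : ℝ) ≤ 2 * (100 * L ^ 2 : ℕ) + 1 := by
    have : (0 : ℝ) ≤ ((100 * L ^ 2 : ℕ) : ℝ) := Nat.cast_nonneg _
    linarith
  have h2 : (2 * (100 * L ^ 2 : ℕ) + 1 : ℝ) ^ d ≤ (201 * (L : ℝ) ^ 2) ^ L := by
    calc (2 * (100 * L ^ 2 : ℕ) + 1 : ℝ) ^ d ≤ (2 * (100 * L ^ 2 : ℕ) + 1 : ℝ) ^ L :=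
          pow_le_pow_right₀ h1 hd
      _ ≤ (201 * (L : ℝ) ^ 2) ^ L := by
          apply pow_le_pow_left₀ (by linarith)
          push_cast
          linarith
  have h3 : (5 : ℝ) ^ d ≤ 5 ^ L := pow_le_pow_right₀ (by norm_num) hd
  have h4 : Real.exp L ≤ 3 ^ L := by
    have : Real.exp (L : ℝ) = Real.exp 1 ^ L := by rw [← Real.exp_nat_mul]; simp
    rw [this]
    exact pow_le_pow_left₀ (Real.exp_pos _).le (by have := Real.exp_one_lt_d9; linarith) _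
  have h5 : (L : ℝ) ≤ 2 ^ L := by
    have := (Nat.lt_two_pow_self (n := L)).le
    exact_mod_cast this
  have h6 : (201 * (L : ℝ) ^ 2 * 5 * 3) ≤ 2 ^ (12 + 2 * L) := by
    have h7 : (L : ℝ) ^ 2 ≤ (2 ^ L) ^ 2 := pow_le_pow_left₀ (by linarith) h5 2
    have h8 : (2 : ℝ) ^ (12 + 2 * L) = 4096 * (2 ^ L) ^ 2 := by
      rw [pow_add, ← pow_mul, Nat.mul_comm L 2]; norm_num
    rw [h8]
    nlinarith
  have h9 : 2 * ((201 * (L : ℝ) ^ 2) ^ L) * (5 ^ L * 3 ^ L) = 2 * (201 * (L : ℝ) ^ 2 * 5 * 3) ^ L := by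
    rw [mul_pow (201 * (L : ℝ) ^ 2 * 5) 3, mul_pow (201 * (L : ℝ) ^ 2) 5]; ring
  calc 2 * (2 * (100 * L ^ 2 : ℕ) + 1 : ℝ) ^ d * (5 ^ d * Real.exp L)
      ≤ 2 * ((201 * (L : ℝ) ^ 2) ^ L) * (5 ^ L * 3 ^ L) := by
        gcongr
    _ = 2 * (201 * (L : ℝ) ^ 2 * 5 * 3) ^ L := h9
    _ ≤ 2 * (2 ^ (12 + 2 * L)) ^ L := by
        gcongr
    _ = 2 ^ (1 + (12 + 2 * L) * L) := by rw [← pow_mul, pow_add 2 1]; norm_num
    _ ≤ 2 ^ (2 * (100 * L ^ 2 - 1)) := by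
        apply pow_le_pow_right₀ (by norm_num)
        have : 1 ≤ L ^ 2 := Nat.one_le_pow _ _ hL
        have h10 : L ≤ L ^ 2 := by nlinarith
        have h11 : (12 + 2 * L) * L = 12 * L + 2 * L ^ 2 := by ring
        rw [h11]
        omega
    _ = 4 ^ (100 * L ^ 2 - 1) := by rw [pow_mul]; norm_num

end NumB

section NumC



private theorem numC_exp_lower (n : ℕ) : (2.7182818283 : ℝ) ^ n ≤ Real.exp n := by
  have h := Real.exp_one_gt_d9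
  calc (2.7182818283 : ℝ) ^ n ≤ Real.exp 1 ^ n := by gcongr
    _ = Real.exp n := by rw [← Real.exp_nat_mul]; norm_num

private theorem numC_facts (L ν : ℕ) (hL : 1 ≤ L) (hν : 1 + Real.log L ≤ ν) :
    (1 : ℝ) ≤ L ∧ (1 : ℝ) ≤ ν ∧ (L : ℝ) ≤ Real.exp ν ∧ (4 : ℝ) ^ ν ≤ Real.exp (2 * ν) ∧
      (64 : ℝ) ^ ν ≤ Real.exp (5 * ν) ∧ (5 : ℝ) ^ L ≤ Real.exp (2 * L) := by
  have hL1 : (1 : ℝ) ≤ L := by exact_mod_cast hL
  have hlog : 0 ≤ Real.log L := Real.log_nonneg hL1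
  have h2 : (5 : ℝ) ≤ Real.exp 2 := by
    refine le_trans ?_ (numC_exp_lower 2)
    norm_num
  have h5 : (64 : ℝ) ≤ Real.exp 5 := by
    refine le_trans ?_ (numC_exp_lower 5)
    norm_num
  refine ⟨hL1, by linarith, ?_, ?_, ?_, ?_⟩
  · calc (L : ℝ) = Real.exp (Real.log L) := (Real.exp_log (by linarith)).symm
      _ ≤ Real.exp ν := Real.exp_le_exp.2 (by linarith)
  · calc (4 : ℝ) ^ ν ≤ Real.exp 2 ^ ν := by gcongr; linarith
      _ = Real.exp (2 * ν) := by rw [← Real.exp_nat_mul]; ring_nf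
  · calc (64 : ℝ) ^ ν ≤ Real.exp 5 ^ ν := by gcongr
      _ = Real.exp (5 * ν) := by rw [← Real.exp_nat_mul]; ring_nf
  · calc (5 : ℝ) ^ L ≤ Real.exp 2 ^ L := by gcongr
      _ = Real.exp (2 * L) := by rw [← Real.exp_nat_mul]; ring_nf

private theorem numC_pow (d L : ℕ) (hd : d ≤ L) (x y : ℝ) (hx : 1 ≤ x) (hxy : x ≤ Real.exp y) :
    x ^ d ≤ Real.exp (y * L) := by
  calc x ^ d ≤ x ^ L := pow_le_pow_right₀ hx hd
    _ ≤ Real.exp y ^ L := by gcongr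
    _ = Real.exp (y * L) := by rw [← Real.exp_nat_mul]; ring_nf

/-- the ratio; all bases are `≥ 1`, replace `d` by `L`; take logarithms, `log L ≤ ν - 1`:
`log 64 + ν log 4 + L log 5 + L + L log (200 L^2 + 1) + L log (64 L 4^ν + 1) ≤ 20 L ν` -/
theorem num_ratio (L ν d : ℕ) (hL : 1 ≤ L) (hd : d ≤ L) (hν : 1 + Real.log L ≤ ν) :
    64 * 4 ^ ν * (5 ^ d * Real.exp L) * (2 * (100 * L ^ 2 : ℕ) + 1 : ℝ) ^ d *
      (4 * (16 * L * 4 ^ ν : ℕ) + 1 : ℝ) ^ d ≤ Real.exp (30 * L * ν) := by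
  obtain ⟨hL1, hν1, hLν, h4, -, h5⟩ := numC_facts L ν hL hν
  have hz : (1 : ℝ) ≤ L * ν := one_le_mul_of_one_le_of_one_le hL1 hν1
  have hz1 : (ν : ℝ) ≤ L * ν := le_mul_of_one_le_left (by linarith) hL1
  have hz2 : (L : ℝ) ≤ L * ν := le_mul_of_one_le_right (by linarith) hν1
  have h4' : (1 : ℝ) ≤ 4 ^ ν := one_le_pow₀ (by norm_num)
  have hL2 : (1 : ℝ) ≤ (L : ℝ) ^ 2 := one_le_pow₀ hL1
  have a1 : (64 : ℝ) ≤ Real.exp (5 * (L * ν)) := by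
    refine le_trans ?_ (Real.exp_le_exp.2 (show ((5 : ℕ) : ℝ) ≤ 5 * (L * ν) by push_cast; linarith))
    refine le_trans ?_ (numC_exp_lower 5)
    norm_num
  have a2 : (4 : ℝ) ^ ν ≤ Real.exp (2 * (L * ν)) := h4.trans (Real.exp_le_exp.2 (by linarith))
  have a3 : (5 : ℝ) ^ d ≤ Real.exp (2 * (L * ν)) := by
    calc (5 : ℝ) ^ d ≤ 5 ^ L := pow_le_pow_right₀ (by norm_num) hd
      _ ≤ Real.exp (2 * L) := h5
      _ ≤ _ := Real.exp_le_exp.2 (by linarith)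
  have a4 : Real.exp L ≤ Real.exp (1 * (L * ν)) := Real.exp_le_exp.2 (by linarith)
  have a5 : (2 * (100 * L ^ 2 : ℕ) + 1 : ℝ) ^ d ≤ Real.exp (8 * (L * ν)) := by
    refine (numC_pow d L hd _ (8 * ν) ?_ ?_).trans (le_of_eq (by congr 1; ring))
    · push_cast; nlinarith
    · push_cast
      have e1 : (201 : ℝ) ≤ Real.exp (6 * ν) := by
        refine le_trans ?_ (Real.exp_le_exp.2 (show ((6 : ℕ) : ℝ) ≤ 6 * ν by push_cast; linarith))
        refine le_trans ?_ (numC_exp_lower 6)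
        norm_num
      calc 2 * (100 * (L : ℝ) ^ 2) + 1 ≤ 201 * (L : ℝ) ^ 2 := by linarith
        _ ≤ Real.exp (6 * ν) * Real.exp ν ^ 2 := by gcongr
        _ = Real.exp (8 * ν) := by
            rw [← Real.exp_nat_mul, ← Real.exp_add]; congr 1; push_cast; ring
  have a6 : (4 * (16 * L * 4 ^ ν : ℕ) + 1 : ℝ) ^ d ≤ Real.exp (8 * (L * ν)) := by
    refine (numC_pow d L hd _ (8 * ν) ?_ ?_).trans (le_of_eq (by congr 1; ring))
    · push_cast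
      have : (0 : ℝ) ≤ 16 * L * 4 ^ ν := by positivity
      linarith
    · push_cast
      have e1 : (65 : ℝ) ≤ Real.exp (5 * ν) := by
        refine le_trans ?_ (Real.exp_le_exp.2 (show ((5 : ℕ) : ℝ) ≤ 5 * ν by push_cast; linarith))
        refine le_trans ?_ (numC_exp_lower 5)
        norm_num
      have e2 : (1 : ℝ) ≤ L * 4 ^ ν := one_le_mul_of_one_le_of_one_le hL1 h4'
      calc 4 * (16 * (L : ℝ) * 4 ^ ν) + 1 ≤ 65 * ((L : ℝ) * 4 ^ ν) := by linarith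
        _ ≤ Real.exp (5 * ν) * (Real.exp ν * Real.exp (2 * ν)) := by gcongr
        _ = Real.exp (8 * ν) := by
            rw [← Real.exp_add, ← Real.exp_add]; congr 1; ring
  calc 64 * 4 ^ ν * (5 ^ d * Real.exp L) * (2 * (100 * L ^ 2 : ℕ) + 1 : ℝ) ^ d *
      (4 * (16 * L * 4 ^ ν : ℕ) + 1 : ℝ) ^ d ≤
        Real.exp (5 * (L * ν)) * Real.exp (2 * (L * ν)) *
          (Real.exp (2 * (L * ν)) * Real.exp (1 * (L * ν))) * Real.exp (8 * (L * ν)) *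
            Real.exp (8 * (L * ν)) := by gcongr
    _ = Real.exp (26 * (L * ν)) := by
        rw [← Real.exp_add, ← Real.exp_add, ← Real.exp_add, ← Real.exp_add, ← Real.exp_add]
        congr 1; ring
    _ ≤ Real.exp (30 * L * ν) := Real.exp_le_exp.2 (by linarith)

/-- the volume; `2 / η + 1`, `1 / η = 2 j n = 3200 L^2 64^ν` -/
theorem num_vol (L ν d : ℕ) (hL : 1 ≤ L) (hd : d ≤ L) (hν : 1 + Real.log L ≤ ν) :
    4 * (5 ^ d * Real.exp L) * (2 * (2 * (100 * L * 16 ^ ν : ℕ) * (16 * L * 4 ^ ν : ℕ)) + 1 : ℝ) ^ d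
      ≤ Real.exp (30 * L * ν) := by
  obtain ⟨hL1, hν1, hLν, -, h64, h5⟩ := numC_facts L ν hL hν
  have hz : (1 : ℝ) ≤ L * ν := one_le_mul_of_one_le_of_one_le hL1 hν1
  have hz1 : (ν : ℝ) ≤ L * ν := le_mul_of_one_le_left (by linarith) hL1
  have hz2 : (L : ℝ) ≤ L * ν := le_mul_of_one_le_right (by linarith) hν1
  have h64' : (1 : ℝ) ≤ 64 ^ ν := one_le_pow₀ (by norm_num)
  have hL2 : (1 : ℝ) ≤ (L : ℝ) ^ 2 := one_le_pow₀ hL1
  have a1 : (4 : ℝ) ≤ Real.exp (2 * (L * ν)) := by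
    refine le_trans ?_ (Real.exp_le_exp.2 (show ((2 : ℕ) : ℝ) ≤ 2 * (L * ν) by push_cast; linarith))
    refine le_trans ?_ (numC_exp_lower 2)
    norm_num
  have a3 : (5 : ℝ) ^ d ≤ Real.exp (2 * (L * ν)) := by
    calc (5 : ℝ) ^ d ≤ 5 ^ L := pow_le_pow_right₀ (by norm_num) hd
      _ ≤ Real.exp (2 * L) := h5
      _ ≤ _ := Real.exp_le_exp.2 (by linarith)
  have a4 : Real.exp L ≤ Real.exp (1 * (L * ν)) := Real.exp_le_exp.2 (by linarith)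
  have hbase : (2 * (2 * (100 * L * 16 ^ ν : ℕ) * (16 * L * 4 ^ ν : ℕ)) + 1 : ℝ) =
      6400 * (L : ℝ) ^ 2 * 64 ^ ν + 1 := by
    push_cast
    have : (64 : ℝ) ^ ν = 16 ^ ν * 4 ^ ν := by rw [← mul_pow]; norm_num
    rw [this]
    ring
  have a5 : (2 * (2 * (100 * L * 16 ^ ν : ℕ) * (16 * L * 4 ^ ν : ℕ)) + 1 : ℝ) ^ d ≤
      Real.exp (16 * (L * ν)) := by
    rw [hbase]
    refine (numC_pow d L hd _ (16 * ν) ?_ ?_).trans (le_of_eq (by congr 1; ring))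
    · have : (0 : ℝ) ≤ 6400 * (L : ℝ) ^ 2 * 64 ^ ν := by positivity
      linarith
    · have e1 : (6401 : ℝ) ≤ Real.exp (9 * ν) := by
        refine le_trans ?_ (Real.exp_le_exp.2 (show ((9 : ℕ) : ℝ) ≤ 9 * ν by push_cast; linarith))
        refine le_trans ?_ (numC_exp_lower 9)
        norm_num
      have e2 : (1 : ℝ) ≤ (L : ℝ) ^ 2 * 64 ^ ν := one_le_mul_of_one_le_of_one_le hL2 h64'
      calc 6400 * (L : ℝ) ^ 2 * 64 ^ ν + 1 ≤ 6401 * ((L : ℝ) ^ 2 * 64 ^ ν) := by linarith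
        _ ≤ Real.exp (9 * ν) * (Real.exp ν ^ 2 * Real.exp (5 * ν)) := by gcongr
        _ = Real.exp (16 * ν) := by
            rw [← Real.exp_nat_mul, ← Real.exp_add, ← Real.exp_add]; congr 1; push_cast; ring
  calc 4 * (5 ^ d * Real.exp L) *
        (2 * (2 * (100 * L * 16 ^ ν : ℕ) * (16 * L * 4 ^ ν : ℕ)) + 1 : ℝ) ^ d ≤
        Real.exp (2 * (L * ν)) * (Real.exp (2 * (L * ν)) * Real.exp (1 * (L * ν))) *
          Real.exp (16 * (L * ν)) := by gcongr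
    _ = Real.exp (21 * (L * ν)) := by
        rw [← Real.exp_add, ← Real.exp_add, ← Real.exp_add]
        congr 1; ring
    _ ≤ Real.exp (30 * L * ν) := Real.exp_le_exp.2 (by linarith)

end NumC

end Pool.Agent.W_626a77_h79
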