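import Pool.Agent.W_626a77_h79.EnergyB
import Pool.Agent.W_626a77_h79.AveragesA
import Pool.Agent.W_626a77_h79.AveragesB
import Pool.Agent.W_626a77_h79.Geometry
import Pool.Agent.W_626a77_h79.Numerics

/-!
# From a convex progression in the spectrum to a Bohr set with a dense piece of `A`
-/

set_option autoImplicit false

open Finset
open scoped Pointwise

namespace Pool.Agent.W_626a77_h79

theorem middle {M : ℕ} [NeZero M] (A : Finset (ZMod M)) (hA : A.Nonempty) (K : ℝ) (hK : 1 ≤ K)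
    (L ν : ℕ) (hL : 1 ≤ L) (hKL : K ≤ Real.exp L) (hν : 1 + Real.log L ≤ ν) {d : ℕ} (hd : d ≤ L)
    {B : Set (Fin d → ℝ)} (hB : Body B) (f : (Fin d → ℤ) →+ ℤ) (hinj : Set.InjOn f (X B 1))
    (t : ℤ) (D1 : Finset (Fin d → ℤ)) (hD1 : D1 ⊆ X B 1)
    (hDX : ((X B 1).card : ℝ) ≤ Real.exp L * D1.card)
    (hr : ∀ m ∈ D1, 0 ≤ t + f m ∧ t + f m < M)
    (hs : ∀ m ∈ D1, (A.card : ℝ) ^ 2 / (2 * K) ≤ ‖hat A ((t + f m : ℤ) : ZMod M)‖ ^ 2) :
    ∃ (φ : (Fin d → ℤ) →+ ZMod M) (Y : Finset (Fin d → ℤ)) (A' : Finset (ZMod M)), A' ⊆ A ∧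
      (A.card : ℝ) ≤ Real.exp (7 * L) * A'.card ∧
      (∀ x ∈ A', ∀ y ∈ A', x - y ∈ Bz φ Y (4 * (4 ^ ν)⁻¹)) ∧
      ((Bz φ Y 1).card : ℝ) * (X B 1).card ≤ M * Real.exp (30 * L * ν) ∧
      ((Bz φ Y 1).card : ℝ) ≤ Real.exp (30 * L * ν) *
        ((Bz φ Y (4 ^ ν)⁻¹).filter (fun z => ‖1 - ch M z‖ ≤ (4 ^ ν)⁻¹)).card := by
  classical
  -- abbreviations
  obtain ⟨φ, hφ⟩ : ∃ φ : (Fin d → ℤ) →+ ZMod M, φ = (Int.castAddHom (ZMod M)).comp f := ⟨_, rfl⟩
  have hφa : ∀ m, φ m = ((f m : ℤ) : ZMod M) := by intro m; rw [hφ]; rfl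
  obtain ⟨j, hj⟩ : ∃ j : ℕ, j = 100 * L * 16 ^ ν := ⟨_, rfl⟩
  obtain ⟨n, hn⟩ : ∃ n : ℕ, n = 16 * L * 4 ^ ν := ⟨_, rfl⟩
  obtain ⟨k, hk⟩ : ∃ k : ℕ, k = 100 * L ^ 2 := ⟨_, rfl⟩
  have h4 : (0 : ℝ) < 4 ^ ν := by positivity
  have h41 : (1 : ℝ) ≤ 4 ^ ν := one_le_pow₀ (by norm_num)
  have hi4 : (0 : ℝ) < ((4 : ℝ) ^ ν)⁻¹ := by positivity
  have hi41 : ((4 : ℝ) ^ ν)⁻¹ ≤ 1 := by rw [inv_le_one₀ h4]; exact h41
  have hj1 : 1 ≤ j := by
    rw [hj]
    have : 0 < 100 * L * 16 ^ ν := by positivity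
    exact this
  have hn1 : 1 ≤ n := by
    rw [hn]
    have : 0 < 16 * L * 4 ^ ν := by positivity
    exact this
  have hk1 : 1 ≤ k := by
    rw [hk]
    have : 0 < 100 * L ^ 2 := by positivity
    exact this
  have hjr : (1 : ℝ) ≤ j := by exact_mod_cast hj1
  have hnr : (1 : ℝ) ≤ n := by exact_mod_cast hn1
  have hj0 : (0 : ℝ) < j := by linarith
  have hn0 : (0 : ℝ) < n := by linarith
  obtain ⟨σ, hσ⟩ : ∃ σ : ℝ, σ = 1 / j := ⟨_, rfl⟩
  have hσ0 : 0 < σ := by rw [hσ]; positivity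
  obtain ⟨c2, hc2⟩ : ∃ c2 : ℝ, c2 = ((4 : ℝ) ^ ν)⁻¹ / 8 := ⟨_, rfl⟩
  have hc20 : 0 < c2 := by rw [hc2]; positivity
  have hc21 : c2 ≤ 1 / 8 := by rw [hc2]; linarith
  obtain ⟨s, hs1, hs2, hs3, hreg⟩ := exists_regular hB σ hσ0 n hn1 c2 hc20 (by linarith) (by
    rw [hc2, hn]; exact num_n L ν d hL hd)
  obtain ⟨η, hη⟩ : ∃ η : ℝ, η = σ / (2 * n) := ⟨_, rfl⟩
  rw [← hη] at hs3 hreg
  have hη0 : 0 < η := by rw [hη]; positivity
  have hs0 : 0 < s := by linarith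
  have hjs : (j : ℝ) * s ≤ 1 := by
    calc (j : ℝ) * s ≤ j * σ := by gcongr
      _ = 1 := by rw [hσ]; field_simp
  have hsone : s ≤ 1 / 2 := by
    have : (100 : ℝ) ≤ j := by
      have e1 : 100 * 1 * 1 ≤ 100 * L * 16 ^ ν := by
        apply Nat.mul_le_mul
        · exact Nat.mul_le_mul_left _ hL
        · exact Nat.one_le_pow _ _ (by norm_num)
      have e2 : 100 ≤ j := by rw [hj]; linarith
      exact_mod_cast e2
    nlinarith
  have hηs : η ≤ s := by linarith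
  have hsη : s - η + η = s := by ring
  -- finite sets
  obtain ⟨Xs, hXs⟩ : ∃ Z, Z = X B s := ⟨_, rfl⟩
  obtain ⟨Xi, hXi⟩ : ∃ Z, Z = X B (s - η) := ⟨_, rfl⟩
  obtain ⟨Y, hY⟩ : ∃ Z, Z = X B η := ⟨_, rfl⟩
  obtain ⟨X1, hX1⟩ : ∃ Z, Z = X B 1 := ⟨_, rfl⟩
  obtain ⟨K2, hK2⟩ : ∃ K2 : Finset (Fin d → ℤ), K2 = (X B 1).filter (fun h => φ h = 0) := ⟨_, rfl⟩
  have hXsne : Xs.Nonempty := by rw [hXs]; exact ⟨0, zero_mem_X hB s⟩
  have hYne : Y.Nonempty := by rw [hY]; exact ⟨0, zero_mem_X hB η⟩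
  have hX1ne : (X B 1).Nonempty := ⟨0, zero_mem_X hB 1⟩
  have hX1pos : (0 : ℝ) < (X B 1).card := by exact_mod_cast hX1ne.card_pos
  have hXspos : (0 : ℝ) < Xs.card := by exact_mod_cast hXsne.card_pos
  have hYpos : (0 : ℝ) < Y.card := by exact_mod_cast hYne.card_pos
  have hApos : (0 : ℝ) < A.card := by exact_mod_cast hA.card_pos
  have hD1pos : (0 : ℝ) < D1.card := by
    by_contra hcon
    have e1 : (D1.card : ℝ) = 0 := le_antisymm (not_lt.1 hcon) (Nat.cast_nonneg _)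
    rw [e1, mul_zero] at hDX
    linarith
  -- kernel bound
  have hker : (K2.card : ℝ) ≤ 5 ^ d * Real.exp L := by
    have h1 : D1.card * K2.card ≤ (X B 2).card := by
      apply ker_card f (X B 1) (X B 2) D1 K2 hD1 hinj t hr
      · intro h hh
        rw [hK2, Finset.mem_filter, hφa] at hh
        exact hh.2
      · intro m hm h hh
        rw [hK2, Finset.mem_filter] at hh
        have := add_mem_X hB (zero_le_one) (zero_le_one) (hD1 hm) hh.1
        norm_num at this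
        exact this
    have h2 : ((X B 2).card : ℝ) ≤ 5 ^ d * (X B 1).card := by
      have := card_X_le hB (s := 1) (t := 2) one_pos (by norm_num)
      norm_num at this
      exact this
    have h3 : (D1.card : ℝ) * K2.card ≤ (X B 2).card := by exact_mod_cast h1
    have h4 : (D1.card : ℝ) * K2.card ≤ D1.card * (5 ^ d * Real.exp L) := by
      calc (D1.card : ℝ) * K2.card ≤ 5 ^ d * (X B 1).card := h3.trans h2
        _ ≤ 5 ^ d * (Real.exp L * D1.card) := by gcongr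
        _ = D1.card * (5 ^ d * Real.exp L) := by ring
    exact le_of_mul_le_mul_left h4 hD1pos
  have hK2s : ∀ r : ℝ, 0 ≤ r → r ≤ 1 / 2 → ∀ m ∈ X B r, ∀ m' ∈ X B r, φ m = φ m' → m - m' ∈ K2 := by
    intro r hr0 hr1 m hm m' hm' hmm
    rw [hK2, Finset.mem_filter]
    refine ⟨X_mono hB (by linarith) (by linarith) (sub_mem_X hB hr0 hr0 hm hm'), ?_⟩
    rw [map_sub, hmm, sub_self]
  -- dense piece
  have h5L : (5 : ℝ) ^ d ≤ 5 ^ L := pow_le_pow_right₀ (by norm_num) hd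
  obtain ⟨ρ, hρ⟩ : ∃ ρ : ℝ, ρ = (Real.exp L * (2 * K) * 5 ^ L)⁻¹ := ⟨_, rfl⟩
  have hρ0 : 0 < ρ := by rw [hρ]; positivity
  have hK0 : 0 < K := by linarith
  obtain ⟨c, hc⟩ : ∃ c : ℝ, c = ((16 : ℝ) ^ ν)⁻¹ / 16 := ⟨_, rfl⟩
  have hc0 : 0 ≤ c := by rw [hc]; positivity
  have h161 : ((16 : ℝ) ^ ν)⁻¹ ≤ 1 := by
    rw [inv_le_one₀ (by positivity)]; exact one_le_pow₀ (by norm_num)
  have hc1 : c ≤ 1 := by rw [hc]; linarith
  have hsqrt : Real.sqrt c = ((4 : ℝ) ^ ν)⁻¹ / 4 := by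
    have e1 : c = (((4 : ℝ) ^ ν)⁻¹ / 4) ^ 2 := by
      rw [hc, div_pow, inv_pow, ← pow_mul, mul_comm ν 2, pow_mul]
      norm_num
    rw [e1, Real.sqrt_sq (by positivity)]
  have hsum : ρ * (A.card : ℝ) ^ 2 ≤ ∑ x ∈ A, ∑ y ∈ A, ‖av φ Xs (x - y)‖ ^ j := by
    have hd1 := dense φ A (X B 2) Xs D1 hXsne (t : ZMod M) j (by
      intro m hm g hg
      have e1 : ∑ i, g i ∈ X B (j * s) := sum_mem_X hB hs0.le j g (by
        intro i; rw [← hXs]; exact hg i)
      have e2 := sub_mem_X hB zero_le_one (by positivity) (hD1 hm) e1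
      exact X_mono hB (by positivity) (by linarith) e2) ((A.card : ℝ) ^ 2 / (2 * K)) (by
      intro m hm
      have := hs m hm
      push_cast at this
      rw [hφa]
      exact this)
    obtain ⟨Sg, hSg⟩ : ∃ z : ℝ, z = ∑ x ∈ A, ∑ y ∈ A, ‖av φ Xs (x - y)‖ ^ j := ⟨_, rfl⟩
    rw [← hSg] at hd1 ⊢
    have hSg0 : 0 ≤ Sg := by rw [hSg]; positivity
    have h2 : ((X B 2).card : ℝ) ≤ 5 ^ d * (X B 1).card := by
      have := card_X_le hB (s := 1) (t := 2) one_pos (by norm_num)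
      norm_num at this
      exact this
    have h3 : (D1.card : ℝ) * ((A.card : ℝ) ^ 2 / (2 * K)) ≤
        D1.card * (5 ^ L * Real.exp L * Sg) := by
      calc (D1.card : ℝ) * ((A.card : ℝ) ^ 2 / (2 * K)) ≤ (X B 2).card * Sg := hd1
        _ ≤ (5 ^ L * (Real.exp L * D1.card)) * Sg := by
            refine mul_le_mul_of_nonneg_right (h2.trans ?_) hSg0
            gcongr
        _ = D1.card * (5 ^ L * Real.exp L * Sg) := by ring
    have h4 := le_of_mul_le_mul_left h3 hD1pos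
    rw [div_le_iff₀ (by positivity)] at h4
    rw [hρ, inv_mul_le_iff₀ (by positivity)]
    calc (A.card : ℝ) ^ 2 ≤ 5 ^ L * Real.exp L * Sg * (2 * K) := h4
      _ = Real.exp L * (2 * K) * 5 ^ L * Sg := by ring
  obtain ⟨x0, hx0, hpop⟩ := exists_popular A hA (fun z => ‖av φ Xs z‖) (fun z => norm_nonneg _)
    (fun z => norm_av_le φ Xs z) j ρ c hρ0 hc1 (by
      rw [hρ, hc, hj]; exact num_j L ν hL K hK hKL) hsum
  refine ⟨φ, Y, A.filter (fun y => 1 - c ≤ ‖av φ Xs (x0 - y)‖), Finset.filter_subset _ _, ?_, ?_,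
    ?_, ?_⟩
  · -- size of the dense piece
    have e1 : (A.card : ℝ) ≤ 2 / ρ *
        ((A.filter (fun y => 1 - c ≤ ‖av φ Xs (x0 - y)‖)).card : ℝ) := by
      have : (A.card : ℝ) = 2 / ρ * (ρ / 2 * A.card) := by field_simp
      rw [this]
      gcongr
    refine e1.trans ?_
    have e2 : 2 / ρ ≤ Real.exp (7 * L) := by
      rw [hρ, div_inv_eq_mul]
      have hL1 : (1 : ℝ) ≤ L := by exact_mod_cast hL
      have e3 : (4 : ℝ) ≤ Real.exp (2 * L) := by
        have e5 := Real.exp_one_gt_d9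
        calc (4 : ℝ) ≤ 2.7182818283 ^ 2 := by norm_num
          _ ≤ Real.exp 1 ^ 2 := by gcongr
          _ = Real.exp 2 := by rw [← Real.exp_nat_mul]; norm_num
          _ ≤ Real.exp (2 * L) := Real.exp_le_exp.2 (by linarith)
      calc 2 * (Real.exp L * (2 * K) * 5 ^ L) = 4 * (Real.exp L * K * 5 ^ L) := by ring
        _ ≤ Real.exp (2 * L) * (Real.exp L * Real.exp L * Real.exp (2 * L)) := by
            gcongr
            exact five_pow_le L
        _ = Real.exp (6 * L) := by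
            rw [← Real.exp_add, ← Real.exp_add, ← Real.exp_add]; congr 1; ring
        _ ≤ Real.exp (7 * L) := Real.exp_le_exp.2 (by linarith)
    gcongr
  · -- differences
    intro x hx y hy
    rw [Finset.mem_filter] at hx hy
    simp only [Bz, Finset.mem_filter, Finset.mem_univ, true_and]
    intro b hb
    rw [hY] at hb
    have key : ∀ z : ZMod M, 1 - c ≤ ‖av φ Xs z‖ → ‖1 - ch M (z * φ b)‖ ≤ ((4 : ℝ) ^ ν)⁻¹ := by
      intro z hz
      have := overlap_one φ Xs Xi hXsne b (by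
        intro m hm
        rw [hXi] at hm
        rw [hXs]
        refine ⟨X_mono hB hs3 (by linarith) hm, ?_⟩
        have := add_mem_X hB hs3 hη0.le hm hb
        rwa [hsη] at this) (by
        rw [hXs, hXi]
        have : (0 : ℝ) ≤ (X B s).card := Nat.cast_nonneg _
        nlinarith) z c hc0 hz
      rw [hsqrt] at this
      linarith
    have k1 := key (x0 - x) hx.2
    have k2 := key (x0 - y) hy.2
    have e1 : ch M ((x0 - y) * φ b) = ch M ((x - y) * φ b) * ch M ((x0 - x) * φ b) := by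
      rw [← ch_add]; congr 1; ring
    have e2 : ‖1 - ch M ((x - y) * φ b)‖ = ‖ch M ((x0 - x) * φ b) - ch M ((x0 - y) * φ b)‖ := by
      have : ch M ((x0 - x) * φ b) - ch M ((x0 - y) * φ b)
          = (1 - ch M ((x - y) * φ b)) * ch M ((x0 - x) * φ b) := by rw [e1]; ring
      rw [this, norm_mul, norm_ch, mul_one]
    rw [e2]
    have e3 : ch M ((x0 - x) * φ b) - ch M ((x0 - y) * φ b)
        = (1 - ch M ((x0 - y) * φ b)) - (1 - ch M ((x0 - x) * φ b)) := by ring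
    rw [e3]
    refine (norm_sub_le _ _).trans ?_
    linarith
  · -- volume
    have h1 := upper φ Y K2 hYne (by rw [hY]; exact hK2s η hη0.le (by linarith))
    have h2 : ((X B 1).card : ℝ) ≤ (2 / η + 1) ^ d * Y.card := by
      have := card_X_le hB (s := η) (t := 1) hη0 zero_le_one
      rw [mul_one] at this
      rw [hY]
      exact this
    have h3 : 2 / η + 1 = (2 * (2 * (100 * L * 16 ^ ν : ℕ) * (16 * L * 4 ^ ν : ℕ)) + 1 : ℝ) := by
      rw [hη, hσ, ← hj, ← hn]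
      field_simp
    have h4 := num_vol L ν d hL hd hν
    rw [← h3] at h4
    calc ((Bz φ Y 1).card : ℝ) * (X B 1).card ≤
          (Bz φ Y 1).card * ((2 / η + 1) ^ d * Y.card) := by gcongr
      _ = ((Bz φ Y 1).card * Y.card) * (2 / η + 1) ^ d := by ring
      _ ≤ (4 * M * K2.card) * (2 / η + 1) ^ d := by gcongr
      _ ≤ (4 * M * (5 ^ d * Real.exp L)) * (2 / η + 1) ^ d := by gcongr
      _ = M * (4 * (5 ^ d * Real.exp L) * (2 / η + 1) ^ d) := by ring
      _ ≤ M * Real.exp (30 * L * ν) := by gcongr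
  · -- ratio
    have h1 := upper φ Y K2 hYne (by rw [hY]; exact hK2s η hη0.le (by linarith))
    have hXk : ((X B (k * s)).card : ℝ) ≤ (2 * k + 1) ^ d * Xs.card := by
      have := card_X_le hB (s := s) (t := k * s) hs0 (by positivity)
      have e1 : 2 * (k * s) / s + 1 = 2 * (k : ℝ) + 1 := by field_simp
      rw [e1] at this
      rw [hXs]
      exact this
    have h2 := lower φ Xs (X B (k * s)) K2 hXsne k hk1 (by
      intro g hg
      exact sum_mem_X hB hs0.le k g (by intro i; rw [← hXs]; exact hg i)) (by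
      rw [hXs]; exact hK2s s hs0.le hsone) (by
      calc 2 * ((X B (k * s)).card : ℝ) * K2.card ≤
            2 * ((2 * k + 1) ^ d * Xs.card) * (5 ^ d * Real.exp L) := by gcongr
        _ = (2 * (2 * k + 1) ^ d * (5 ^ d * Real.exp L)) * Xs.card := by ring
        _ ≤ 4 ^ (k - 1) * Xs.card := by
            have := num_k L d hL hd
            rw [← hk] at this
            gcongr)
    have h3 : ((Finset.univ.filter (fun z : ZMod M => 1 / 2 ≤ ‖av φ Xs z‖)).card : ℝ) ≤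
        (Bz φ Y (((4 : ℝ) ^ ν)⁻¹ / 2)).card := by
      have : Finset.univ.filter (fun z : ZMod M => 1 / 2 ≤ ‖av φ Xs z‖) ⊆
          Bz φ Y (((4 : ℝ) ^ ν)⁻¹ / 2) := by
        intro z hz
        rw [Finset.mem_filter] at hz
        simp only [Bz, Finset.mem_filter, Finset.mem_univ, true_and]
        intro b hb
        rw [hY] at hb
        have := overlap_two φ Xs Xi hXsne b (by
          intro m hm
          rw [hXi] at hm
          rw [hXs]
          refine ⟨X_mono hB hs3 (by linarith) hm, ?_⟩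
          have := sub_mem_X hB hs3 hη0.le hm hb
          rwa [hsη] at this) c2 (by rw [hXs, hXi]; exact hreg) z hz.2
        rw [hc2] at this
        linarith
      exact_mod_cast Finset.card_le_card this
    have h4' : ((Bz φ Y (((4 : ℝ) ^ ν)⁻¹ / 2)).card : ℝ) ≤ 8 * 4 ^ ν *
        (((Bz φ Y ((4 : ℝ) ^ ν)⁻¹).filter (fun z => ‖1 - ch M z‖ ≤ ((4 : ℝ) ^ ν)⁻¹)).card : ℝ) := by
      have := interval_Bz φ Y (((4 : ℝ) ^ ν)⁻¹ / 2) (((4 : ℝ) ^ ν)⁻¹) (8 * 4 ^ ν)
        (Nat.one_le_iff_ne_zero.2 (by positivity)) (by linarith) (by positivity) (by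
          push_cast
          rw [div_le_iff₀ (by positivity)]
          have e1 : ((4 : ℝ) ^ ν)⁻¹ * (8 * 4 ^ ν) = 8 := by field_simp
          rw [e1]
          linarith [Real.pi_lt_four])
      exact_mod_cast this
    obtain ⟨F, hF⟩ : ∃ F : ℝ, F =
      (((Bz φ Y ((4 : ℝ) ^ ν)⁻¹).filter (fun z => ‖1 - ch M z‖ ≤ ((4 : ℝ) ^ ν)⁻¹)).card : ℝ) :=
      ⟨_, rfl⟩
    rw [← hF] at h4' ⊢
    have hF0 : 0 ≤ F := by rw [hF]; positivity
    have h5 : (Xs.card : ℝ) ≤ (4 * n + 1) ^ d * Y.card := by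
      have := card_X_le hB (s := η) (t := s) hη0 hs0.le
      rw [hXs, hY]
      refine this.trans ?_
      have e1 : 2 * s / η ≤ 4 * n := by
        rw [div_le_iff₀ hη0, hη]
        have : 4 * (n : ℝ) * (σ / (2 * n)) = 2 * σ := by field_simp; ring
        rw [this]
        linarith
      gcongr
    have h6 : (M : ℝ) ≤ 16 * 4 ^ ν * (2 * k + 1) ^ d * (4 * n + 1) ^ d * Y.card * F := by
      calc (M : ℝ) ≤ 2 * ((X B (k * s)).card : ℝ) *
            ((Finset.univ.filter (fun z : ZMod M => 1 / 2 ≤ ‖av φ Xs z‖)).card : ℝ) := h2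
        _ ≤ 2 * ((2 * k + 1) ^ d * ((4 * n + 1) ^ d * Y.card)) * (8 * 4 ^ ν * F) := by
            gcongr
            · exact hXk.trans (by gcongr)
            · exact h3.trans h4'
        _ = _ := by ring
    have h7 : ((Bz φ Y 1).card : ℝ) * Y.card ≤ (64 * 4 ^ ν * (5 ^ d * Real.exp L) *
        (2 * k + 1) ^ d * (4 * n + 1) ^ d * F) * Y.card := by
      calc ((Bz φ Y 1).card : ℝ) * Y.card ≤ 4 * M * K2.card := h1
        _ ≤ 4 * (16 * 4 ^ ν * (2 * k + 1) ^ d * (4 * n + 1) ^ d * Y.card * F) *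
              (5 ^ d * Real.exp L) := by gcongr
        _ = _ := by ring
    have h8 := le_of_mul_le_mul_right h7 hYpos
    refine h8.trans ?_
    have h9 := num_ratio L ν d hL hd hν
    rw [← hk, ← hn] at h9
    gcongr

end Pool.Agent.W_626a77_h79
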